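import Mathlib

/-! Artinian modules: extension by a locally nilpotent central-like element, and no surjection
`M^n → M^(n+1)`. -/

namespace Pool.Agent.H42R2

theorem stabilizes_of_le {R M : Type} [Ring R] [AddCommGroup M] [Module R M] (K : Submodule R M)
    [IsArtinian R K] (A : ℕ → Submodule R M) (hA : Antitone A) (hK : ∀ i, A i ≤ K) :
    ∃ i, ∀ j, i ≤ j → A j = A i := by
  have h := (monotone_stabilizes_iff_artinian (R := R) (M := K)).mpr inferInstance
    { toFun := fun i => OrderDual.toDual ((A i).comap K.subtype)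
      monotone' := by
        intro i j hij
        exact Submodule.comap_mono (hA hij) }
  obtain ⟨i, hi⟩ := h
  refine ⟨i, fun j hj => ?_⟩
  have e : (A i).comap K.subtype = (A j).comap K.subtype := hi j hj
  have e2 : ∀ i, ((A i).comap K.subtype).map K.subtype = A i := by
    intro i
    rw [Submodule.map_comap_subtype]
    exact inf_eq_right.mpr (hK i)
  rw [← e2 j, ← e2 i, e]

theorem artin_of_elt {R M : Type} [Ring R] [AddCommGroup M] [Module R M] (r : R)
    (hr : ∀ (a : R) (x : M), r • a • x = a • r • x) (hnil : ∀ x : M, ∃ k : ℕ, r ^ k • x = 0)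
    (K : Submodule R M) (hK : ∀ x, r • x = 0 → x ∈ K) [IsArtinian R K] : IsArtinian R M := by
  have hrk : ∀ (k : ℕ) (a : R) (x : M), r ^ k • a • x = a • r ^ k • x := by
    intro k
    induction k with
    | zero => intro a x; simp
    | succ k ih =>
      intro a x
      rw [pow_succ, mul_smul, mul_smul, hr, ih]
  let ζ : ℕ → (M →ₗ[R] M) := fun k =>
    { toFun := fun x => r ^ k • x
      map_add' := fun x y => smul_add _ x y
      map_smul' := fun a x => hrk k a x }
  rw [← monotone_stabilizes_iff_artinian]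
  intro f
  let S : ℕ → Submodule R M := fun j => OrderDual.ofDual (f j)
  have hS : Antitone S := fun i j hij => f.monotone hij
  let T : ℕ → ℕ → Submodule R M := fun j k => (S j ⊓ LinearMap.ker (ζ (k + 1))).map (ζ k)
  have hTmem : ∀ j k x, x ∈ T j k ↔ ∃ y ∈ S j, r ^ (k + 1) • y = 0 ∧ r ^ k • y = x := by
    intro j k x
    constructor
    · rintro ⟨y, ⟨hy1, hy2⟩, rfl⟩
      exact ⟨y, hy1, hy2, rfl⟩
    · rintro ⟨y, hy1, hy2, rfl⟩
      exact ⟨y, ⟨hy1, hy2⟩, rfl⟩
  have hTK : ∀ j k, T j k ≤ K := by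
    intro j k x hx
    obtain ⟨y, _, hy2, rfl⟩ := (hTmem j k x).mp hx
    apply hK
    rw [← mul_smul, ← pow_succ']
    exact hy2
  have hTj : ∀ k, Antitone (fun j => T j k) := by
    intro k i j hij x hx
    obtain ⟨y, hy, hy2, rfl⟩ := (hTmem j k x).mp hx
    exact (hTmem i k _).mpr ⟨y, hS hij hy, hy2, rfl⟩
  have hTk : ∀ j k, T j (k + 1) ≤ T j k := by
    intro j k x hx
    obtain ⟨y, hy, hy2, rfl⟩ := (hTmem j (k + 1) x).mp hx
    refine (hTmem j k _).mpr ⟨r • y, (S j).smul_mem r hy, ?_, ?_⟩
    · rw [← mul_smul, ← pow_succ]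
      exact hy2
    · rw [← mul_smul, ← pow_succ]
  have hTk' : ∀ j, Antitone (T j) := fun j => antitone_nat_of_succ_le (hTk j)
  obtain ⟨j0, hj0⟩ := stabilizes_of_le K (fun j => T j j)
    (fun i j hij => (hTj j hij).trans (hTk' i hij)) (fun j => hTK j j)
  have hst : ∀ k, ∃ J, ∀ j, J ≤ j → T j k = T J k := fun k =>
    stabilizes_of_le K (fun j => T j k) (hTj k) (fun j => hTK j k)
  choose J hJ using hst
  obtain ⟨J', hJ'⟩ : ∃ J', j0 ≤ J' ∧ ∀ k < j0, J k ≤ J' := by
    refine ⟨max j0 ((Finset.range j0).sup J), le_max_left _ _, fun k hk => ?_⟩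
    exact (Finset.le_sup (Finset.mem_range.mpr hk)).trans (le_max_right _ _)
  have hTeq : ∀ k j, J' ≤ j → T j k = T J' k := by
    intro k j hj
    by_cases hk : k < j0
    · rw [hJ k j ((hJ'.2 k hk).trans hj), hJ k J' (hJ'.2 k hk)]
    · have hk' : j0 ≤ k := not_lt.mp hk
      have h1 : ∀ i, j0 ≤ i → T i k = T j0 j0 := by
        intro i hi
        apply le_antisymm
        · exact (hTj k hi).trans (hTk' j0 hk')
        · have h2 := hj0 (max i k) (le_max_of_le_left hi)
          change T (max i k) (max i k) = T j0 j0 at h2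
          rw [← h2]
          exact (hTj (max i k) (le_max_left i k)).trans (hTk' i (le_max_right i k))
      rw [h1 j (hJ'.1.trans hj), h1 J' hJ'.1]
  refine ⟨J', fun j hj => ?_⟩
  have key : ∀ k x, x ∈ S J' → r ^ k • x = 0 → x ∈ S j := by
    intro k
    induction k with
    | zero =>
      intro x _ hx0
      rw [pow_zero, one_smul] at hx0
      rw [hx0]
      exact (S j).zero_mem
    | succ k ih =>
      intro x hx hx0
      have h1 : r ^ k • x ∈ T J' k := (hTmem _ _ _).mpr ⟨x, hx, hx0, rfl⟩
      rw [← hTeq k j hj] at h1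
      obtain ⟨y, hy, _, hy2⟩ := (hTmem _ _ _).mp h1
      have h2 : x - y ∈ S j := by
        apply ih _ ((S J').sub_mem hx (hS hj hy))
        rw [smul_sub, hy2, sub_self]
      have := (S j).add_mem h2 hy
      rwa [sub_add_cancel] at this
  have : S J' = S j := by
    apply le_antisymm
    · intro x hx
      obtain ⟨k, hk⟩ := hnil x
      exact key k x hx hk
    · exact hS hj
  exact this

theorem no_surj {R M : Type} [Ring R] [AddCommGroup M] [Module R M] [IsArtinian R M]
    [Nontrivial M] {n : ℕ} (f : (Fin n → M) →ₗ[R] (Fin (n + 1) → M))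
    (hf : Function.Surjective f) : False := by
  obtain ⟨c, hc⟩ := exists_ne (0 : M)
  let f1 : (Fin n → M) →ₗ[R] (Fin n → M) :=
    { toFun := fun v i => f v i.castSucc
      map_add' := fun v w => by
        funext i
        simp
      map_smul' := fun a v => by
        funext i
        simp }
  let f2 : (Fin n → M) →ₗ[R] M :=
    { toFun := fun v => f v (Fin.last n)
      map_add' := fun v w => by simp
      map_smul' := fun a v => by simp }
  have hsurj : ∀ (a : Fin n → M) (b : M), ∃ v, f1 v = a ∧ f2 v = b := by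
    intro a b
    obtain ⟨v, hv⟩ := hf (Fin.snoc a b)
    refine ⟨v, ?_, ?_⟩
    · funext i
      change f v i.castSucc = a i
      rw [hv, Fin.snoc_castSucc]
    · change f v (Fin.last n) = b
      rw [hv, Fin.snoc_last]
  choose g hg1 hg2 using hsurj
  let a : ℕ → (Fin n → M) := fun j => Nat.rec (g 0 c) (fun _ v => g v 0) j
  have ha0 : f2 (a 0) = c := hg2 _ _
  have has1 : ∀ j, f1 (a (j + 1)) = a j := fun j => hg1 _ _
  have has2 : ∀ j, f2 (a (j + 1)) = 0 := fun j => hg2 _ _
  have hpow : ∀ i j, (f1 ^ i) (a (i + j)) = a j := by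
    intro i
    induction i with
    | zero => intro j; simp
    | succ i ih =>
      intro j
      rw [pow_succ, Module.End.mul_apply, show i + 1 + j = (i + j) + 1 by ring, has1, ih]
  let A : ℕ → Submodule R (Fin n → M) := fun j => ⨅ i ∈ Finset.range j, LinearMap.ker (f2 ∘ₗ (f1 ^ i))
  have hmem : ∀ j v, v ∈ A j ↔ ∀ i < j, f2 ((f1 ^ i) v) = 0 := by
    intro j v
    simp [A, Submodule.mem_iInf, LinearMap.mem_ker]
  have hanti : Antitone A := by
    intro i j hij v hv
    rw [hmem] at hv ⊢
    exact fun l hl => hv l (hl.trans_le hij)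
  obtain ⟨j, hj⟩ := (monotone_stabilizes_iff_artinian (R := R) (M := Fin n → M)).mpr inferInstance
    { toFun := fun i => OrderDual.toDual (A i)
      monotone' := fun i j hij => hanti hij }
  have e : A j = A (j + 1) := hj (j + 1) (Nat.le_succ j)
  have h1 : a j ∈ A j := by
    rw [hmem]
    intro i hi
    obtain ⟨d, rfl⟩ : ∃ d, j = i + (d + 1) := ⟨j - i - 1, by omega⟩
    rw [hpow, has2]
  rw [e, hmem] at h1
  have h2 := h1 j (Nat.lt_succ_self j)
  have h3 := hpow j 0
  rw [add_zero] at h3
  rw [h3, ha0] at h2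
  exact hc h2

end Pool.Agent.H42R2
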