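import Mathlib

/-! Basic definitions for the fixed-point theorem on free pro-`p` groups (S01219, MP_72c4d0_al). -/

set_option linter.unusedSectionVars false

namespace Pool.Agent.H42R2

open Topology

/-- What we use of a free pro-`p` group `F` with finite basis `x`. -/
structure FreeData (p : ℕ) {n : ℕ} {F : Type} [Group F] [TopologicalSpace F] (x : Fin n → F) :
    Prop where
  /-- `F` is pro-`p`. -/
  index : ∀ U : Subgroup F, IsOpen (U : Set F) → U.Normal → ∃ k : ℕ, U.index = p ^ k
  /-- the basis generates topologically. -/
  dense : ∀ K : Subgroup F, IsClosed (K : Set F) → (∀ i, x i ∈ K) → K = ⊤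
  /-- locally constant functions with prescribed right differences along the basis exist. -/
  basis : ∀ (A : Type) [AddCommGroup A] [Finite A], (∃ k : ℕ, Nat.card A = p ^ k) →
    ∀ b : Fin n → LocallyConstant F A, ∃ u : LocallyConstant F A, u 1 = 0 ∧
      ∀ g j, u (g * x j) = u g + b j g

/-- The function `φ` restricts to a continuous homomorphism `H → ℤ/p`. -/
structure IsHom {F : Type} [Group F] [TopologicalSpace F] (p : ℕ) (H : Subgroup F)
    (φ : F → ZMod p) : Prop where
  mul : ∀ x ∈ H, ∀ y ∈ H, φ (x * y) = φ x + φ y
  cont : ∃ U : Subgroup F, U.Normal ∧ IsOpen (U : Set F) ∧ ∀ x ∈ H, x ∈ U → φ x = 0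

/-- The subgroup of fixed points of an automorphism. -/
def fixSub {F : Type} [Group F] (t : MulAut F) : Subgroup F where
  carrier := {g | t g = g}
  mul_mem' := by
    intro a b ha hb
    change t (a * b) = a * b
    rw [map_mul]
    rw [show t a = a from ha, show t b = b from hb]
  one_mem' := map_one t
  inv_mem' := by
    intro a ha
    change t a⁻¹ = a⁻¹
    rw [map_inv, show t a = a from ha]

theorem mem_fixSub {F : Type} [Group F] (t : MulAut F) (g : F) : g ∈ fixSub t ↔ t g = g := Iff.rfl

section

variable {p : ℕ} {n : ℕ} {F : Type} [Group F] [TopologicalSpace F] [IsTopologicalGroup F]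
  [CompactSpace F] [T2Space F] [TotallyDisconnectedSpace F] {x : Fin n → F}

/-- A continuous function that is invariant under right multiplication by the basis is constant. -/
theorem FreeData.const (h : FreeData p x) {A : Type} [TopologicalSpace A] [T2Space A] (f : F → A)
    (hf : Continuous f) (hx : ∀ g j, f (g * x j) = f g) (g : F) : f g = f 1 := by
  let K : Subgroup F :=
    { carrier := {y | ∀ g, f (g * y) = f g}
      mul_mem' := by
        intro a b ha hb g
        rw [← mul_assoc, hb, ha]
      one_mem' := by
        intro g
        rw [mul_one]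
      inv_mem' := by
        intro a ha g
        have := ha (g * a⁻¹)
        rw [inv_mul_cancel_right] at this
        exact this.symm }
  have hK : IsClosed (K : Set F) := by
    have : (K : Set F) = ⋂ g : F, {y | f (g * y) = f g} := by
      ext y
      simp [K]
    rw [this]
    apply isClosed_iInter
    intro g
    exact isClosed_eq (hf.comp (continuous_const.mul continuous_id)) continuous_const
  have hKt := h.dense K hK (fun i g => hx g i)
  have hg : g ∈ K := by rw [hKt]; trivial
  have := hg 1
  rwa [one_mul] at this

/-- Version for locally constant functions. -/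
theorem FreeData.const_lc (h : FreeData p x) {A : Type} (f : F → A)
    (hf : IsLocallyConstant f) (hx : ∀ g j, f (g * x j) = f g) (g : F) : f g = f 1 := by
  letI : TopologicalSpace A := ⊥
  haveI : DiscreteTopology A := ⟨rfl⟩
  exact h.const f hf.continuous hx g

/-- Open neighbourhoods of `1` contain open normal subgroups. -/
theorem exists_openNormal {V : Set F} (hV : IsOpen V) (h1 : (1 : F) ∈ V) :
    ∃ U : Subgroup F, U.Normal ∧ IsOpen (U : Set F) ∧ (U : Set F) ⊆ V := by
  obtain ⟨U, hU⟩ := ProfiniteGrp.exist_openNormalSubgroup_sub_open_nhds_of_one hV h1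
  exact ⟨U.toSubgroup, U.isNormal', U.isOpen', hU⟩

end

end Pool.Agent.H42R2
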