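import Mathlib
import Pool.Agent.H42R2.Basic

/-! Functions `u` with `u (v g) = u v + u g` for `v ∈ N`, and the descent along `W' = W ∩ ker ψ`. -/

set_option linter.unusedSectionVars false

namespace Pool.Agent.H42R2

open Topology

section

variable {p : ℕ} {n : ℕ} {F : Type} [Group F] [TopologicalSpace F] [IsTopologicalGroup F]
  [CompactSpace F] [T2Space F] [TotallyDisconnectedSpace F] {x : Fin n → F}

/-- Coset representatives for `W \ F`. -/
theorem exists_section (W : Subgroup F) (hW : IsOpen (W : Set F)) :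
    ∃ s : F → F, IsLocallyConstant s ∧ (∀ y, y * (s y)⁻¹ ∈ W) ∧ (∀ w ∈ W, ∀ y, s (w * y) = s y) ∧
      s 1 = 1 := by
  classical
  let r : F → F := fun y => Quotient.out (Quotient.mk (QuotientGroup.rightRel W) y)
  have hr : ∀ y, y * (r y)⁻¹ ∈ W := by
    intro y
    have : (QuotientGroup.rightRel W) (r y) y := Quotient.mk_out (s := QuotientGroup.rightRel W) y
    rwa [QuotientGroup.rightRel_apply] at this
  have hrw : ∀ w ∈ W, ∀ y, r (w * y) = r y := by
    intro w hw y
    have : Quotient.mk (QuotientGroup.rightRel W) (w * y) = Quotient.mk (QuotientGroup.rightRel W) y := by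
      apply Quotient.sound
      change (QuotientGroup.rightRel W) (w * y) y
      rw [QuotientGroup.rightRel_apply]
      simpa using W.inv_mem hw
    change Quotient.out (Quotient.mk (QuotientGroup.rightRel W) (w * y)) = _
    rw [this]
  have hmem : ∀ w ∈ W, ∀ y, (w * y ∈ W ↔ y ∈ W) := by
    intro w hw y
    exact Subgroup.mul_mem_cancel_left W hw
  have hs2 : ∀ w ∈ W, ∀ y, (if w * y ∈ W then 1 else r (w * y)) = if y ∈ W then 1 else r y := by
    intro w hw y
    rw [hrw w hw]
    simp only [hmem w hw]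
  refine ⟨fun y => if y ∈ W then 1 else r y, ?_, ?_, hs2, ?_⟩
  · rw [IsLocallyConstant.iff_eventually_eq]
    intro y
    have hc : Continuous (fun z : F => z * y⁻¹) := continuous_id.mul continuous_const
    have h1 : {z | z * y⁻¹ ∈ W} ∈ 𝓝 y := (hW.preimage hc).mem_nhds (by simp)
    filter_upwards [h1] with z hz
    have := hs2 (z * y⁻¹) hz y
    rw [inv_mul_cancel_right] at this
    exact this
  · intro y
    dsimp only
    split_ifs with hy
    · simpa using hy
    · exact hr y
  · simp [W.one_mem]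

theorem lc_of_left {A : Type} (f : F → A) (U : Subgroup F) (hU : IsOpen (U : Set F))
    (hf : ∀ v ∈ U, ∀ g, f (v * g) = f g) : IsLocallyConstant f := by
  rw [IsLocallyConstant.iff_eventually_eq]
  intro y
  have hc : Continuous (fun z : F => z * y⁻¹) := continuous_id.mul continuous_const
  have h1 : {z | z * y⁻¹ ∈ U} ∈ 𝓝 y := (hU.preimage hc).mem_nhds (by simp)
  filter_upwards [h1] with z hz
  have := hf (z * y⁻¹) hz y
  rw [inv_mul_cancel_right] at this
  exact this

theorem forall_open' {Y S : Type} [TopologicalSpace Y] [TopologicalSpace S] [CompactSpace S]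
    {W : Set (Y × S)} (hW : IsOpen W) : IsOpen {y | ∀ s, (y, s) ∈ W} := by
  have h : IsClosed (Prod.fst '' Wᶜ) := isClosedMap_fst_of_compactSpace _ hW.isClosed_compl
  have : {y | ∀ s, (y, s) ∈ W} = (Prod.fst '' Wᶜ)ᶜ := by
    ext y
    simp
  rw [this]
  exact h.isOpen_compl

/-- A locally constant function is invariant under an open normal subgroup. -/
theorem exists_inv {A : Type} (f : LocallyConstant F A) :
    ∃ U : Subgroup F, U.Normal ∧ IsOpen (U : Set F) ∧ ∀ v ∈ U, ∀ g, f (v * g) = f g := by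
  have h1 : IsOpen {v : F | ∀ g : F, (v, g) ∈ {q : F × F | f (q.1 * q.2) = f q.2}} := by
    apply forall_open'
    have : {q : F × F | f (q.1 * q.2) = f q.2} =
        (fun q : F × F => (f (q.1 * q.2), f q.2)) ⁻¹' {a | a.1 = a.2} := rfl
    rw [this]
    have hl : IsLocallyConstant (fun q : F × F => (f (q.1 * q.2), f q.2)) := by
      apply IsLocallyConstant.prodMk
      · exact f.isLocallyConstant.comp_continuous (f := fun q : F × F => q.1 * q.2) continuous_mul
      · exact f.isLocallyConstant.comp_continuous continuous_snd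
    exact hl _
  obtain ⟨U, hU1, hU2, hU3⟩ := exists_openNormal h1 (by simp)
  exact ⟨U, hU1, hU2, fun v hv g => hU3 hv g⟩

theorem IsHom.one {H : Subgroup F} {φ : F → ZMod p} (h : IsHom p H φ) : φ 1 = 0 := by
  have := h.mul 1 H.one_mem 1 H.one_mem
  rw [mul_one] at this
  exact left_eq_add.mp this

theorem IsHom.inv {H : Subgroup F} {φ : F → ZMod p} (h : IsHom p H φ) {g : F} (hg : g ∈ H) :
    φ g⁻¹ = - φ g := by
  have := h.mul g hg g⁻¹ (H.inv_mem hg)
  rw [mul_inv_cancel, h.one] at this
  exact (neg_eq_of_add_eq_zero_right this.symm).symm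

theorem IsHom.mono {H H' : Subgroup F} {φ : F → ZMod p} (h : IsHom p H φ) (hle : H' ≤ H) :
    IsHom p H' φ := by
  refine ⟨fun a ha b hb => h.mul a (hle ha) b (hle hb), ?_⟩
  obtain ⟨U, h1, h2, h3⟩ := h.cont
  exact ⟨U, h1, h2, fun a ha => h3 a (hle ha)⟩

/-- Functions `u` with `u 1 = 0` and `u (v g) = u v + u g` for `v ∈ N`. -/
def UU (N : Subgroup F) (u : LocallyConstant F (ZMod p)) : Prop :=
  u 1 = 0 ∧ ∀ v ∈ N, ∀ g, u (v * g) = u v + u g

theorem UU.mono {N N' : Subgroup F} {u : LocallyConstant F (ZMod p)} (h : UU N u) (hle : N' ≤ N) :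
    UU N' u := ⟨h.1, fun v hv => h.2 v (hle hv)⟩

theorem UU.add {N : Subgroup F} {u u' : LocallyConstant F (ZMod p)} (h : UU N u) (h' : UU N u') :
    UU N (u + u') := by
  refine ⟨by simp [h.1, h'.1], ?_⟩
  intro v hv g
  simp only [LocallyConstant.add_apply, h.2 v hv, h'.2 v hv]
  abel

theorem UU.smul {N : Subgroup F} {u : LocallyConstant F (ZMod p)} (h : UU N u) (c : ZMod p) :
    UU N (c • u) := by
  refine ⟨by simp [h.1], ?_⟩
  intro v hv g
  simp only [LocallyConstant.smul_apply, h.2 v hv, smul_add]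

theorem UU.zero {N : Subgroup F} : UU N (0 : LocallyConstant F (ZMod p)) :=
  ⟨rfl, fun v _ g => by simp⟩

/-- Translates. -/
theorem UU.translate {N : Subgroup F} [N.Normal] {u : LocallyConstant F (ZMod p)} (h : UU N u)
    (w : F) : ∃ u' : LocallyConstant F (ZMod p), UU N u' ∧ ∀ g, u' g = u (w * g) - u w := by
  refine ⟨⟨fun g => u (w * g) - u w, ?_⟩, ⟨?_, ?_⟩, fun g => rfl⟩
  · exact (u.isLocallyConstant.comp_continuous (continuous_const.mul continuous_id)).sub
      (IsLocallyConstant.const _)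
  · change u (w * 1) - u w = 0
    rw [mul_one, sub_self]
  · intro v hv g
    change u (w * (v * g)) - u w = (u (w * v) - u w) + (u (w * g) - u w)
    have hv' : w * v * w⁻¹ ∈ N := Subgroup.Normal.conj_mem inferInstance v hv w
    have e1 : w * (v * g) = (w * v * w⁻¹) * (w * g) := by group
    have e2 : w * v = (w * v * w⁻¹) * w := by group
    rw [e1, h.2 _ hv', e2]
    have e3 : w * v * w⁻¹ * w * w⁻¹ = w * v * w⁻¹ := by group
    rw [e3, h.2 _ hv']
    ring

/-- A homomorphism on an open subgroup extends to a function `κ` on `F`. -/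
theorem exists_kappa_open (V : Subgroup F) (hV : IsOpen (V : Set F)) (lam : F → ZMod p)
    (hl : IsHom p V lam) : ∃ κ : LocallyConstant F (ZMod p), κ 1 = 0 ∧
      (∀ v ∈ V, ∀ g, κ (v * g) = lam v + κ g) ∧ ∀ v ∈ V, κ v = lam v := by
  obtain ⟨s, hs, hs1, hs2, hs3⟩ := exists_section V hV
  have key : ∀ v ∈ V, ∀ g, lam (v * g * (s (v * g))⁻¹) = lam v + lam (g * (s g)⁻¹) := by
    intro v hv g
    rw [hs2 v hv, mul_assoc, hl.mul v hv _ (hs1 g)]
  obtain ⟨U, hU1, hU2, hU3⟩ := hl.cont
  have hlc : IsLocallyConstant (fun g => lam (g * (s g)⁻¹)) := by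
    apply lc_of_left _ (V ⊓ U) (by exact hV.inter hU2)
    intro v hv g
    rw [key v hv.1, hU3 v hv.1 hv.2, zero_add]
  have h1 : lam (1 * (s 1)⁻¹) = 0 := by
    rw [hs3, inv_one, mul_one, hl.one]
  refine ⟨⟨_, hlc⟩, h1, key, ?_⟩
  intro v hv
  have := key v hv 1
  rw [h1, add_zero, mul_one] at this
  exact this

/-- A continuous homomorphism on a subgroup extends to an open subgroup. -/
theorem exists_kappa (H : Subgroup F) (φ : F → ZMod p) (hφ : IsHom p H φ) :
    ∃ (W : Subgroup F) (κ : LocallyConstant F (ZMod p)), IsOpen (W : Set F) ∧ H ≤ W ∧ UU W κ ∧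
      ∀ h ∈ H, κ h = φ h := by
  classical
  obtain ⟨U, hU1, hU2, hU3⟩ := hφ.cont
  have hdec : ∀ w ∈ H ⊔ U, ∃ h ∈ H, ∃ u ∈ U, h * u = w := by
    intro w hw
    have : w ∈ ((H ⊔ U : Subgroup F) : Set F) := hw
    rw [Subgroup.mul_normal] at this
    obtain ⟨h, hh, u, hu, e⟩ := Set.mem_mul.mp this
    exact ⟨h, hh, u, hu, e⟩
  let P : F → Prop := fun w => ∃ h ∈ H, ∃ u ∈ U, h * u = w
  let lam : F → ZMod p := fun w => if hw : P w then φ hw.choose else 0
  have hlam : ∀ h ∈ H, ∀ u ∈ U, lam (h * u) = φ h := by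
    intro h hh u hu
    have hw : P (h * u) := ⟨h, hh, u, hu, rfl⟩
    have e : lam (h * u) = φ hw.choose := dif_pos hw
    obtain ⟨h1, u', hu', h2⟩ := hw.choose_spec
    rw [e]
    have h3 : h⁻¹ * hw.choose ∈ U := by
      have : h⁻¹ * hw.choose = u * u'⁻¹ := by
        rw [eq_mul_inv_iff_mul_eq, mul_assoc, h2, inv_mul_cancel_left]
      rw [this]
      exact U.mul_mem hu (U.inv_mem hu')
    have h4 := hU3 _ (H.mul_mem (H.inv_mem hh) h1) h3
    rw [hφ.mul _ (H.inv_mem hh) _ h1, hφ.inv hh] at h4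
    rw [neg_add_eq_zero] at h4
    exact h4.symm
  have hl : IsHom p (H ⊔ U) lam := by
    constructor
    · intro a ha b hb
      obtain ⟨h, hh, u, hu, rfl⟩ := hdec a ha
      obtain ⟨h', hh', u', hu', rfl⟩ := hdec b hb
      have e : h * u * (h' * u') = (h * h') * ((h'⁻¹ * u * h') * u') := by group
      have hc : h'⁻¹ * u * h' ∈ U := by
        have := hU1.conj_mem u hu h'⁻¹
        rwa [inv_inv] at this
      rw [e, hlam _ (H.mul_mem hh hh') _ (U.mul_mem hc hu'), hlam h hh u hu, hlam h' hh' u' hu',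
        hφ.mul h hh h' hh']
    · refine ⟨U, hU1, hU2, ?_⟩
      intro w _ hw
      have := hlam 1 H.one_mem w hw
      rw [one_mul, hφ.one] at this
      exact this
  have hWo : IsOpen ((H ⊔ U : Subgroup F) : Set F) := Subgroup.isOpen_mono le_sup_right hU2
  obtain ⟨κ, hκ1, hκ2, hκ3⟩ := exists_kappa_open (H ⊔ U) hWo lam hl
  refine ⟨H ⊔ U, κ, hWo, le_sup_left, ⟨hκ1, ?_⟩, ?_⟩
  · intro v hv g
    rw [hκ2 v hv, hκ3 v hv]
  · intro h hh
    rw [hκ3 h (Subgroup.mem_sup_left hh)]
    have := hlam h hh 1 U.one_mem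
    rwa [mul_one] at this

/-- The subgroup of all `v` with `u (v g) = u v + u g`. -/
def stabSub (u : LocallyConstant F (ZMod p)) (hu : u 1 = 0) : Subgroup F where
  carrier := {v | ∀ g, u (v * g) = u v + u g}
  mul_mem' := by
    intro a b ha hb g
    rw [mul_assoc, ha, hb, ha, add_assoc]
  one_mem' := by
    intro g
    rw [one_mul, hu, zero_add]
  inv_mem' := by
    intro a ha g
    have h1 : ∀ g, u (a⁻¹ * g) = u g - u a := by
      intro g
      have := ha (a⁻¹ * g)
      rw [mul_inv_cancel_left] at this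
      rw [this]
      ring
    have h2 := h1 1
    rw [mul_one, hu] at h2
    rw [h1, h2]
    ring

theorem stabSub_open (u : LocallyConstant F (ZMod p)) (hu : u 1 = 0) :
    IsOpen (stabSub u hu : Set F) := by
  obtain ⟨U, hU1, hU2, hU3⟩ := exists_inv u
  apply Subgroup.isOpen_mono (H₁ := U) _ hU2
  intro v hv g
  have := hU3 v hv 1
  rw [mul_one, hu] at this
  rw [hU3 v hv, this, zero_add]

/-- All right differences along `y` on `W` are realised. -/
def Full (p : ℕ) {F : Type} [Group F] [TopologicalSpace F] (N W : Subgroup F) {m : ℕ}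
    (y : Fin m → F) : Prop :=
  ∀ f : Fin m → LocallyConstant F (ZMod p), (∀ i, ∀ v ∈ N, ∀ g, f i (v * g) = f i g) →
    ∃ u : LocallyConstant F (ZMod p), UU N u ∧ ∀ i, ∀ g ∈ W, u (g * y i) - u g = f i g

/-- The space of right differences along `y` on `W` is stable under multiplication by `θ`. -/
def Stab (p : ℕ) {F : Type} [Group F] [TopologicalSpace F] (N W : Subgroup F) {m : ℕ}
    (y : Fin m → F) (θ : F → ZMod p) : Prop :=
  ∀ u : LocallyConstant F (ZMod p), UU N u → ∃ u' : LocallyConstant F (ZMod p), UU N u' ∧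
    ∀ i, ∀ g ∈ W, u' (g * y i) - u' g = θ g * (u (g * y i) - u g)

theorem Stab.mono {N W W' : Subgroup F} {m : ℕ} {y : Fin m → F} {θ : F → ZMod p}
    (h : Stab p N W y θ) (hle : W' ≤ W) : Stab p N W' y θ := by
  intro u hu
  obtain ⟨u', hu', he⟩ := h u hu
  exact ⟨u', hu', fun i g hg => he i g (hle hg)⟩

theorem Stab.mul {N W : Subgroup F} {m : ℕ} {y : Fin m → F} {θ θ' : F → ZMod p}
    (h : Stab p N W y θ) (h' : Stab p N W y θ') : Stab p N W y (fun g => θ g * θ' g) := by
  intro u hu
  obtain ⟨u', hu', he⟩ := h' u hu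
  obtain ⟨u'', hu'', he'⟩ := h u' hu'
  refine ⟨u'', hu'', fun i g hg => ?_⟩
  rw [he' i g hg, he i g hg, mul_assoc]

theorem Stab.add {N W : Subgroup F} {m : ℕ} {y : Fin m → F} {θ θ' : F → ZMod p}
    (h : Stab p N W y θ) (h' : Stab p N W y θ') : Stab p N W y (fun g => θ g + θ' g) := by
  intro u hu
  obtain ⟨u', hu', he⟩ := h u hu
  obtain ⟨u'', hu'', he'⟩ := h' u hu
  refine ⟨u' + u'', hu'.add hu'', fun i g hg => ?_⟩
  have e1 := he i g hg
  have e2 := he' i g hg
  simp only [LocallyConstant.add_apply]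
  linear_combination e1 + e2

theorem Stab.const {N W : Subgroup F} {m : ℕ} {y : Fin m → F} (c : ZMod p) :
    Stab p N W y (fun _ => c) := by
  intro u hu
  refine ⟨c • u, hu.smul c, fun i g hg => ?_⟩
  simp only [LocallyConstant.smul_apply, smul_eq_mul]
  ring

theorem Stab.pow {N W : Subgroup F} {m : ℕ} {y : Fin m → F} {θ : F → ZMod p}
    (h : Stab p N W y θ) (k : ℕ) : Stab p N W y (fun g => θ g ^ k) := by
  induction k with
  | zero =>
    simp only [pow_zero]
    exact Stab.const 1
  | succ k ih =>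
    simp only [pow_succ]
    exact ih.mul h

theorem full_step [Fact p.Prime] {N W W' : Subgroup F} [N.Normal] {m : ℕ} {y : Fin m → F}
    {ψ : F → ZMod p} (hψ : ∀ a ∈ W, ∀ b ∈ W, ψ (a * b) = ψ a + ψ b)
    (hW' : ∀ g, g ∈ W' ↔ g ∈ W ∧ ψ g = 0) (hst : Stab p N W y ψ) (hf : Full p N W' y) :
    Full p N W y := by
  intro f hfN
  have hψ1 : ψ 1 = 0 := by
    have := hψ 1 W.one_mem 1 W.one_mem
    rw [mul_one] at this
    exact left_eq_add.mp this
  have hψi : ∀ a ∈ W, ψ a⁻¹ = - ψ a := by
    intro a ha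
    have := hψ a ha a⁻¹ (W.inv_mem ha)
    rw [mul_inv_cancel, hψ1] at this
    exact (neg_eq_of_add_eq_zero_right this.symm).symm
  have hc : ∀ c : ZMod p, ∃ u : LocallyConstant F (ZMod p), UU N u ∧
      ∀ i, ∀ g ∈ W, u (g * y i) - u g = if ψ g = c then f i g else 0 := by
    intro c
    by_cases hex : ∃ w ∈ W, ψ w = c
    · obtain ⟨w, hw, hwc⟩ := hex
      obtain ⟨u, hu, hue⟩ := hf (fun i => ⟨fun g => f i (w * g),
        (f i).isLocallyConstant.comp_continuous (continuous_const.mul continuous_id)⟩) (by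
          intro i v hv g
          change f i (w * (v * g)) = f i (w * g)
          have e1 : w * (v * g) = (w * v * w⁻¹) * (w * g) := by group
          rw [e1, hfN i _ (Subgroup.Normal.conj_mem inferInstance v hv w)])
      obtain ⟨u', hu', hue'⟩ := hu.translate w⁻¹
      have h1 : ∀ i, ∀ g ∈ W, ψ g = c → u' (g * y i) - u' g = f i g := by
        intro i g hg hgc
        rw [hue', hue']
        have hmem : w⁻¹ * g ∈ W' := by
          rw [hW']
          refine ⟨W.mul_mem (W.inv_mem hw) hg, ?_⟩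
          rw [hψ _ (W.inv_mem hw) _ hg, hψi w hw, hwc, hgc]
          ring
        have := hue i _ hmem
        change u (w⁻¹ * g * y i) - u (w⁻¹ * g) = f i (w * (w⁻¹ * g)) at this
        rw [mul_inv_cancel_left] at this
        rw [← mul_assoc]
        linear_combination this
      have hst' : Stab p N W y (fun g => 1 + (-1) * (ψ g + (-c)) ^ (p - 1)) :=
        (Stab.const 1).add ((Stab.const (-1)).mul ((hst.add (Stab.const (-c))).pow (p - 1)))
      obtain ⟨u'', hu'', he''⟩ := hst' u' hu'
      refine ⟨u'', hu'', ?_⟩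
      intro i g hg
      rw [he'' i g hg]
      dsimp only
      split_ifs with hgc
      · have : ψ g + -c = 0 := by rw [hgc]; ring
        have hp1 : p - 1 ≠ 0 := by
          have := (Fact.out : p.Prime).two_le
          omega
        rw [this, zero_pow hp1, h1 i g hg hgc]
        ring
      · have h2 : ψ g + -c ≠ 0 := by
          intro h0
          apply hgc
          linear_combination h0
        rw [ZMod.pow_card_sub_one_eq_one h2]
        ring
    · refine ⟨0, UU.zero, ?_⟩
      intro i g hg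
      have : ψ g ≠ c := fun e => hex ⟨g, hg, e⟩
      rw [if_neg this]
      simp
  choose U hU hUe using hc
  have hsum : ∀ s : Finset (ZMod p), UU N (∑ c ∈ s, U c) := by
    intro s
    classical
    induction s using Finset.induction_on with
    | empty => simpa using UU.zero
    | insert a s ha ih =>
      rw [Finset.sum_insert ha]
      exact (hU a).add ih
  have happ : ∀ (s : Finset (ZMod p)) (g : F), (∑ c ∈ s, U c) g = ∑ c ∈ s, U c g := by
    intro s g
    classical
    induction s using Finset.induction_on with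
    | empty => simp
    | insert a s ha ih =>
      rw [Finset.sum_insert ha, Finset.sum_insert ha, LocallyConstant.add_apply, ih]
  refine ⟨∑ c, U c, hsum _, ?_⟩
  intro i g hg
  rw [happ, happ, ← Finset.sum_sub_distrib]
  rw [Finset.sum_congr rfl (fun c _ => hUe c i g hg)]
  simp

theorem stab_of [Fact p.Prime] (h : FreeData p x) {N : Subgroup F} {m : ℕ} {y : Fin m → F}
    (t : MulAut F) (ht : Continuous t) (htN : ∀ v ∈ N, t v ∈ N) (hty : ∀ i, t (y i) = y i)
    (W : Subgroup F) (ψ : F → ZMod p)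
    (H : ∀ K : Subgroup F, IsOpen (K : Set F) → N ≤ K → ∃ (V : Subgroup F) (lam : F → ZMod p)
      (q : ℕ), IsOpen (V : Set F) ∧ N ≤ V ∧ V ≤ K ∧ IsHom p V lam ∧ (∀ v ∈ N, lam v = 0) ∧
        ∀ g ∈ W, (t ^ q) g * g⁻¹ ∈ V ∧ lam ((t ^ q) g * g⁻¹) = ψ g) :
    Stab p N W y ψ := by
  intro u hu
  obtain ⟨V, lam, q, hVo, hNV, hVK, hlam, hlamN, hW⟩ := H (stabSub u hu.1) (stabSub_open u hu.1)
    (fun v hv g => hu.2 v hv g)
  obtain ⟨κ, hκ1, hκ2, hκ3⟩ := exists_kappa_open V hVo lam hlam
  obtain ⟨uT, hT1, hT2⟩ := h.basis (ZMod p) ⟨1, by simp⟩ (fun j =>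
    ⟨fun g => κ g * (u (g * x j) - u g), κ.isLocallyConstant.mul
      ((u.isLocallyConstant.comp_continuous (continuous_id.mul continuous_const)).sub
        u.isLocallyConstant)⟩)
  have hT2' : ∀ g j, uT (g * x j) = uT g + κ g * (u (g * x j) - u g) := hT2
  have key : ∀ v ∈ V, ∀ g, uT (v * g) = uT g + lam v * u g + uT v := by
    intro v hv g
    have h1 := h.const_lc (fun g => uT (v * g) - uT g - lam v * u g) (by
      exact ((uT.isLocallyConstant.comp_continuous (continuous_const.mul continuous_id)).sub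
        uT.isLocallyConstant).sub ((IsLocallyConstant.const _).mul u.isLocallyConstant)) (by
        intro g j
        have e1 := hT2' (v * g) j
        have e2 := hT2' g j
        have e3 := hκ2 v hv g
        have e4 := hVK hv (g * x j)
        have e5 := hVK hv g
        rw [← mul_assoc] at e4
        rw [← mul_assoc, e1, e2, e3, e4, e5]
        ring) g
    rw [mul_one, hT1, hu.1] at h1
    linear_combination h1
  have hq : Continuous (t ^ q : MulAut F) := by
    clear hW
    induction q with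
    | zero => exact continuous_id
    | succ q ih =>
      rw [pow_succ]
      exact ih.comp ht
  have hqN : ∀ v ∈ N, (t ^ q) v ∈ N := by
    clear hW hq
    induction q with
    | zero => exact fun v hv => hv
    | succ q ih =>
      intro v hv
      rw [pow_succ]
      exact ih _ (htN v hv)
  have hqy : ∀ i, (t ^ q) (y i) = y i := by
    intro i
    clear hW hq hqN
    induction q with
    | zero => rfl
    | succ q ih =>
      rw [pow_succ]
      change (t ^ q) (t (y i)) = y i
      rw [hty, ih]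
  refine ⟨⟨fun g => uT ((t ^ q) g) - uT g, (uT.isLocallyConstant.comp_continuous hq).sub
    uT.isLocallyConstant⟩, ⟨?_, ?_⟩, ?_⟩
  · change uT ((t ^ q) 1) - uT 1 = 0
    rw [map_one, sub_self]
  · intro v hv g
    change uT ((t ^ q) (v * g)) - uT (v * g) =
      (uT ((t ^ q) v) - uT v) + (uT ((t ^ q) g) - uT g)
    rw [map_mul, key _ (hNV (hqN v hv)), key v (hNV hv), hlamN v hv, hlamN _ (hqN v hv)]
    ring
  · intro i g hg
    change (uT ((t ^ q) (g * y i)) - uT (g * y i)) - (uT ((t ^ q) g) - uT g) =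
      ψ g * (u (g * y i) - u g)
    obtain ⟨h1, h2⟩ := hW g hg
    have e1 := key _ h1 (g * y i)
    have e2 := key _ h1 g
    rw [h2] at e1 e2
    rw [inv_mul_cancel_right] at e2
    have e3 : (t ^ q) g * g⁻¹ * (g * y i) = (t ^ q) g * y i := by group
    rw [e3] at e1
    rw [map_mul, hqy, e1, e2]
    ring

end

end Pool.Agent.H42R2
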