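import Mathlib
import Pool.Agent.H42R2.ArtinAlg
import Pool.Agent.H42R2.Chain

/-! Artinian modules of locally constant functions. -/

set_option linter.unusedSectionVars false

namespace Pool.Agent.H42R2

open Topology

section

variable (p : ℕ) (F : Type) [Group F] [TopologicalSpace F] [IsTopologicalGroup F]

/-- The left regular representation on locally constant functions: `(w f)(g) = f (w⁻¹ g)`. -/
def leftRep : Representation (ZMod p) F (LocallyConstant F (ZMod p)) where
  toFun w :=
    { toFun := fun f => ⟨fun g => f (w⁻¹ * g),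
        f.isLocallyConstant.comp_continuous (continuous_const.mul continuous_id)⟩
      map_add' := fun f f' => rfl
      map_smul' := fun c f => rfl }
  map_one' := by
    ext f g
    change f (1⁻¹ * g) = f g
    simp
  map_mul' := by
    intro w w'
    ext f g
    change f ((w * w')⁻¹ * g) = f (w'⁻¹ * (w⁻¹ * g))
    rw [mul_inv_rev, mul_assoc]

variable {p F}

theorem leftRep_apply (w : F) (f : LocallyConstant F (ZMod p)) (g : F) :
    leftRep p F w f g = f (w⁻¹ * g) := rfl

variable (p F) in
/-- The function space as a module over the group algebra. -/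
def LMod : Type := LocallyConstant F (ZMod p)

instance : AddCommGroup (LMod p F) := inferInstanceAs (AddCommGroup (LocallyConstant F (ZMod p)))

noncomputable instance : Module (MonoidAlgebra (ZMod p) F) (LMod p F) :=
  Module.compHom (LocallyConstant F (ZMod p)) ((leftRep p F).asAlgebraHom).toRingHom

/-- The identity from the function space to the module. -/
def toMod (f : LocallyConstant F (ZMod p)) : LMod p F := f

/-- The identity from the module to the function space. -/
def ofMod (f : LMod p F) : LocallyConstant F (ZMod p) := f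

theorem ofMod_add (f f' : LMod p F) : ofMod (f + f') = ofMod f + ofMod f' := rfl

theorem ofMod_sub (f f' : LMod p F) : ofMod (f - f') = ofMod f - ofMod f' := rfl

theorem ofMod_zero : ofMod (0 : LMod p F) = 0 := rfl

theorem ofMod_toMod (f : LocallyConstant F (ZMod p)) : ofMod (toMod f) = f := rfl

theorem ofMod_single (w : F) (c : ZMod p) (f : LMod p F) (g : F) :
    ofMod (MonoidAlgebra.single w c • f) g = c * ofMod f (w⁻¹ * g) := by
  have : MonoidAlgebra.single w c • f = toMod (c • leftRep p F w (ofMod f)) := by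
    change (leftRep p F).asAlgebraHom (MonoidAlgebra.single w c) f = _
    rw [Representation.asAlgebraHom_single]
    rfl
  rw [this]
  rfl

theorem mod_ext {f f' : LMod p F} (h : ∀ g, ofMod f g = ofMod f' g) : f = f' := by
  have : ofMod f = ofMod f' := LocallyConstant.ext h
  exact this

/-- The module of left `N`-invariant functions. -/
def CN (p : ℕ) (N : Subgroup F) [hN : N.Normal] : Submodule (MonoidAlgebra (ZMod p) F) (LMod p F) where
  carrier := {f | ∀ v ∈ N, ∀ g, ofMod f (v * g) = ofMod f g}
  add_mem' := by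
    intro f f' hf hf' v hv g
    rw [ofMod_add, LocallyConstant.add_apply, LocallyConstant.add_apply, hf v hv, hf' v hv]
  zero_mem' := fun v _ g => rfl
  smul_mem' := by
    intro c f hf
    induction c using MonoidAlgebra.induction_linear with
    | zero =>
      rw [zero_smul]
      exact fun v _ g => rfl
    | add a b ha hb =>
      intro v hv g
      rw [add_smul, ofMod_add, LocallyConstant.add_apply, LocallyConstant.add_apply, ha v hv,
        hb v hv]
    | single w c =>
      intro v hv g
      rw [ofMod_single, ofMod_single]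
      have e : w⁻¹ * (v * g) = (w⁻¹ * v * (w⁻¹)⁻¹) * (w⁻¹ * g) := by group
      rw [e, hf _ (hN.conj_mem v hv w⁻¹) _]

theorem mem_CN (N : Subgroup F) [N.Normal] (f : LMod p F) :
    f ∈ CN p N ↔ ∀ v ∈ N, ∀ g, ofMod f (v * g) = ofMod f g := Iff.rfl

end

section

variable {p : ℕ} {n : ℕ} {F : Type} [Group F] [TopologicalSpace F] [IsTopologicalGroup F]
  [CompactSpace F] [T2Space F] [TotallyDisconnectedSpace F] {x : Fin n → F}

theorem artin_top [Fact p.Prime] : IsArtinian (MonoidAlgebra (ZMod p) F) (CN p (⊤ : Subgroup F)) := by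
  have : Finite (CN p (⊤ : Subgroup F)) := by
    apply Finite.of_injective (fun f : CN p (⊤ : Subgroup F) => ofMod f.1 1)
    intro f f' hff
    apply Subtype.ext
    apply mod_ext
    intro g
    have h1 := (mem_CN _ _).mp f.2 g trivial 1
    have h2 := (mem_CN _ _).mp f'.2 g trivial 1
    rw [mul_one] at h1 h2
    rw [h1, h2]
    exact hff
  exact isArtinian_of_finite

theorem isClosed_dvd [Fact p.Prime] (e : ℕ) : IsClosed {a : ℤ_[p] | (p : ℤ_[p]) ^ e ∣ a} := by
  have : {a : ℤ_[p] | (p : ℤ_[p]) ^ e ∣ a} = {a | ‖a‖ ≤ (p : ℝ) ^ (-e : ℤ)} := by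
    ext a
    change (p : ℤ_[p]) ^ e ∣ a ↔ ‖a‖ ≤ (p : ℝ) ^ (-e : ℤ)
    rw [PadicInt.norm_le_pow_iff_mem_span_pow, Ideal.mem_span_singleton]
  rw [this]
  exact isClosed_le continuous_norm continuous_const

theorem isOpen_dvd [Fact p.Prime] (e : ℕ) : IsOpen {a : ℤ_[p] | (p : ℤ_[p]) ^ e ∣ a} := by
  have : {a : ℤ_[p] | (p : ℤ_[p]) ^ e ∣ a} = {a | ‖a‖ < (p : ℝ) ^ (-e + 1 : ℤ)} := by
    ext a
    change (p : ℤ_[p]) ^ e ∣ a ↔ ‖a‖ < (p : ℝ) ^ (-e + 1 : ℤ)
    rw [← PadicInt.norm_le_pow_iff_norm_lt_pow_add_one, PadicInt.norm_le_pow_iff_mem_span_pow,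
      Ideal.mem_span_singleton]
  rw [this]
  exact isOpen_lt continuous_norm continuous_const

theorem eq_zero_of_dvd [hp : Fact p.Prime] (a : ℤ_[p]) (h : ∀ e : ℕ, (p : ℤ_[p]) ^ e ∣ a) : a = 0 := by
  apply PadicInt.ext_of_toZModPow.mp
  intro e
  rw [map_zero, ← RingHom.mem_ker, PadicInt.ker_toZModPow, Ideal.mem_span_singleton]
  exact h e

/-- An element of smallest valuation. -/
theorem exists_min_val [hp : Fact p.Prime] (S : Set ℤ_[p]) (hS : S.Nonempty) :
    ∃ z ∈ S, ∀ a ∈ S, z ∣ a := by
  by_cases h0 : ∃ a ∈ S, a ≠ 0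
  · obtain ⟨a0, ha0, hne⟩ := h0
    let P : ℕ → Prop := fun k => ∃ a ∈ S, a ≠ 0 ∧ a.valuation = k
    have hP : ∃ k, P k := ⟨_, a0, ha0, hne, rfl⟩
    classical
    obtain ⟨z, hz, hz0, hzk⟩ := Nat.find_spec hP
    refine ⟨z, hz, ?_⟩
    intro a ha
    by_cases ha0 : a = 0
    · rw [ha0]
      exact dvd_zero z
    · have hle : z.valuation ≤ a.valuation := by
        rw [hzk]
        exact Nat.find_min' hP ⟨a, ha, ha0, rfl⟩
      have e1 := PadicInt.unitCoeff_spec hz0
      have e2 := PadicInt.unitCoeff_spec ha0
      rw [e1, e2]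
      have h3 : (p : ℤ_[p]) ^ z.valuation ∣ (p : ℤ_[p]) ^ a.valuation := pow_dvd_pow _ hle
      have h4 : IsUnit ((PadicInt.unitCoeff hz0 : ℤ_[p]ˣ) : ℤ_[p]) := Units.isUnit _
      rw [h4.mul_left_dvd]
      exact h3.mul_left _
  · push_neg at h0
    obtain ⟨z, hz⟩ := hS
    refine ⟨z, hz, ?_⟩
    intro a ha
    rw [h0 a ha]
    exact dvd_zero z

theorem artin_step [hp : Fact p.Prime] (K K' : Subgroup F) [hKn : K.Normal] [hKn' : K'.Normal]
    (hidx : ∀ U : Subgroup F, IsOpen (U : Set F) → U.Normal → ∃ k : ℕ, U.index = p ^ k)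
    (hK : IsClosed (K : Set F)) (χ : F → ℤ_[p]) (hχc : Continuous χ)
    (hχ : ∀ v ∈ K, ∀ w ∈ K, χ (v * w) = χ v + χ w)
    (hχconj : ∀ g, ∀ v ∈ K, χ (g * v * g⁻¹) = χ v)
    (hK' : ∀ v, v ∈ K' ↔ v ∈ K ∧ χ v = 0)
    (hA : IsArtinian (MonoidAlgebra (ZMod p) F) (CN p K)) :
    IsArtinian (MonoidAlgebra (ZMod p) F) (CN p K') := by
  have hχ1 : χ 1 = 0 := by
    have := hχ 1 K.one_mem 1 K.one_mem
    rw [mul_one] at this
    exact left_eq_add.mp this
  have hχi : ∀ v ∈ K, χ v⁻¹ = - χ v := by
    intro v hv
    have := hχ v hv v⁻¹ (K.inv_mem hv)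
    rw [mul_inv_cancel, hχ1] at this
    exact (neg_eq_of_add_eq_zero_right this.symm).symm
  have hχpow : ∀ v ∈ K, ∀ k : ℕ, χ (v ^ k) = k * χ v := by
    intro v hv k
    induction k with
    | zero => simp [hχ1]
    | succ k ih =>
      rw [pow_succ, hχ _ (K.pow_mem hv k) _ hv, ih]
      push_cast
      ring
  -- choose z
  obtain ⟨_, ⟨z, hz, rfl⟩, hzmin⟩ := exists_min_val (p := p) (χ '' (K : Set F))
    ⟨χ 1, 1, K.one_mem, rfl⟩
  have hzmin' : ∀ v ∈ K, χ z ∣ χ v := fun v hv => hzmin _ ⟨v, hv, rfl⟩
  have hcomm : ∀ g, z * g * z⁻¹ * g⁻¹ ∈ K' := by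
    intro g
    have e : z * g * z⁻¹ * g⁻¹ = z * (g * z⁻¹ * g⁻¹) := by group
    have h1 : g * z⁻¹ * g⁻¹ ∈ K := hKn.conj_mem _ (K.inv_mem hz) g
    rw [hK', e]
    refine ⟨K.mul_mem hz h1, ?_⟩
    rw [hχ z hz _ h1, hχconj g _ (K.inv_mem hz), hχi z hz, add_neg_cancel]
  let R := MonoidAlgebra (ZMod p) F
  let r : R := MonoidAlgebra.of (ZMod p) F z⁻¹ - 1
  have hrapp : ∀ (f : LMod p F) (g : F), ofMod (r • f) g = ofMod f (z * g) - ofMod f g := by
    intro f g
    have e1 : r • f = MonoidAlgebra.single z⁻¹ (1 : ZMod p) • f - f := by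
      change (MonoidAlgebra.of (ZMod p) F z⁻¹ - 1) • f = _
      rw [sub_smul, one_smul, MonoidAlgebra.of_apply]
    rw [e1, ofMod_sub]
    change ofMod (MonoidAlgebra.single z⁻¹ (1 : ZMod p) • f) g - ofMod f g = _
    rw [ofMod_single, one_mul, inv_inv]
  have hchar : CharP R p := by
    have : CharP (ZMod p) p := inferInstance
    exact charP_of_injective_algebraMap (R := ZMod p) (A := R) (algebraMap (ZMod p) R).injective p
  -- the module
  let KK : Submodule R (CN p K') :=
    { carrier := {f | ∀ v ∈ K, ∀ g, ofMod f.1 (v * g) = ofMod f.1 g}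
      add_mem' := by
        intro f f' hf hf' v hv g
        exact (CN p K).add_mem (x := f.1) (y := f'.1) hf hf' v hv g
      zero_mem' := fun v hv g => rfl
      smul_mem' := by
        intro c f hf
        exact (CN p K).smul_mem c (x := f.1) hf }
  have hKKart : IsArtinian R KK := by
    let ι : KK →ₗ[R] CN p K :=
      { toFun := fun f => ⟨f.1.1, f.2⟩
        map_add' := fun f f' => rfl
        map_smul' := fun c f => rfl }
    apply isArtinian_of_injective ι
    intro f f' hff
    apply Subtype.ext
    apply Subtype.ext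
    have h1 : (ι f).1 = (ι f').1 := congrArg Subtype.val hff
    exact h1
  apply artin_of_elt r _ _ KK
  · -- kernel
    intro f hf
    obtain ⟨U, hU1, hU2, hU3⟩ := exists_inv (ofMod f.1)
    let T : Subgroup F :=
      { carrier := {v | ∀ g, ofMod f.1 (v * g) = ofMod f.1 g}
        mul_mem' := by
          intro a b ha hb g
          rw [mul_assoc, ha, hb]
        one_mem' := fun g => by rw [one_mul]
        inv_mem' := by
          intro a ha g
          have := ha (a⁻¹ * g)
          rw [mul_inv_cancel_left] at this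
          exact this.symm }
    have hTo : IsOpen (T : Set F) := Subgroup.isOpen_mono (H₁ := U) hU3 hU2
    have hzT : z ∈ T := by
      intro g
      have e1 := hrapp f.1 g
      have e2 : r • f.1 = 0 := congrArg Subtype.val hf
      rw [e2] at e1
      have : (0 : ZMod p) = ofMod f.1 (z * g) - ofMod f.1 g := e1
      exact (sub_eq_zero.mp this.symm)
    have hK'T : K' ≤ T := fun v hv g => (mem_CN _ _).mp f.2 v hv g
    obtain ⟨e, he⟩ := exists_subset_nhds_of_compactSpace
      (V := fun e : ℕ => {v | v ∈ K ∧ (p : ℤ_[p]) ^ e ∣ χ v}) (U := (T : Set F)) (by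
        apply Antitone.directed_ge
        intro i j hij v hv
        exact ⟨hv.1, (pow_dvd_pow _ hij).trans hv.2⟩) (by
        intro i
        exact hK.inter ((isClosed_dvd i).preimage hχc)) (by
        intro v hv
        rw [Set.mem_iInter] at hv
        apply hTo.mem_nhds
        apply hK'T
        rw [hK']
        exact ⟨(hv 0).1, eq_zero_of_dvd _ (fun i => (hv i).2)⟩)
    intro v hv
    change v ∈ T
    obtain ⟨a, ha⟩ := hzmin' v hv
    have hb := PadicInt.appr_spec e a
    rw [Ideal.mem_span_singleton] at hb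
    have h1 : (z ^ (a.appr e))⁻¹ * v ∈ T := by
      apply he
      refine ⟨K.mul_mem (K.inv_mem (K.pow_mem hz _)) hv, ?_⟩
      rw [hχ _ (K.inv_mem (K.pow_mem hz _)) _ hv, hχi _ (K.pow_mem hz _), hχpow z hz, ha]
      have e3 : -((a.appr e : ℕ) * χ z) + χ z * a = (a - (a.appr e : ℕ)) * χ z := by ring
      rw [e3]
      exact hb.mul_right _
    have h2 := T.mul_mem (T.pow_mem hzT (a.appr e)) h1
    rwa [mul_inv_cancel_left] at h2
  · -- centrality
    intro a f
    apply Subtype.ext
    change r • a • f.1 = a • r • f.1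
    induction a using MonoidAlgebra.induction_linear with
    | zero => simp
    | add a b ha hb => rw [add_smul, smul_add, ha, hb, add_smul]
    | single g c =>
      apply mod_ext
      intro y
      rw [hrapp, ofMod_single, ofMod_single, ofMod_single, hrapp]
      have e1 : g⁻¹ * (z * y) = ((z * g⁻¹ * z⁻¹ * (g⁻¹)⁻¹)⁻¹) * (z * (g⁻¹ * y)) := by group
      rw [e1, (mem_CN _ _).mp f.2 _ (K'.inv_mem (hcomm g⁻¹))]
      ring
  · -- nilpotency
    intro f
    obtain ⟨U, hU1, hU2, hU3⟩ := exists_inv (ofMod f.1)
    obtain ⟨k, hk⟩ := hidx U hU2 hU1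
    refine ⟨p ^ k, ?_⟩
    have hcm : Commute (MonoidAlgebra.of (ZMod p) F z⁻¹) (1 : R) := Commute.one_right _
    have e1 : r ^ p ^ k = MonoidAlgebra.of (ZMod p) F (z⁻¹ ^ p ^ k) - 1 := by
      change (MonoidAlgebra.of (ZMod p) F z⁻¹ - 1) ^ p ^ k = _
      have := sub_pow_char_pow_of_commute (p := p) k hcm
      rw [this, one_pow, ← map_pow]
    apply Subtype.ext
    change r ^ p ^ k • f.1 = 0
    rw [e1, sub_smul, one_smul, MonoidAlgebra.of_apply]
    apply mod_ext
    intro g
    rw [ofMod_sub]
    change ofMod (MonoidAlgebra.single (z⁻¹ ^ p ^ k) (1 : ZMod p) • f.1) g - ofMod f.1 g = 0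
    rw [ofMod_single, one_mul, hU3, sub_self]
    rw [← inv_pow, inv_inv, ← hk]
    exact Subgroup.pow_index_mem U z

theorem full_top_false [hp : Fact p.Prime] (h : FreeData p x) (N : Subgroup F) [hN : N.Normal]
    (hA : IsArtinian (MonoidAlgebra (ZMod p) F) (CN p N)) (y : Fin (n + 1) → F)
    (hfull : Full p N ⊤ y) : False := by
  -- uniqueness
  have huniq : ∀ u u' : LocallyConstant F (ZMod p), u 1 = 0 → u' 1 = 0 →
      (∀ g j, u (g * x j) - u g = u' (g * x j) - u' g) → u = u' := by
    intro u u' h1 h2 h3
    ext g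
    have := h.const_lc (fun g => u g - u' g) (u.isLocallyConstant.sub u'.isLocallyConstant) (by
      intro g j
      have := h3 g j
      linear_combination this) g
    rw [h1, h2, sub_zero] at this
    exact sub_eq_zero.mp this
  have hex : ∀ b : Fin n → CN p N, ∃ u : LocallyConstant F (ZMod p), UU N u ∧
      ∀ g j, u (g * x j) - u g = ofMod (b j).1 g := by
    intro b
    obtain ⟨u, hu1, hu2⟩ := h.basis (ZMod p) ⟨1, by simp⟩ (fun j => ofMod (b j).1)
    refine ⟨u, ⟨hu1, ?_⟩, ?_⟩
    · intro v hv g
      have := h.const_lc (fun g => u (v * g) - u g) (by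
        exact (u.isLocallyConstant.comp_continuous (continuous_const.mul continuous_id)).sub
          u.isLocallyConstant) (by
          intro g j
          rw [← mul_assoc, hu2, hu2, (mem_CN N _).mp (b j).2 v hv g]
          ring) g
      rw [mul_one, hu1, sub_zero] at this
      linear_combination this
    · intro g j
      rw [hu2]
      ring
  choose U hU hUe using hex
  have hadd : ∀ b b' : Fin n → CN p N, U (b + b') = U b + U b' := by
    intro b b'
    apply huniq
    · exact (hU _).1
    · rw [LocallyConstant.add_apply, (hU b).1, (hU b').1, add_zero]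
    · intro g j
      rw [hUe, LocallyConstant.add_apply, LocallyConstant.add_apply]
      have e1 := hUe b g j
      have e2 := hUe b' g j
      have e3 : ofMod ((b + b') j).1 g = ofMod (b j).1 g + ofMod (b' j).1 g := rfl
      rw [e3, ← e1, ← e2]
      ring
  have hsingle : ∀ (w : F) (c : ZMod p) (b : Fin n → CN p N) (g : F),
      U (MonoidAlgebra.single w c • b) g = c * (U b (w⁻¹ * g) - U b w⁻¹) := by
    intro w c b g
    obtain ⟨u', hu'1, hu'2⟩ := (hU b).translate w⁻¹
    have : U (MonoidAlgebra.single w c • b) = c • u' := by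
      apply huniq
      · exact (hU _).1
      · rw [LocallyConstant.smul_apply, hu'1.1, smul_zero]
      · intro g j
        rw [hUe]
        have e3 : ofMod ((MonoidAlgebra.single w c • b) j).1 g = c * ofMod (b j).1 (w⁻¹ * g) :=
          ofMod_single w c (b j).1 g
        rw [e3, ← hUe b (w⁻¹ * g) j, LocallyConstant.smul_apply, LocallyConstant.smul_apply,
          smul_eq_mul, smul_eq_mul, hu'2, hu'2, ← mul_assoc]
        ring
    rw [this, LocallyConstant.smul_apply, smul_eq_mul, hu'2]
  -- the map Θ
  let D : (Fin n → CN p N) → Fin (n + 1) → LocallyConstant F (ZMod p) := fun b i =>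
    ⟨fun g => U b (g * y i) - U b g,
      ((U b).isLocallyConstant.comp_continuous (continuous_id.mul continuous_const)).sub
        (U b).isLocallyConstant⟩
  have hD : ∀ b i g, D b i g = U b (g * y i) - U b g := fun b i g => rfl
  have hDmem : ∀ b i, toMod (D b i) ∈ CN p N := by
    intro b i
    rw [mem_CN]
    intro v hv g
    rw [ofMod_toMod, hD, hD, mul_assoc, (hU b).2 v hv, (hU b).2 v hv]
    ring
  let Θ : (Fin n → CN p N) →ₗ[MonoidAlgebra (ZMod p) F] (Fin (n + 1) → CN p N) :=
    { toFun := fun b i => ⟨toMod (D b i), hDmem b i⟩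
      map_add' := by
        intro b b'
        funext i
        apply Subtype.ext
        apply mod_ext
        intro g
        change D (b + b') i g = D b i g + D b' i g
        rw [hD, hD, hD, hadd, LocallyConstant.add_apply, LocallyConstant.add_apply]
        ring
      map_smul' := by
        intro a b
        simp only [RingHom.id_apply]
        induction a using MonoidAlgebra.induction_linear with
        | zero =>
          funext i
          apply Subtype.ext
          apply mod_ext
          intro g
          change D ((0 : MonoidAlgebra (ZMod p) F) • b) i g =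
            ofMod ((0 : MonoidAlgebra (ZMod p) F) • toMod (D b i)) g
          have h0 := hadd 0 0
          rw [add_zero, left_eq_add] at h0
          rw [zero_smul, zero_smul, hD, h0]
          simp [ofMod_zero]
        | add a a' ha ha' =>
          rw [add_smul, add_smul, ← ha, ← ha']
          funext i
          apply Subtype.ext
          apply mod_ext
          intro g
          change D (a • b + a' • b) i g = D (a • b) i g + D (a' • b) i g
          rw [hD, hD, hD, hadd, LocallyConstant.add_apply, LocallyConstant.add_apply]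
          ring
        | single w c =>
          funext i
          apply Subtype.ext
          apply mod_ext
          intro g
          change D (MonoidAlgebra.single w c • b) i g =
            ofMod (MonoidAlgebra.single w c • toMod (D b i)) g
          rw [ofMod_single, ofMod_toMod, hD, hD, hsingle, hsingle, ← mul_assoc]
          ring }
  have hΘ : Function.Surjective Θ := by
    intro f
    obtain ⟨u, hu, hue⟩ := hfull (fun i => ofMod (f i).1) (fun i v hv g => (mem_CN N _).mp (f i).2 v hv g)
    let b : Fin n → CN p N := fun j => ⟨toMod ⟨fun g => u (g * x j) - u g,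
      (u.isLocallyConstant.comp_continuous (continuous_id.mul continuous_const)).sub
        u.isLocallyConstant⟩, by
          rw [mem_CN]
          intro v hv g
          change u (v * g * x j) - u (v * g) = u (g * x j) - u g
          rw [mul_assoc, hu.2 v hv, hu.2 v hv]
          ring⟩
    have hb : ∀ j g, ofMod (b j).1 g = u (g * x j) - u g := fun j g => rfl
    refine ⟨b, ?_⟩
    have e : U b = u := by
      apply huniq _ _ (hU b).1 hu.1
      intro g j
      rw [hUe, hb]
    funext i
    apply Subtype.ext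
    apply mod_ext
    intro g
    change D b i g = ofMod (f i).1 g
    rw [hD, e]
    exact hue i g trivial
  have hnt : Nontrivial (CN p N) := by
    refine ⟨⟨toMod (LocallyConstant.const F 1), fun v _ g => rfl⟩, 0, ?_⟩
    intro e
    have e1 := congrArg (fun f : CN p N => ofMod f.1 1) e
    change (1 : ZMod p) = 0 at e1
    exact one_ne_zero e1
  exact no_surj Θ hΘ

end

end Pool.Agent.H42R2
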