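import Mathlib
import Pool.Agent.H42R2.Chain

/-! Derivations on open subgroups lift; the base case `Full N W y` when the `y i` are independent
in the Frattini quotient of `W`. -/

set_option linter.unusedSectionVars false

namespace Pool.Agent.H42R2

open Topology

section

variable {p : ℕ} {n : ℕ} {F : Type} [Group F] [TopologicalSpace F] [IsTopologicalGroup F]
  [CompactSpace F] [T2Space F] [TotallyDisconnectedSpace F] {x : Fin n → F}

theorem lift_der [Fact p.Prime] (h : FreeData p x) (W : Subgroup F) (hW : IsOpen (W : Set F))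
    {M M' : Type} [AddCommGroup M] [Module (ZMod p) M] [Finite M] [AddCommGroup M']
    [Module (ZMod p) M'] (σ : W →* Module.End (ZMod p) M) (σ' : W →* Module.End (ZMod p) M')
    (hdisc : ∃ U : Subgroup F, IsOpen (U : Set F) ∧ ∀ w : W, (w : F) ∈ U → σ w = 1)
    (q : M →ₗ[ZMod p] M') (hq : Function.Surjective q) (he : ∀ w a, q (σ w a) = σ' w (q a))
    (u' : LocallyConstant F M') (hu1 : u' 1 = 0)
    (hu' : ∀ (w : W) (y : F), u' (w * y) = u' w + σ' w (u' y)) :
    ∃ u : LocallyConstant F M, u 1 = 0 ∧ (∀ (w : W) (y : F), u (w * y) = u w + σ w (u y)) ∧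
      ∀ y, q (u y) = u' y := by
  obtain ⟨s, hs, hs1, hs2, hs3⟩ := exists_section W hW
  obtain ⟨r, hr⟩ := hq.hasRightInverse
  obtain ⟨U, hU, hUσ⟩ := hdisc
  let wd : F → W := fun y => ⟨y * (s y)⁻¹, hs1 y⟩
  have hwd : ∀ (w : W) y, wd (w * y) = w * wd y := by
    intro w y
    apply Subtype.ext
    change (w : F) * y * (s (w * y))⁻¹ = w * (y * (s y)⁻¹)
    rw [hs2 w w.2, mul_assoc]
  have hwds : ∀ y, (wd y : F) * s y = y := by
    intro y
    change y * (s y)⁻¹ * s y = y
    rw [inv_mul_cancel_right]
  let b : Fin n → F → M := fun j y => σ (wd y) (r (u' (s y * x j) - u' (s y)))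
  have hb : ∀ j (w : W) y, b j (w * y) = σ w (b j y) := by
    intro j w y
    change σ (wd (w * y)) (r (u' (s (w * y) * x j) - u' (s (w * y)))) = _
    rw [hs2 w w.2, hwd, map_mul]
    rfl
  have hblc : ∀ j, IsLocallyConstant (b j) := by
    intro j
    apply lc_of_left _ (W ⊓ U) (hW.inter hU)
    intro v hv g
    have := hb j ⟨v, hv.1⟩ g
    rw [hUσ ⟨v, hv.1⟩ hv.2] at this
    exact this
  have hbq : ∀ j y, q (b j y) = u' (y * x j) - u' y := by
    intro j y
    change q (σ (wd y) (r (u' (s y * x j) - u' (s y)))) = _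
    rw [he, hr, map_sub]
    have e1 := hu' (wd y) (s y)
    have e2 := hu' (wd y) (s y * x j)
    rw [← mul_assoc, hwds] at e2
    rw [hwds] at e1
    rw [e1, e2]
    abel
  have hcard : ∃ k : ℕ, Nat.card M = p ^ k := by
    have := Module.natCard_eq_pow_finrank (K := ZMod p) (V := M)
    rw [Nat.card_zmod] at this
    exact ⟨_, this⟩
  obtain ⟨u, hu0, hu⟩ := h.basis M hcard (fun j => ⟨b j, hblc j⟩)
  have hu2 : ∀ g j, u (g * x j) = u g + b j g := hu
  refine ⟨u, hu0, ?_, ?_⟩
  · intro w y
    have := h.const_lc (fun y => u (w * y) - σ w (u y)) (by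
      exact (u.isLocallyConstant.comp_continuous (continuous_const.mul continuous_id)).sub
        (u.isLocallyConstant.comp (σ w))) (by
        intro g j
        rw [← mul_assoc, hu2, hu2, hb, map_add]
        abel) y
    rw [mul_one, hu0, map_zero, sub_zero] at this
    rw [← this]
    abel
  · intro y
    have := h.const_lc (fun y => q (u y) - u' y) (by
      exact (u.isLocallyConstant.comp q).sub u'.isLocallyConstant) (by
        intro g j
        rw [hu2, map_add, hbq]
        abel) y
    rw [hu0, map_zero, hu1, sub_zero] at this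
    exact sub_eq_zero.mp this

/-- A nontrivial finite module of an open subgroup has a nonzero fixed vector. -/
theorem exists_fixed_vec [Fact p.Prime] (h : FreeData p x) (W : Subgroup F)
    {M : Type} [AddCommGroup M] [Module (ZMod p) M] [Finite M] [Nontrivial M]
    (σ : W →* Module.End (ZMod p) M)
    (hdisc : ∃ U : Subgroup F, IsOpen (U : Set F) ∧ ∀ w : W, (w : F) ∈ U → σ w = 1) :
    ∃ b : M, b ≠ 0 ∧ ∀ w, σ w b = b := by
  obtain ⟨U, hU, hUσ⟩ := hdisc
  obtain ⟨U', hU'n, hU'o, hU'⟩ := exists_openNormal hU U.one_mem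
  obtain ⟨k, hk⟩ := h.index U' hU'o hU'n
  let τ : W →* Equiv.Perm M :=
    { toFun := fun w =>
        { toFun := σ w
          invFun := σ w⁻¹
          left_inv := by
            intro a
            rw [← Module.End.mul_apply, ← map_mul, inv_mul_cancel, map_one]
            rfl
          right_inv := by
            intro a
            rw [← Module.End.mul_apply, ← map_mul, mul_inv_cancel, map_one]
            rfl }
      map_one' := by
        ext a
        change σ 1 a = a
        rw [map_one]
        rfl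
      map_mul' := by
        intro w w'
        ext a
        change σ (w * w') a = σ w (σ w' a)
        rw [map_mul]
        rfl }
  have hP : IsPGroup p τ.range := by
    rw [isPGroup_iff_pow_pow_eq_one]
    rintro ⟨_, w, rfl⟩
    refine ⟨k, ?_⟩
    apply Subtype.ext
    change (τ w) ^ p ^ k = 1
    rw [← map_pow]
    have hmem : ((w ^ p ^ k : W) : F) ∈ U := by
      apply hU'
      rw [← hk]
      exact Subgroup.pow_index_mem U' (w : F)
    ext a
    change σ (w ^ p ^ k) a = a
    rw [hUσ _ hmem]
    rfl
  have hdvd : p ∣ Nat.card M := by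
    have := Module.natCard_eq_pow_finrank (K := ZMod p) (V := M)
    rw [Nat.card_zmod] at this
    rw [this]
    apply dvd_pow_self
    have h1 : 0 < Module.finrank (ZMod p) M := Module.finrank_pos
    omega
  have h0 : (0 : M) ∈ MulAction.fixedPoints τ.range M := by
    rintro ⟨_, w, rfl⟩
    exact map_zero (σ w)
  obtain ⟨b, hb, hb0⟩ := hP.exists_fixed_point_of_prime_dvd_card_of_fixed_point _ hdvd h0
  refine ⟨b, fun e => hb0 e.symm, ?_⟩
  intro w
  exact hb ⟨τ w, w, rfl⟩

theorem devissage [Fact p.Prime] (h : FreeData p x) (W : Subgroup F) (hW : IsOpen (W : Set F))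
    {m : ℕ} (y : Fin m → F) (κ : Fin m → LocallyConstant F (ZMod p)) (hκ : ∀ i, UU W (κ i))
    (hd : ∀ i j, κ i (y j) = if i = j then 1 else 0) (N : ℕ) :
    ∀ (M : Type) [AddCommGroup M] [Module (ZMod p) M] [Finite M] (σ : W →* Module.End (ZMod p) M),
      (∃ U : Subgroup F, IsOpen (U : Set F) ∧ ∀ w : W, (w : F) ∈ U → σ w = 1) → Nat.card M ≤ N →
      ∀ a : Fin m → M, ∃ u : LocallyConstant F M, u 1 = 0 ∧
        (∀ (w : W) (y : F), u (w * y) = u w + σ w (u y)) ∧ ∀ i, u (y i) = a i := by
  induction N with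
  | zero =>
    intro M _ _ _ σ _ hc
    have : 0 < Nat.card M := Nat.card_pos
    omega
  | succ N ih =>
    intro M _ _ _ σ hdisc hc a
    by_cases hnt : Nontrivial M
    · obtain ⟨b, hb0, hb⟩ := exists_fixed_vec h W σ hdisc
      let B : Submodule (ZMod p) M := Submodule.span (ZMod p) {b}
      have hB : ∀ w, B ≤ B.comap (σ w) := by
        intro w
        rw [Submodule.span_le]
        intro z hz
        rw [Set.mem_singleton_iff.mp hz]
        change σ w b ∈ B
        rw [hb]
        exact Submodule.mem_span_singleton_self b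
      let σ' : W →* Module.End (ZMod p) (M ⧸ B) :=
        { toFun := fun w => B.mapQ B (σ w) (hB w)
          map_one' := by
            ext z
            simp
          map_mul' := by
            intro w w'
            ext z
            simp }
      have hcard : Nat.card (M ⧸ B) < Nat.card M := by
        have hs : Function.Surjective B.mkQ := B.mkQ_surjective
        have hni : ¬ Function.Injective B.mkQ := by
          intro hi
          apply hb0
          apply hi
          rw [map_zero]
          exact (Submodule.Quotient.mk_eq_zero B).mpr (Submodule.mem_span_singleton_self b)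
        have := Fintype.ofFinite M
        have := Fintype.ofFinite (M ⧸ B)
        rw [Nat.card_eq_fintype_card, Nat.card_eq_fintype_card]
        exact Fintype.card_lt_of_surjective_not_injective _ hs hni
      have hdisc' : ∃ U : Subgroup F, IsOpen (U : Set F) ∧ ∀ w : W, (w : F) ∈ U → σ' w = 1 := by
        obtain ⟨U, hU, hUσ⟩ := hdisc
        refine ⟨U, hU, ?_⟩
        intro w hw
        ext z
        change B.mkQ (σ w z) = B.mkQ z
        rw [hUσ w hw]
        rfl
      have hfinq : Finite (M ⧸ B) := Finite.of_surjective _ B.mkQ_surjective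
      obtain ⟨u', hu'1, hu'2, hu'3⟩ := ih (M ⧸ B) σ' hdisc' (by omega) (fun i => B.mkQ (a i))
      obtain ⟨u, hu1, hu2, hu3⟩ := lift_der h W hW σ σ' hdisc B.mkQ B.mkQ_surjective
        (fun w a => rfl) u' hu'1 hu'2
      have hc : ∀ i, ∃ c : ZMod p, c • b = a i - u (y i) := by
        intro i
        have : a i - u (y i) ∈ B := by
          rw [← Submodule.Quotient.mk_eq_zero B]
          change B.mkQ (a i - u (y i)) = 0
          rw [map_sub, hu3, hu'3, sub_self]
        exact Submodule.mem_span_singleton.mp this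
      choose c hc using hc
      refine ⟨⟨fun g => u g + ∑ i, κ i g • (c i • b), ?_⟩, ?_, ?_, ?_⟩
      · apply u.isLocallyConstant.add
        have : (fun g => ∑ i, κ i g • (c i • b)) =
            (fun z : Fin m → ZMod p => ∑ i, z i • (c i • b)) ∘ (fun g i => κ i g) := rfl
        rw [this]
        apply IsLocallyConstant.comp
        rw [IsLocallyConstant.iff_eventually_eq]
        intro g
        have : ∀ᶠ g' in 𝓝 g, ∀ i, κ i g' = κ i g := by
          rw [Filter.eventually_all]
          intro i
          exact (κ i).isLocallyConstant.eventually_eq g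
        filter_upwards [this] with g' hg'
        funext i
        exact hg' i
      · change u 1 + ∑ i, κ i 1 • (c i • b) = 0
        rw [hu1, zero_add]
        apply Finset.sum_eq_zero
        intro i _
        rw [(hκ i).1, zero_smul]
      · intro w g
        change u (w * g) + ∑ i, κ i (w * g) • (c i • b) =
          u w + ∑ i, κ i w • (c i • b) + σ w (u g + ∑ i, κ i g • (c i • b))
        have e1 : ∀ i, κ i (w * g) • (c i • b) = κ i w • (c i • b) + κ i g • (c i • b) := by
          intro i
          rw [(hκ i).2 w w.2, add_smul]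
        rw [hu2, map_add, map_sum, Finset.sum_congr rfl (fun i _ => e1 i), Finset.sum_add_distrib]
        have e2 : ∀ i, σ w (κ i g • (c i • b)) = κ i g • (c i • b) := by
          intro i
          rw [map_smul, map_smul, hb]
        rw [Finset.sum_congr rfl (fun i _ => e2 i)]
        abel
      · intro j
        change u (y j) + ∑ i, κ i (y j) • (c i • b) = a j
        rw [Finset.sum_eq_single j]
        · rw [hd, if_pos rfl, one_smul, hc]
          abel
        · intro i _ hij
          rw [hd, if_neg hij, zero_smul]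
        · intro hj
          exact absurd (Finset.mem_univ j) hj
    · rw [not_nontrivial_iff_subsingleton] at hnt
      refine ⟨0, rfl, fun w g => Subsingleton.elim _ _, fun i => Subsingleton.elim _ _⟩

theorem full_base [Fact p.Prime] (h : FreeData p x) (N W : Subgroup F) (hW : IsOpen (W : Set F))
    (hNW : N ≤ W) {m : ℕ} (y : Fin m → F) (hy : ∀ i, y i ∈ W)
    (κ : Fin m → LocallyConstant F (ZMod p)) (hκ : ∀ i, UU W (κ i))
    (hd : ∀ i j, κ i (y j) = if i = j then 1 else 0) : Full p N W y := by
  intro f hfN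
  -- a small open subgroup
  have hinv : ∀ i, ∃ U : Subgroup F, U.Normal ∧ IsOpen (U : Set F) ∧
      ∀ v ∈ U, ∀ g, f i (v * g) = f i g := fun i => exists_inv (f i)
  let V : Subgroup F :=
    { carrier := {v | v ∈ W ∧ ∀ i g, f i (v * g) = f i g}
      mul_mem' := by
        rintro a b ⟨ha, ha'⟩ ⟨hb, hb'⟩
        refine ⟨W.mul_mem ha hb, fun i g => ?_⟩
        rw [mul_assoc, ha', hb']
      one_mem' := ⟨W.one_mem, fun i g => by rw [one_mul]⟩
      inv_mem' := by
        rintro a ⟨ha, ha'⟩
        refine ⟨W.inv_mem ha, fun i g => ?_⟩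
        have := ha' i (a⁻¹ * g)
        rw [mul_inv_cancel_left] at this
        exact this.symm }
  have hNV : N ≤ V := fun v hv => ⟨hNW hv, fun i g => hfN i v hv g⟩
  have hVo : IsOpen (V : Set F) := by
    choose U hU1 hU2 hU3 using hinv
    have h1 : IsOpen ((W ⊓ ⨅ i, U i : Subgroup F) : Set F) := by
      rw [Subgroup.coe_inf, Subgroup.coe_iInf]
      exact hW.inter (isOpen_iInter_of_finite hU2)
    apply Subgroup.isOpen_mono _ h1
    intro v hv
    refine ⟨(Subgroup.mem_inf.mp hv).1, fun i g => ?_⟩
    have := (Subgroup.mem_inf.mp hv).2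
    rw [Subgroup.mem_iInf] at this
    exact hU3 i v (this i) g
  have hfinq : Finite (F ⧸ V) := by
    have : DiscreteTopology (F ⧸ V) := QuotientGroup.discreteTopology hVo
    exact finite_of_compact_of_discrete
  let σ : W →* Module.End (ZMod p) ((F ⧸ V) → ZMod p) :=
    { toFun := fun w =>
        { toFun := fun a c => a ((w : F)⁻¹ • c)
          map_add' := fun a b => rfl
          map_smul' := fun c a => rfl }
      map_one' := by
        ext a c
        simp
      map_mul' := by
        intro w w'
        ext a c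
        simp [mul_smul] }
  have hdisc : ∃ U : Subgroup F, IsOpen (U : Set F) ∧ ∀ w : W, (w : F) ∈ U → σ w = 1 := by
    obtain ⟨U, hUn, hUo, hUV⟩ := exists_openNormal hVo V.one_mem
    refine ⟨U, hUo, ?_⟩
    intro w hw
    apply LinearMap.ext
    intro a
    funext c
    change a ((w : F)⁻¹ • c) = a c
    congr 1
    obtain ⟨g, rfl⟩ := QuotientGroup.mk_surjective c
    change (((w : F)⁻¹ * g : F) : F ⧸ V) = g
    apply QuotientGroup.eq.mpr
    apply hUV
    have e : ((w : F)⁻¹ * g)⁻¹ * g = g⁻¹ * w * g := by group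
    rw [e]
    have := hUn.conj_mem _ hw g⁻¹
    rwa [inv_inv] at this
  let a : Fin m → ((F ⧸ V) → ZMod p) := fun i c => Quotient.liftOn' c (fun g => f i g⁻¹) (by
    intro g g' hgg
    have h1 : g⁻¹ * g' ∈ V := QuotientGroup.leftRel_apply.mp hgg
    have h2 := h1.2 i g'⁻¹
    rw [mul_inv_cancel_right] at h2
    exact h2)
  have ha : ∀ i (g : F), a i (g : F ⧸ V) = f i g⁻¹ := fun i g => rfl
  have hfinM : Finite ((F ⧸ V) → ZMod p) := inferInstance
  obtain ⟨u, hu1, hu2, hu3⟩ := devissage h W hW y κ hκ hd _ ((F ⧸ V) → ZMod p) σ hdisc le_rfl a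
  refine ⟨⟨fun g => u g ((1 : F) : F ⧸ V), u.isLocallyConstant.comp
    (fun z : (F ⧸ V) → ZMod p => z ((1 : F) : F ⧸ V))⟩, ⟨?_, ?_⟩, ?_⟩
  · change u 1 _ = 0
    rw [hu1]
    rfl
  · intro v hv g
    change u (v * g) ((1 : F) : F ⧸ V) = u v ((1 : F) : F ⧸ V) + u g ((1 : F) : F ⧸ V)
    have e := hu2 ⟨v, hNW hv⟩ g
    change u (v * g) = u v + σ ⟨v, hNW hv⟩ (u g) at e
    rw [e]
    change u v ((1 : F) : F ⧸ V) + u g (v⁻¹ • ((1 : F) : F ⧸ V)) = _
    have e2 : (v⁻¹ • ((1 : F) : F ⧸ V)) = ((1 : F) : F ⧸ V) := by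
      change ((v⁻¹ * 1 : F) : F ⧸ V) = ((1 : F) : F ⧸ V)
      apply QuotientGroup.eq.mpr
      simpa using hNV hv
    rw [e2]
  · intro i g hg
    change u (g * y i) ((1 : F) : F ⧸ V) - u g ((1 : F) : F ⧸ V) = f i g
    have e := hu2 ⟨g, hg⟩ (y i)
    change u (g * y i) = u g + σ ⟨g, hg⟩ (u (y i)) at e
    rw [e, hu3]
    change u g ((1 : F) : F ⧸ V) + a i (g⁻¹ • ((1 : F) : F ⧸ V)) - _ = _
    have e2 : (g⁻¹ • ((1 : F) : F ⧸ V)) = ((g⁻¹ : F) : F ⧸ V) := by
      change ((g⁻¹ * 1 : F) : F ⧸ V) = _
      rw [mul_one]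
    rw [e2, ha, inv_inv]
    ring

end

end Pool.Agent.H42R2
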