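import Mathlib
import Pool.Agent.Results.MP_de7343_al.Dense
import Pool.Agent.H42R2.Lift
import Pool.Agent.H42R2.Artin

/-! Magnus coefficients. -/

set_option linter.unusedSectionVars false

namespace Pool.Agent.H42R2

open Topology

section Conv

variable {n : ℕ} {R : Type} [CommRing R]

/-- The convolution `∑_{A ++ B = L} α(A) β(B)`. -/
def conv (α β : List (Fin n) → R) (L : List (Fin n)) : R :=
  ∑ i ∈ Finset.range (L.length + 1), α (L.take i) * β (L.drop i)

theorem conv_nil (α β : List (Fin n) → R) : conv α β [] = α [] * β [] := by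
  simp [conv]

theorem conv_cons (α β : List (Fin n) → R) (a : Fin n) (L : List (Fin n)) :
    conv α β (a :: L) = α [] * β (a :: L) + conv (fun A => α (a :: A)) β L := by
  simp only [conv, List.length_cons]
  rw [Finset.sum_range_succ']
  simp only [List.take_succ_cons, List.drop_succ_cons, List.take_zero, List.drop_zero]
  ring

theorem conv_add (α α' β : List (Fin n) → R) (L : List (Fin n)) :
    conv (fun A => α A + α' A) β L = conv α β L + conv α' β L := by
  simp only [conv, add_mul, Finset.sum_add_distrib]

theorem conv_zero (β : List (Fin n) → R) (L : List (Fin n)) :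
    conv (fun _ => 0) β L = 0 := by
  simp [conv]

theorem conv_split (α β : List (Fin n) → R) (L : List (Fin n)) (hL : L ≠ []) :
    conv α β L = α [] * β L + α L * β [] +
      ∑ i ∈ Finset.range (L.length - 1), α (L.take (i + 1)) * β (L.drop (i + 1)) := by
  obtain ⟨l, hl⟩ : ∃ l, L.length = l + 1 := by
    have : L.length ≠ 0 := by simpa using hL
    exact ⟨L.length - 1, by omega⟩
  simp only [conv, hl, Nat.add_sub_cancel]
  rw [Finset.sum_range_succ', Finset.sum_range_succ]
  rw [← hl, List.take_length, List.drop_length]
  simp only [List.take_zero, List.drop_zero]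
  ring

theorem conv_sub_left (α β : List (Fin n) → R) (L : List (Fin n)) :
    conv α β L = α [] * β L +
      ∑ i ∈ Finset.range L.length, α (L.take (i + 1)) * β (L.drop (i + 1)) := by
  simp only [conv]
  rw [Finset.sum_range_succ']
  simp only [List.take_zero, List.drop_zero]
  ring

end Conv

section

variable {p : ℕ} {n : ℕ} {F : Type} [Group F] [TopologicalSpace F] [IsTopologicalGroup F]
  [CompactSpace F] [T2Space F] [TotallyDisconnectedSpace F] {x : Fin n → F}

theorem toZModPow_lc' [hp : Fact p.Prime] (k : ℕ) :
    IsLocallyConstant (fun a : ℤ_[p] => PadicInt.toZModPow k a) :=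
  Pool.Agent.Results.MP_de7343_al.Dense.toZModPow_lc k

/-- Continuous `ℤ_p`-valued functions with prescribed differences exist. -/
theorem basis_padic [hp : Fact p.Prime] (h : FreeData p x) (b : Fin n → F → ℤ_[p])
    (hb : ∀ j, Continuous (b j)) :
    ∃ u : F → ℤ_[p], Continuous u ∧ u 1 = 0 ∧ ∀ g j, u (g * x j) = u g + b j g := by
  have hne : ∀ k, NeZero (p ^ k) := fun k => ⟨pow_ne_zero _ hp.out.ne_zero⟩
  have hex : ∀ k : ℕ, ∃ u : LocallyConstant F (ZMod (p ^ k)), u 1 = 0 ∧
      ∀ g j, u (g * x j) = u g + PadicInt.toZModPow k (b j g) := by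
    intro k
    have := hne k
    exact h.basis (ZMod (p ^ k)) ⟨k, Nat.card_zmod _⟩ (fun j =>
      ⟨fun g => PadicInt.toZModPow k (b j g), (toZModPow_lc' k).comp_continuous (hb j)⟩)
  choose u hu1 hu using hex
  have hcomp : ∀ k g, ZMod.castHom (pow_dvd_pow p (Nat.le_succ k)) (ZMod (p ^ k)) (u (k + 1) g) =
      u k g := by
    intro k g
    have := h.const_lc (fun g => ZMod.castHom (pow_dvd_pow p (Nat.le_succ k)) (ZMod (p ^ k))
      (u (k + 1) g) - u k g) (by
        exact ((u (k + 1)).isLocallyConstant.comp _).sub (u k).isLocallyConstant) (by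
        intro g j
        rw [hu, hu, map_add]
        have e := PadicInt.cast_toZModPow k (k + 1) (Nat.le_succ k) (b j g)
        have e2 : ZMod.castHom (pow_dvd_pow p (Nat.le_succ k)) (ZMod (p ^ k))
            (PadicInt.toZModPow (k + 1) (b j g)) = PadicInt.toZModPow k (b j g) := e
        rw [e2]
        ring) g
    rw [hu1, hu1, map_zero, sub_zero] at this
    exact sub_eq_zero.mp this
  let a : F → ℕ → ℤ := fun g k => ((u k g).val : ℤ)
  have ha : ∀ g i, (p : ℤ) ^ i ∣ a g (i + 1) - a g i := by
    intro g i
    have e := hcomp i g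
    have : ((a g i : ℤ) : ZMod (p ^ i)) = ((a g (i + 1) : ℤ) : ZMod (p ^ i)) := by
      simp only [a]
      have n1 := hne i
      have n2 := hne (i + 1)
      rw [Int.cast_natCast, Int.cast_natCast, ZMod.natCast_val, ZMod.natCast_val, ZMod.cast_id,
        ← e]
      rfl
    have := (ZMod.intCast_eq_intCast_iff_dvd_sub _ _ _).mp this
    exact_mod_cast this
  let χ : F → ℤ_[p] := fun g => PadicInt.ofIntSeq _
    (PadicInt.isCauSeq_padicNorm_of_pow_dvd_sub (a g) p (ha g))
  have hχ : ∀ g k, PadicInt.toZModPow k (χ g) = u k g := by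
    intro g k
    have := PadicInt.toZModPow_ofIntSeq_of_pow_dvd_sub (a g) p (ha g) k
    have n1 := hne k
    rw [this]
    simp only [a]
    rw [Int.cast_natCast, ZMod.natCast_val, ZMod.cast_id]
  refine ⟨χ, ?_, ?_, ?_⟩
  · rw [Metric.continuous_iff']
    intro g ε hε
    obtain ⟨k, hk⟩ := PadicInt.exists_pow_neg_lt p hε
    have h1 := (u k).isLocallyConstant.eventually_eq g
    filter_upwards [h1] with y hy
    rw [dist_eq_norm]
    refine lt_of_le_of_lt ?_ hk
    rw [PadicInt.norm_le_pow_iff_mem_span_pow, ← PadicInt.ker_toZModPow, RingHom.mem_ker,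
      map_sub, hχ, hχ]
    have hy' : u k y = u k g := hy
    rw [hy', sub_self]
  · apply PadicInt.ext_of_toZModPow.mp
    intro k
    rw [hχ, hu1, map_zero]
  · intro g j
    apply PadicInt.ext_of_toZModPow.mp
    intro k
    rw [hχ, hu, map_add, hχ]

/-- The Magnus coefficients (the head of the list is the last letter of the word). -/
structure Magnus (p : ℕ) [Fact p.Prime] {n : ℕ} {F : Type} [Group F] [TopologicalSpace F]
    (x : Fin n → F) (ε : List (Fin n) → F → ℤ_[p]) : Prop where
  cont : ∀ L, Continuous (ε L)
  nil : ∀ g, ε [] g = 1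
  one : ∀ i L, ε (i :: L) 1 = 0
  step : ∀ i L g j, ε (i :: L) (g * x j) = ε (i :: L) g + if i = j then ε L g else 0

theorem exists_magnus [hp : Fact p.Prime] (h : FreeData p x) :
    ∃ ε : List (Fin n) → F → ℤ_[p], Magnus p x ε := by
  classical
  have hstep : ∀ (i : Fin n) (f : {f : F → ℤ_[p] // Continuous f}), ∃ u : {f : F → ℤ_[p] // Continuous f},
      u.1 1 = 0 ∧ ∀ g j, u.1 (g * x j) = u.1 g + if i = j then f.1 g else 0 := by
    intro i f
    obtain ⟨u, hu1, hu2, hu3⟩ := basis_padic h (fun j g => if i = j then f.1 g else 0) (by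
      intro j
      split_ifs
      · exact f.2
      · exact continuous_const)
    exact ⟨⟨u, hu1⟩, hu2, hu3⟩
  choose I hI1 hI2 using hstep
  let ε : List (Fin n) → {f : F → ℤ_[p] // Continuous f} := fun L =>
    List.rec (motive := fun _ => {f : F → ℤ_[p] // Continuous f}) ⟨fun _ => 1, continuous_const⟩
      (fun i _ f => I i f) L
  exact ⟨fun L => (ε L).1, fun L => (ε L).2, fun g => rfl, fun i L => hI1 i (ε L),
    fun i L g j => hI2 i (ε L) g j⟩

namespace Magnus

variable [hp : Fact p.Prime] {ε : List (Fin n) → F → ℤ_[p]}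

theorem one' (hε : Magnus p x ε) (L : List (Fin n)) (hL : L ≠ []) : ε L 1 = 0 := by
  cases L with
  | nil => exact absurd rfl hL
  | cons i L => exact hε.one i L

theorem mul (h : FreeData p x) (hε : Magnus p x ε) (L : List (Fin n)) :
    ∀ g g', ε L (g * g') = conv (fun A => ε A g') (fun B => ε B g) L := by
  induction L with
  | nil =>
    intro g g'
    rw [conv_nil, hε.nil, hε.nil, hε.nil, mul_one]
  | cons i L ih =>
    intro g g'
    have hcc : Continuous (fun g' : F => conv (fun A => ε A g') (fun B => ε B g) (i :: L)) := by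
      unfold conv
      apply continuous_finset_sum
      intro l _
      exact (hε.cont _).mul continuous_const
    have key := h.const (fun g' => ε (i :: L) (g * g') -
      conv (fun A => ε A g') (fun B => ε B g) (i :: L)) (by
        exact ((hε.cont _).comp (continuous_const.mul continuous_id)).sub hcc) (by
        intro g' j
        rw [← mul_assoc, hε.step]
        have e1 : conv (fun A => ε A (g' * x j)) (fun B => ε B g) (i :: L) =
            conv (fun A => ε A g') (fun B => ε B g) (i :: L) +
              if i = j then ε L (g * g') else 0 := by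
          rw [conv_cons, conv_cons]
          have e2 : (fun A => ε (i :: A) (g' * x j)) =
              fun A => ε (i :: A) g' + if i = j then ε A g' else 0 := by
            funext A
            exact hε.step i A g' j
          rw [e2, conv_add, hε.nil, hε.nil]
          split_ifs with hij
          · rw [ih g g']
            ring
          · rw [conv_zero]
            ring
        rw [e1]
        ring) g'
    rw [mul_one] at key
    have e3 : conv (fun A => ε A (1 : F)) (fun B => ε B g) (i :: L) = ε (i :: L) g := by
      rw [conv_cons, hε.nil]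
      have : (fun A => ε (i :: A) (1 : F)) = fun _ => 0 := by
        funext A
        exact hε.one i A
      rw [this, conv_zero]
      ring
    rw [e3, sub_self] at key
    exact sub_eq_zero.mp key

/-- The mod `p` Magnus coefficients span the locally constant functions, so they separate points. -/
theorem faithful (h : FreeData p x) (hε : Magnus p x ε) (g : F)
    (hg : ∀ L, L ≠ [] → ε L g = 0) : g = 1 := by
  classical
  let e : List (Fin n) → F → ZMod p := fun L g => PadicInt.toZMod (ε L g)
  let S : Submodule (ZMod p) (F → ZMod p) := Submodule.span (ZMod p) (Set.range e)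
  have he1 : ∀ g, e [] g = 1 := by
    intro g
    change PadicInt.toZMod (ε [] g) = 1
    rw [hε.nil, map_one]
  have hestep : ∀ i L g j, e (i :: L) (g * x j) = e (i :: L) g + if i = j then e L g else 0 := by
    intro i L g j
    change PadicInt.toZMod (ε (i :: L) (g * x j)) = PadicInt.toZMod (ε (i :: L) g) +
      if i = j then PadicInt.toZMod (ε L g) else 0
    rw [hε.step, map_add]
    split_ifs
    · rfl
    · rw [map_zero]
  have hSmem : ∀ L, e L ∈ S := fun L => Submodule.subset_span ⟨L, rfl⟩
  -- locally constant
  have helc : ∀ L, IsLocallyConstant (e L) := by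
    intro L
    have h1 : IsLocallyConstant (fun a : ℤ_[p] => PadicInt.toZMod a) := by
      rw [IsLocallyConstant.iff_eventually_eq]
      intro a
      have h2 : {b : ℤ_[p] | (p : ℤ_[p]) ^ 1 ∣ b - a} ∈ 𝓝 a :=
        ((isOpen_dvd (p := p) 1).preimage (continuous_id.sub continuous_const)).mem_nhds (by
          change (p : ℤ_[p]) ^ 1 ∣ a - a
          rw [sub_self]
          exact dvd_zero _)
      filter_upwards [h2] with b hb
      have hb' : (p : ℤ_[p]) ∣ b - a := by
        have : (p : ℤ_[p]) ^ 1 ∣ b - a := hb
        rwa [pow_one] at this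
      have : PadicInt.toZMod (b - a) = 0 := by
        rw [← RingHom.mem_ker, PadicInt.ker_toZMod, PadicInt.maximalIdeal_eq_span_p,
          Ideal.mem_span_singleton]
        exact hb'
      rw [map_sub] at this
      exact sub_eq_zero.mp this
    exact h1.comp_continuous (hε.cont L)
  have hSlc : ∀ s ∈ S, IsLocallyConstant s := by
    intro s hs
    induction hs using Submodule.span_induction with
    | mem s hs =>
      obtain ⟨L, rfl⟩ := hs
      exact helc L
    | zero => exact IsLocallyConstant.const 0
    | add a b _ _ ha hb => exact ha.add hb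
    | smul c a _ ha => exact ha.comp (fun z => c • z)
  -- translations
  have hconv : ∀ (L : List (Fin n)) (α : List (Fin n) → ℤ_[p]),
      (fun g : F => PadicInt.toZMod (conv α (fun B => ε B g) L)) ∈ S := by
    intro L
    induction L with
    | nil =>
      intro α
      have : (fun g : F => PadicInt.toZMod (conv α (fun B => ε B g) [])) =
          PadicInt.toZMod (α []) • e [] := by
        funext g
        rw [conv_nil, map_mul]
        rfl
      rw [this]
      exact S.smul_mem _ (hSmem _)
    | cons i L ih =>
      intro α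
      have : (fun g : F => PadicInt.toZMod (conv α (fun B => ε B g) (i :: L))) =
          PadicInt.toZMod (α []) • e (i :: L) +
            (fun g : F => PadicInt.toZMod (conv (fun A => α (i :: A)) (fun B => ε B g) L)) := by
        funext g
        rw [conv_cons, map_add, map_mul]
        rfl
      rw [this]
      exact S.add_mem (S.smul_mem _ (hSmem _)) (ih _)
  have hStrans : ∀ (w : F), ∀ s ∈ S, (fun g => s (g * w)) ∈ S := by
    intro w s hs
    induction hs using Submodule.span_induction with
    | mem s hs =>
      obtain ⟨L, rfl⟩ := hs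
      have : (fun g => e L (g * w)) = fun g : F =>
          PadicInt.toZMod (conv (fun A => ε A w) (fun B => ε B g) L) := by
        funext g
        change PadicInt.toZMod (ε L (g * w)) = _
        rw [hε.mul h]
      rw [this]
      exact hconv L _
    | zero => exact S.zero_mem
    | add a b _ _ ha hb => exact S.add_mem ha hb
    | smul c a _ ha => exact S.smul_mem c ha
  -- integration
  have hint : ∀ (j : Fin n), ∀ s ∈ S, ∃ s' ∈ S, ∀ g i, s' (g * x i) - s' g = if j = i then s g else 0 := by
    intro j s hs
    induction hs using Submodule.span_induction with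
    | mem s hs =>
      obtain ⟨L, rfl⟩ := hs
      refine ⟨e (j :: L), hSmem _, ?_⟩
      intro g i
      rw [hestep]
      ring
    | zero => exact ⟨0, S.zero_mem, fun g i => by simp⟩
    | add a b _ _ ha hb =>
      obtain ⟨a', ha', ha''⟩ := ha
      obtain ⟨b', hb', hb''⟩ := hb
      refine ⟨a' + b', S.add_mem ha' hb', fun g i => ?_⟩
      have e1 := ha'' g i
      have e2 := hb'' g i
      simp only [Pi.add_apply]
      split_ifs at e1 e2 ⊢
      · linear_combination e1 + e2
      · linear_combination e1 + e2
    | smul c a _ ha =>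
      obtain ⟨a', ha', ha''⟩ := ha
      refine ⟨c • a', S.smul_mem c ha', fun g i => ?_⟩
      have e1 := ha'' g i
      simp only [Pi.smul_apply, smul_eq_mul]
      split_ifs at e1 ⊢
      · linear_combination c * e1
      · linear_combination c * e1
  have hclosed : ∀ f : F → ZMod p, IsLocallyConstant f →
      (∀ j, (fun g => f (g * x j) - f g) ∈ S) → f ∈ S := by
    intro f hf hfS
    choose s' hs' hs'' using fun j => hint j _ (hfS j)
    have hsum : (∑ j, s' j) ∈ S := S.sum_mem (fun j _ => hs' j)
    have hlc : IsLocallyConstant (fun g => f g - (∑ j, s' j) g) := hf.sub (hSlc _ hsum)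
    have hc := h.const_lc _ hlc (by
      intro g j
      have e1 : (∑ i, s' i) (g * x j) - (∑ i, s' i) g = f (g * x j) - f g := by
        rw [Finset.sum_apply, Finset.sum_apply, ← Finset.sum_sub_distrib]
        rw [Finset.sum_congr rfl (fun i _ => hs'' i g j)]
        rw [Finset.sum_ite_eq' Finset.univ j (fun i => f (g * x i) - f g)]
        simp
      linear_combination -e1)
    have : f = (f 1 - (∑ j, s' j) 1) • e [] + ∑ j, s' j := by
      funext g
      have := hc g
      simp only [Pi.add_apply, Pi.smul_apply, smul_eq_mul, he1]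
      linear_combination this
    rw [this]
    exact S.add_mem (S.smul_mem _ (hSmem _)) hsum
  -- all functions of finite level are in the span
  have hall : ∀ (U : Subgroup F), U.Normal → IsOpen (U : Set F) → ∀ φ : (F ⧸ U) → ZMod p,
      (fun g : F => φ ((g⁻¹ : F) : F ⧸ U)) ∈ S := by
    intro U hUn hUo
    have hfinq : Finite (F ⧸ U) := by
      have : DiscreteTopology (F ⧸ U) := QuotientGroup.discreteTopology hUo
      exact finite_of_compact_of_discrete
    let star : ((F ⧸ U) → ZMod p) →ₗ[ZMod p] (F → ZMod p) :=
      { toFun := fun φ g => φ ((g⁻¹ : F) : F ⧸ U)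
        map_add' := fun a b => rfl
        map_smul' := fun c a => rfl }
    let SU : Submodule (ZMod p) ((F ⧸ U) → ZMod p) := S.comap star
    let σ : (⊤ : Subgroup F) →* Module.End (ZMod p) ((F ⧸ U) → ZMod p) :=
      { toFun := fun w =>
          { toFun := fun a c => a ((w : F)⁻¹ • c)
            map_add' := fun a b => rfl
            map_smul' := fun c a => rfl }
        map_one' := by
          ext a c
          simp
        map_mul' := by
          intro w w'
          ext a c
          simp [mul_smul] }
    have hσstar : ∀ (w : (⊤ : Subgroup F)) φ g, star (σ w φ) g = star φ (g * w) := by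
      intro w φ g
      change φ ((w : F)⁻¹ • ((g⁻¹ : F) : F ⧸ U)) = φ (((g * w)⁻¹ : F) : F ⧸ U)
      congr 1
      change (((w : F)⁻¹ * g⁻¹ : F) : F ⧸ U) = _
      rw [mul_inv_rev]
    have hSUinv : ∀ w, SU ≤ SU.comap (σ w) := by
      intro w φ hφ
      change star (σ w φ) ∈ S
      have : star (σ w φ) = fun g => star φ (g * w) := by
        funext g
        exact hσstar w φ g
      rw [this]
      exact hStrans w _ hφ
    by_contra hne
    push_neg at hne
    obtain ⟨φ0, hφ0⟩ := hne
    have hfinQ : Finite (((F ⧸ U) → ZMod p) ⧸ SU) := Finite.of_surjective _ SU.mkQ_surjective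
    have hnt : Nontrivial (((F ⧸ U) → ZMod p) ⧸ SU) := by
      refine ⟨SU.mkQ φ0, 0, ?_⟩
      intro e0
      apply hφ0
      have : φ0 ∈ SU := (Submodule.Quotient.mk_eq_zero SU).mp e0
      exact this
    let σ' : (⊤ : Subgroup F) →* Module.End (ZMod p) (((F ⧸ U) → ZMod p) ⧸ SU) :=
      { toFun := fun w => SU.mapQ SU (σ w) (hSUinv w)
        map_one' := by
          ext z
          simp
        map_mul' := by
          intro w w'
          ext z
          simp }
    obtain ⟨b, hb0, hb⟩ := exists_fixed_vec h ⊤ σ' ⟨U, hUo, by
      intro w hw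
      ext z
      change SU.mkQ (σ w (Pi.single z 1)) = SU.mkQ (Pi.single z 1)
      congr 1
      funext c
      change (Pi.single z 1 : (F ⧸ U) → ZMod p) ((w : F)⁻¹ • c) = (Pi.single z 1 : (F ⧸ U) → ZMod p) c
      congr 1
      obtain ⟨g, rfl⟩ := QuotientGroup.mk_surjective c
      change (((w : F)⁻¹ * g : F) : F ⧸ U) = g
      apply QuotientGroup.eq.mpr
      have e : ((w : F)⁻¹ * g)⁻¹ * g = g⁻¹ * w * g := by group
      rw [e]
      have := hUn.conj_mem _ hw g⁻¹
      rwa [inv_inv] at this⟩
    obtain ⟨φ, rfl⟩ := SU.mkQ_surjective b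
    apply hb0
    apply (Submodule.Quotient.mk_eq_zero SU).mpr
    change star φ ∈ S
    apply hclosed
    · apply lc_of_left _ U hUo
      intro v hv g
      change φ (((v * g)⁻¹ : F) : F ⧸ U) = φ ((g⁻¹ : F) : F ⧸ U)
      congr 1
      apply QuotientGroup.eq.mpr
      have e : ((v * g)⁻¹)⁻¹ * g⁻¹ = v := by group
      rw [e]
      exact hv
    · intro j
      have h1 := hb ⟨x j, trivial⟩
      have h2 : SU.mkQ (σ ⟨x j, trivial⟩ φ) = SU.mkQ φ := h1
      have h3 : σ ⟨x j, trivial⟩ φ - φ ∈ SU := by
        rw [← Submodule.Quotient.mk_eq_zero]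
        change SU.mkQ (σ ⟨x j, trivial⟩ φ - φ) = 0
        rw [map_sub, h2, sub_self]
      have h4 : star (σ ⟨x j, trivial⟩ φ - φ) ∈ S := h3
      have h5 : star (σ ⟨x j, trivial⟩ φ - φ) = fun g => star φ (g * x j) - star φ g := by
        rw [map_sub]
        funext g
        rw [Pi.sub_apply, hσstar]
      rw [h5] at h4
      exact h4
  -- conclusion
  have hval : ∀ s ∈ S, s g = s 1 := by
    intro s hs
    induction hs using Submodule.span_induction with
    | mem s hs =>
      obtain ⟨L, rfl⟩ := hs
      cases L with
      | nil => rw [he1, he1]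
      | cons i L =>
        change PadicInt.toZMod (ε (i :: L) g) = PadicInt.toZMod (ε (i :: L) 1)
        rw [hg _ (List.cons_ne_nil _ _), hε.one]
    | zero => rfl
    | add a b _ _ ha hb => rw [Pi.add_apply, Pi.add_apply, ha, hb]
    | smul c a _ ha => rw [Pi.smul_apply, Pi.smul_apply, ha]
  by_contra hg1
  have hV : IsOpen ({g}ᶜ : Set F) := isOpen_compl_singleton
  obtain ⟨U, hUn, hUo, hUV⟩ := exists_openNormal hV (fun e => hg1 e.symm)
  have h1 := hval _ (hall U hUn hUo (fun c => if c = ((1 : F) : F ⧸ U) then 1 else 0))
  simp only [inv_one, if_true] at h1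
  have h2 : ((g⁻¹ : F) : F ⧸ U) = ((1 : F) : F ⧸ U) := by
    by_contra hne
    rw [if_neg hne] at h1
    exact zero_ne_one h1
  have h3 : g ∈ U := by
    have := QuotientGroup.eq.mp h2
    simpa using this
  exact hUV h3 rfl

end Magnus

end

end Pool.Agent.H42R2
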