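import Mathlib
import Pool.Agent.H42R2.Magnus

/-! The filtration defined by the scaled Magnus coefficients `m L = p ^ |L| * ε L`. -/

set_option linter.unusedSectionVars false

namespace Pool.Agent.H42R2

open Topology

section

variable {p : ℕ} [hp : Fact p.Prime] {n : ℕ} {F : Type} [Group F] [TopologicalSpace F]
  [IsTopologicalGroup F] [CompactSpace F] [T2Space F] [TotallyDisconnectedSpace F] {x : Fin n → F}

/-- Properties of the scaled Magnus coefficients. -/
structure SMagnus (p : ℕ) [Fact p.Prime] {n : ℕ} {F : Type} [Group F] [TopologicalSpace F]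
    (x : Fin n → F) (m : List (Fin n) → F → ℤ_[p]) : Prop where
  cont : ∀ L, Continuous (m L)
  nil : ∀ g, m [] g = 1
  one : ∀ L, L ≠ [] → m L 1 = 0
  step : ∀ i L g j, m (i :: L) (g * x j) = m (i :: L) g + if i = j then p * m L g else 0
  mul : ∀ L g g', m L (g * g') = conv (fun A => m A g') (fun B => m B g) L
  dvd : ∀ L g, (p : ℤ_[p]) ^ L.length ∣ m L g
  faithful : ∀ g, (∀ L, L ≠ [] → m L g = 0) → g = 1

theorem conv_scale {R : Type} [CommRing R] (c : R) (α β : List (Fin n) → R) (L : List (Fin n)) :
    conv (fun A => c ^ A.length * α A) (fun B => c ^ B.length * β B) L =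
      c ^ L.length * conv α β L := by
  simp only [conv, Finset.mul_sum]
  apply Finset.sum_congr rfl
  intro i hi
  have : L.length = (L.take i).length + (L.drop i).length := by
    rw [← List.length_append, List.take_append_drop]
  rw [this, pow_add]
  ring

theorem exists_smagnus (h : FreeData p x) : ∃ m : List (Fin n) → F → ℤ_[p], SMagnus p x m := by
  obtain ⟨ε, hε⟩ := exists_magnus h
  refine ⟨fun L g => (p : ℤ_[p]) ^ L.length * ε L g, ?_, ?_, ?_, ?_, ?_, ?_, ?_⟩
  · intro L
    exact continuous_const.mul (hε.cont L)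
  · intro g
    simp [hε.nil]
  · intro L hL
    rw [hε.one' L hL, mul_zero]
  · intro i L g j
    simp only [List.length_cons]
    rw [hε.step]
    split_ifs
    · rw [pow_succ]
      ring
    · ring
  · intro L g g'
    rw [hε.mul h, conv_scale]
  · intro L g
    exact dvd_mul_right _ _
  · intro g hg
    apply hε.faithful h
    intro L hL
    have := hg L hL
    have hp0 : (p : ℤ_[p]) ^ L.length ≠ 0 := pow_ne_zero _ (by exact_mod_cast hp.out.ne_zero)
    exact (mul_eq_zero.mp this).resolve_left hp0

variable {m : List (Fin n) → F → ℤ_[p]}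

theorem SMagnus.dvd_one (hm : SMagnus p x m) (L : List (Fin n)) (hL : L ≠ []) (g : F) :
    (p : ℤ_[p]) ∣ m L g := by
  have h1 : L.length ≠ 0 := by simpa using hL
  exact (dvd_pow_self _ h1).trans (hm.dvd L g)

/-- The product formula with the extreme terms split off. -/
theorem SMagnus.mul' (hm : SMagnus p x m) (L : List (Fin n)) (hL : L ≠ []) (g g' : F) :
    m L (g * g') = m L g + m L g' +
      ∑ i ∈ Finset.range (L.length - 1), m (L.take (i + 1)) g' * m (L.drop (i + 1)) g := by
  rw [hm.mul, conv_split _ _ L hL, hm.nil, hm.nil]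
  ring

theorem take_ne_nil {L : List (Fin n)} {i : ℕ} (hi : i ∈ Finset.range (L.length - 1)) :
    L.take (i + 1) ≠ [] ∧ (L.take (i + 1)).length < L.length ∧ L.drop (i + 1) ≠ [] ∧
      (L.drop (i + 1)).length < L.length := by
  rw [Finset.mem_range] at hi
  refine ⟨?_, ?_, ?_, ?_⟩
  · intro e
    have := congrArg List.length e
    rw [List.length_take, List.length_nil] at this
    omega
  · rw [List.length_take]
    omega
  · intro e
    have := congrArg List.length e
    rw [List.length_drop, List.length_nil] at this
    omega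
  · rw [List.length_drop]
    omega

/-- First congruence: the middle terms are small. -/
theorem SMagnus.mul_congr (hm : SMagnus p x m) (L : List (Fin n)) (hL : L ≠ []) (g g' : F)
    (a b : ℕ) (ha : ∀ A, A ≠ [] → A.length < L.length → (p : ℤ_[p]) ^ a ∣ m A g')
    (hb : ∀ B, B ≠ [] → B.length < L.length → (p : ℤ_[p]) ^ b ∣ m B g) :
    (p : ℤ_[p]) ^ (a + b) ∣ m L (g * g') - (m L g + m L g') := by
  rw [hm.mul' L hL, add_sub_cancel_left]
  apply Finset.dvd_sum
  intro i hi
  obtain ⟨h1, h2, h3, h4⟩ := take_ne_nil hi
  rw [pow_add]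
  exact mul_dvd_mul (ha _ h1 h2) (hb _ h3 h4)

/-- The subgroups `V_{c,l}`. -/
def VV (hm : SMagnus p x m) (c l : ℕ) : Subgroup F where
  carrier := {v | ∀ L, L ≠ [] → L.length ≤ c → (p : ℤ_[p]) ^ l ∣ m L v}
  mul_mem' := by
    intro v w hv hw L hL hLc
    have h1 := hm.mul_congr L hL v w l 0 (fun A hA hA' => hw A hA (by omega))
      (fun B _ _ => by simp)
    rw [add_zero] at h1
    have h2 := dvd_add h1 (dvd_add (hv L hL hLc) (hw L hL hLc))
    rwa [sub_add_cancel] at h2
  one_mem' := by
    intro L hL _
    rw [hm.one L hL]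
    exact dvd_zero _
  inv_mem' := by
    intro v hv
    -- strong induction on the length
    have key : ∀ k : ℕ, ∀ L : List (Fin n), L.length = k → L ≠ [] → L.length ≤ c →
        (p : ℤ_[p]) ^ l ∣ m L v⁻¹ := by
      intro k
      induction k using Nat.strong_induction_on with
      | _ k ih =>
        intro L hk hL hLc
        have h1 := hm.mul_congr L hL v v⁻¹ 0 l (fun A _ _ => by simp)
          (fun B hB hB' => hv B hB (by omega))
        rw [zero_add, mul_inv_cancel, hm.one L hL, zero_sub, dvd_neg] at h1
        exact (dvd_add_right (hv L hL hLc)).mp h1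
    intro L hL hLc
    exact key _ L rfl hL hLc

theorem mem_VV (hm : SMagnus p x m) (c l : ℕ) (v : F) :
    v ∈ VV hm c l ↔ ∀ L, L ≠ [] → L.length ≤ c → (p : ℤ_[p]) ^ l ∣ m L v := Iff.rfl

theorem VV_mono (hm : SMagnus p x m) {c c' l l' : ℕ} (hc : c ≤ c') (hl : l ≤ l') :
    VV hm c' l' ≤ VV hm c l := by
  intro v hv L hL hLc
  exact (pow_dvd_pow _ hl).trans (hv L hL (hLc.trans hc))

theorem VV_one (hm : SMagnus p x m) (c : ℕ) : VV hm c 1 = ⊤ := by
  rw [eq_top_iff]
  intro v _ L hL _
  rw [pow_one]
  exact hm.dvd_one L hL v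

theorem finite_words (c : ℕ) : {L : List (Fin n) | L.length ≤ c}.Finite :=
  List.finite_length_le (Fin n) c

theorem VV_closed (hm : SMagnus p x m) (c l : ℕ) : IsClosed (VV hm c l : Set F) := by
  have : (VV hm c l : Set F) = ⋂ L : List (Fin n), ⋂ (_ : L ≠ [] ∧ L.length ≤ c),
      (m L) ⁻¹' {a | (p : ℤ_[p]) ^ l ∣ a} := by
    ext v
    simp only [Set.mem_iInter]
    constructor
    · intro hv L hL
      exact hv L hL.1 hL.2
    · intro hv L hL hLc
      exact hv L ⟨hL, hLc⟩
  rw [this]
  exact isClosed_iInter (fun L => isClosed_iInter (fun _ => (isClosed_dvd l).preimage (hm.cont L)))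

theorem VV_open (hm : SMagnus p x m) (c l : ℕ) : IsOpen (VV hm c l : Set F) := by
  have : (VV hm c l : Set F) = ⋂ L ∈ {L : List (Fin n) | L.length ≤ c},
      {v | L ≠ [] → (p : ℤ_[p]) ^ l ∣ m L v} := by
    ext v
    simp only [Set.mem_iInter]
    constructor
    · intro hv L hLc hL
      exact hv L hL hLc
    · intro hv L hL hLc
      exact hv L hLc hL
  rw [this]
  apply (finite_words c).isOpen_biInter
  intro L _
  by_cases hL : L = []
  · have : {v : F | L ≠ [] → (p : ℤ_[p]) ^ l ∣ m L v} = Set.univ := by
      ext v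
      simp [hL]
    rw [this]
    exact isOpen_univ
  · have : {v : F | L ≠ [] → (p : ℤ_[p]) ^ l ∣ m L v} = (m L) ⁻¹' {a | (p : ℤ_[p]) ^ l ∣ a} := by
      ext v
      simp [hL]
    rw [this]
    exact (isOpen_dvd l).preimage (hm.cont L)

/-- Conjugation changes the coefficients of `v ∈ V_{c,l}` only modulo `p^(l+1)`. -/
theorem conj_congr (hm : SMagnus p x m) (c l : ℕ) (g v : F) (hv : v ∈ VV hm c l) :
    ∀ L, L ≠ [] → L.length ≤ c → (p : ℤ_[p]) ^ (l + 1) ∣ m L (g * v * g⁻¹) - m L v := by
  have key : ∀ k : ℕ, ∀ L : List (Fin n), L.length = k → L ≠ [] → L.length ≤ c →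
      (p : ℤ_[p]) ^ (l + 1) ∣ m L (g * v * g⁻¹) - m L v := by
    intro k
    induction k using Nat.strong_induction_on with
    | _ k ih =>
      intro L hk hL hLc
      have h1 := hm.mul_congr L hL g v l 1 (fun A hA hA' => hv A hA (by omega))
        (fun B hB _ => by rw [pow_one]; exact hm.dvd_one B hB g)
      have h2 := hm.mul_congr L hL (g * v * g⁻¹) g 1 l
        (fun A hA _ => by rw [pow_one]; exact hm.dvd_one A hA g)
        (fun B hB hB' => by
          have h3 := ih B.length (by omega) B rfl hB (by omega)
          have h4 : (p : ℤ_[p]) ^ l ∣ m B v := hv B hB (by omega)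
          have h5 := dvd_add ((pow_dvd_pow _ (Nat.le_succ l)).trans h3) h4
          rwa [sub_add_cancel] at h5)
      rw [inv_mul_cancel_right] at h2
      rw [add_comm 1 l] at h2
      have h3 := dvd_sub h1 h2
      have e : m L (g * v) - (m L g + m L v) - (m L (g * v) - (m L (g * v * g⁻¹) + m L g)) =
          m L (g * v * g⁻¹) - m L v := by ring
      rwa [e] at h3
  intro L hL hLc
  exact key _ L rfl hL hLc

instance VV_normal (hm : SMagnus p x m) (c l : ℕ) : (VV hm c l).Normal := by
  constructor
  intro v hv g L hL hLc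
  have h1 := conj_congr hm c l g v hv L hL hLc
  have h2 := dvd_add ((pow_dvd_pow _ (Nat.le_succ l)).trans h1) (hv L hL hLc)
  rwa [sub_add_cancel] at h2

/-- The normal subgroup `N_c`. -/
def NN (hm : SMagnus p x m) (c : ℕ) : Subgroup F where
  carrier := {v | ∀ L, L ≠ [] → L.length ≤ c → m L v = 0}
  mul_mem' := by
    intro v w hv hw L hL hLc
    apply eq_zero_of_dvd
    intro e
    apply (VV hm c e).mul_mem _ _ L hL hLc
    · intro L hL hLc
      rw [hv L hL hLc]
      exact dvd_zero _
    · intro L hL hLc
      rw [hw L hL hLc]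
      exact dvd_zero _
  one_mem' := by
    intro L hL _
    exact hm.one L hL
  inv_mem' := by
    intro v hv L hL hLc
    apply eq_zero_of_dvd
    intro e
    apply (VV hm c e).inv_mem _ L hL hLc
    intro L hL hLc
    rw [hv L hL hLc]
    exact dvd_zero _

theorem mem_NN (hm : SMagnus p x m) (c : ℕ) (v : F) :
    v ∈ NN hm c ↔ ∀ L, L ≠ [] → L.length ≤ c → m L v = 0 := Iff.rfl

theorem NN_le_VV (hm : SMagnus p x m) (c l : ℕ) : NN hm c ≤ VV hm c l := by
  intro v hv L hL hLc
  rw [hv L hL hLc]
  exact dvd_zero _

theorem mem_NN_of_forall (hm : SMagnus p x m) (c : ℕ) (v : F) (h : ∀ l, v ∈ VV hm c l) :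
    v ∈ NN hm c := by
  intro L hL hLc
  apply eq_zero_of_dvd
  intro e
  exact h e L hL hLc

instance NN_normal (hm : SMagnus p x m) (c : ℕ) : (NN hm c).Normal := by
  constructor
  intro v hv g
  apply mem_NN_of_forall
  intro l
  exact (VV_normal hm c l).conj_mem v (NN_le_VV hm c l hv) g

theorem NN_closed (hm : SMagnus p x m) (c : ℕ) : IsClosed (NN hm c : Set F) := by
  have : (NN hm c : Set F) = ⋂ l : ℕ, (VV hm c l : Set F) := by
    ext v
    simp only [Set.mem_iInter]
    exact ⟨fun hv l => NN_le_VV hm c l hv, fun hv => mem_NN_of_forall hm c v hv⟩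
  rw [this]
  exact isClosed_iInter (fun l => VV_closed hm c l)

theorem NN_zero (hm : SMagnus p x m) : NN hm 0 = ⊤ := by
  rw [eq_top_iff]
  intro v _ L hL hLc
  exact absurd (List.length_eq_zero_iff.mp (Nat.le_zero.mp hLc)) hL

/-- The function module on `F / N_c` is Artinian. -/
theorem artin_NN (h : FreeData p x) (hm : SMagnus p x m) (c : ℕ) :
    IsArtinian (MonoidAlgebra (ZMod p) F) (CN p (NN hm c)) := by
  classical
  induction c with
  | zero =>
    have h0 := artin_top (p := p) (F := F)
    have hNN := NN_zero hm
    have key : ∀ (N : Subgroup F) (hN : N.Normal), N = ⊤ →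
        IsArtinian (MonoidAlgebra (ZMod p) F) (CN p N) := by
      intro N hN e
      subst e
      exact h0
    exact key _ _ hNN
  | succ c ih =>
    -- intermediate subgroups
    have hmul : ∀ L : List (Fin n), L.length = c + 1 → ∀ v ∈ NN hm c, ∀ w ∈ NN hm c,
        m L (v * w) = m L v + m L w := by
      intro L hLc v hv w hw
      have hL : L ≠ [] := by
        rintro rfl
        simp at hLc
      rw [hm.mul' L hL]
      rw [Finset.sum_eq_zero, add_zero]
      intro i hi
      obtain ⟨h1, h2, h3, h4⟩ := take_ne_nil hi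
      rw [hw _ h1 (by omega), zero_mul]
    have hconj : ∀ L : List (Fin n), L.length = c + 1 → ∀ g, ∀ v ∈ NN hm c,
        m L (g * v * g⁻¹) = m L v := by
      intro L hLc g v hv
      have hL : L ≠ [] := by
        rintro rfl
        simp at hLc
      have hv' : g * v * g⁻¹ ∈ NN hm c := (NN_normal hm c).conj_mem v hv g
      have e1 := hm.mul' L hL g v
      have e2 := hm.mul' L hL (g * v * g⁻¹) g
      rw [inv_mul_cancel_right] at e2
      rw [Finset.sum_eq_zero, add_zero] at e1
      · rw [Finset.sum_eq_zero, add_zero] at e2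
        · linear_combination e1 - e2
        · intro i hi
          obtain ⟨h1, h2, h3, h4⟩ := take_ne_nil hi
          rw [hv' _ h3 (by omega), mul_zero]
      · intro i hi
        obtain ⟨h1, h2, h3, h4⟩ := take_ne_nil hi
        rw [hv _ h1 (by omega), zero_mul]
    have hone : ∀ L : List (Fin n), L.length = c + 1 → m L 1 = 0 := by
      intro L hLc
      apply hm.one
      rintro rfl
      simp at hLc
    let K : Finset (List (Fin n)) → Subgroup F := fun S =>
      { carrier := {v | v ∈ NN hm c ∧ ∀ L ∈ S, L.length = c + 1 → m L v = 0}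
        mul_mem' := by
          rintro v w ⟨hv, hv'⟩ ⟨hw, hw'⟩
          refine ⟨(NN hm c).mul_mem hv hw, fun L hL hLc => ?_⟩
          rw [hmul L hLc v hv w hw, hv' L hL hLc, hw' L hL hLc, add_zero]
        one_mem' := ⟨(NN hm c).one_mem, fun L _ hLc => hone L hLc⟩
        inv_mem' := by
          rintro v ⟨hv, hv'⟩
          refine ⟨(NN hm c).inv_mem hv, fun L hL hLc => ?_⟩
          have := hmul L hLc v hv v⁻¹ ((NN hm c).inv_mem hv)
          rw [mul_inv_cancel, hone L hLc, hv' L hL hLc, zero_add] at this
          exact this.symm }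
    have hKn : ∀ S, (K S).Normal := by
      intro S
      constructor
      rintro v ⟨hv, hv'⟩ g
      refine ⟨(NN_normal hm c).conj_mem v hv g, fun L hL hLc => ?_⟩
      rw [hconj L hLc g v hv, hv' L hL hLc]
    have hKcl : ∀ S, IsClosed (K S : Set F) := by
      intro S
      have : (K S : Set F) = (NN hm c : Set F) ∩ ⋂ L : List (Fin n),
          ⋂ (_ : L ∈ S ∧ L.length = c + 1), {v | m L v = 0} := by
        ext v
        simp only [Set.mem_inter_iff, Set.mem_iInter]
        constructor
        · rintro ⟨h1, h2⟩
          exact ⟨h1, fun L hL => h2 L hL.1 hL.2⟩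
        · rintro ⟨h1, h2⟩
          exact ⟨h1, fun L hL hLc => h2 L ⟨hL, hLc⟩⟩
      rw [this]
      apply (NN_closed hm c).inter
      apply isClosed_iInter
      intro L
      apply isClosed_iInter
      intro _
      exact isClosed_eq (hm.cont L) continuous_const
    have hart : ∀ S : Finset (List (Fin n)), ∃ hN : (K S).Normal,
        IsArtinian (MonoidAlgebra (ZMod p) F) (@CN F _ _ _ p (K S) hN) := by
      intro S
      induction S using Finset.induction_on with
      | empty =>
        have e : K ∅ = NN hm c := by
          ext v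
          constructor
          · rintro ⟨h1, _⟩
            exact h1
          · intro h1
            exact ⟨h1, fun L hL => absurd hL (Finset.notMem_empty L)⟩
        refine ⟨hKn ∅, ?_⟩
        have key : ∀ (N : Subgroup F) (hN : N.Normal), N = NN hm c →
            IsArtinian (MonoidAlgebra (ZMod p) F) (CN p N) := by
          intro N hN e
          subst e
          exact ih
        exact key _ _ e
      | insert L S hLS ihS =>
        refine ⟨hKn _, ?_⟩
        obtain ⟨hN, hA⟩ := ihS
        have := hKn S
        have := hKn (insert L S)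
        by_cases hLc : L.length = c + 1
        · apply artin_step (K S) (K (insert L S)) h.index (hKcl S) (m L) (hm.cont L)
          · intro v hv w hw
            exact hmul L hLc v hv.1 w hw.1
          · intro g v hv
            exact hconj L hLc g v hv.1
          · intro v
            constructor
            · rintro ⟨h1, h2⟩
              exact ⟨⟨h1, fun L' hL' hLc' => h2 L' (Finset.mem_insert_of_mem hL') hLc'⟩,
                h2 L (Finset.mem_insert_self L S) hLc⟩
            · rintro ⟨⟨h1, h2⟩, h3⟩
              refine ⟨h1, fun L' hL' hLc' => ?_⟩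
              rcases Finset.mem_insert.mp hL' with rfl | hL'
              · exact h3
              · exact h2 L' hL' hLc'
          · exact hA
        · have e : K (insert L S) = K S := by
            ext v
            constructor
            · rintro ⟨h1, h2⟩
              exact ⟨h1, fun L' hL' hLc' => h2 L' (Finset.mem_insert_of_mem hL') hLc'⟩
            · rintro ⟨h1, h2⟩
              refine ⟨h1, fun L' hL' hLc' => ?_⟩
              rcases Finset.mem_insert.mp hL' with rfl | hL'
              · exact absurd hLc' hLc
              · exact h2 L' hL' hLc'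
          have key : ∀ (N : Subgroup F) (hN : N.Normal), N = K S →
              IsArtinian (MonoidAlgebra (ZMod p) F) (CN p N) := by
            intro N hN e
            subst e
            exact hA
          exact key _ _ e
    obtain ⟨hN, hA⟩ := hart (finite_words (n := n) (c + 1)).toFinset
    have e : NN hm (c + 1) = K (finite_words (n := n) (c + 1)).toFinset := by
      ext v
      constructor
      · intro hv
        refine ⟨fun L hL hLc => hv L hL (by omega), fun L _ hLc => ?_⟩
        apply hv L _ hLc.le
        rintro rfl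
        simp at hLc
      · rintro ⟨h1, h2⟩ L hL hLc
        rcases Nat.lt_or_ge L.length (c + 1) with hlt | hge
        · exact h1 L hL (by omega)
        · exact h2 L (by
            rw [Set.Finite.mem_toFinset]
            exact hLc) (by omega)
    have key : ∀ (N : Subgroup F) (hN' : N.Normal), N = K (finite_words (n := n) (c + 1)).toFinset →
        IsArtinian (MonoidAlgebra (ZMod p) F) (CN p N) := by
      intro N hN' e
      subst e
      exact hA
    exact key _ _ e

end

end Pool.Agent.H42R2
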