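import Mathlib
import Pool.Agent.H42R2.Filt

/-! The action of an automorphism close to the identity on the scaled Magnus coefficients. -/

set_option linter.unusedSectionVars false

namespace Pool.Agent.H42R2

open Topology

section

variable {p : ℕ} [hp : Fact p.Prime] {n : ℕ} {F : Type} [Group F] [TopologicalSpace F]
  [IsTopologicalGroup F] [CompactSpace F] [T2Space F] [TotallyDisconnectedSpace F] {x : Fin n → F}
  {m : List (Fin n) → F → ℤ_[p]}

/-- The span of the coefficients of words of length at most `c`. -/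
noncomputable def MM (m : List (Fin n) → F → ℤ_[p]) (c : ℕ) : Submodule ℤ_[p] (F → ℤ_[p]) :=
  Submodule.span ℤ_[p] {f | ∃ L : List (Fin n), L.length ≤ c ∧ f = m L}

theorem mem_MM (c : ℕ) (L : List (Fin n)) (hL : L.length ≤ c) : m L ∈ MM m c :=
  Submodule.subset_span ⟨L, hL, rfl⟩

theorem MM_mono {c c' : ℕ} (h : c ≤ c') : MM m c ≤ MM m c' := by
  apply Submodule.span_mono
  rintro f ⟨L, hL, rfl⟩
  exact ⟨L, hL.trans h, rfl⟩

theorem MM_cont (hm : SMagnus p x m) (c : ℕ) (f : F → ℤ_[p]) (hf : f ∈ MM m c) : Continuous f := by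
  induction hf using Submodule.span_induction with
  | mem f hf =>
    obtain ⟨L, _, rfl⟩ := hf
    exact hm.cont L
  | zero => exact continuous_const
  | add a b _ _ ha hb => exact ha.add hb
  | smul c a _ ha => exact continuous_const.mul ha

/-- Integration. -/
theorem MM_int (hm : SMagnus p x m) (c : ℕ) (f : F → ℤ_[p]) (hf : f ∈ MM m c) (j : Fin n) :
    ∃ f' ∈ MM m (c + 1), f' 1 = 0 ∧ ∀ g i, f' (g * x i) - f' g = if j = i then p * f g else 0 := by
  induction hf using Submodule.span_induction with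
  | mem f hf =>
    obtain ⟨L, hL, rfl⟩ := hf
    refine ⟨m (j :: L), mem_MM _ _ (by simpa using hL), hm.one _ (List.cons_ne_nil _ _), ?_⟩
    intro g i
    rw [hm.step]
    ring
  | zero => exact ⟨0, Submodule.zero_mem _, rfl, fun g i => by simp⟩
  | add a b _ _ ha hb =>
    obtain ⟨a', ha', ha1, ha''⟩ := ha
    obtain ⟨b', hb', hb1, hb''⟩ := hb
    refine ⟨a' + b', Submodule.add_mem _ ha' hb', by simp [ha1, hb1], fun g i => ?_⟩
    have e1 := ha'' g i
    have e2 := hb'' g i
    simp only [Pi.add_apply]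
    split_ifs at e1 e2 ⊢
    · linear_combination e1 + e2
    · linear_combination e1 + e2
  | smul c a _ ha =>
    obtain ⟨a', ha', ha1, ha''⟩ := ha
    refine ⟨c • a', Submodule.smul_mem _ c ha', by simp [ha1], fun g i => ?_⟩
    have e1 := ha'' g i
    simp only [Pi.smul_apply, smul_eq_mul]
    split_ifs at e1 ⊢
    · linear_combination c * e1
    · linear_combination c * e1

/-- `t` is close to the identity. -/
def Close (m : List (Fin n) → F → ℤ_[p]) (x : Fin n → F) (t : MulAut F) : Prop :=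
  ∀ L j, (p : ℤ_[p]) ^ 3 ∣ m L (t (x j)) - m L (x j)

theorem close_gen (h : FreeData p x) (hm : SMagnus p x m) (t : MulAut F) (ht : Continuous t)
    (hcl : Close m x t) (c : ℕ) : ∀ L : List (Fin n), L.length ≤ c → ∃ f ∈ MM m c, ∀ g,
      m L (t g) - m L g = (p : ℤ_[p]) ^ 2 * f g := by
  induction c with
  | zero =>
    intro L hL
    have : L = [] := List.length_eq_zero_iff.mp (Nat.le_zero.mp hL)
    subst this
    exact ⟨0, Submodule.zero_mem _, fun g => by simp [hm.nil]⟩
  | succ c ih =>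
    intro L hL
    by_cases hLn : L = []
    · subst hLn
      exact ⟨0, Submodule.zero_mem _, fun g => by simp [hm.nil]⟩
    have hdrop : ∀ i ∈ Finset.range L.length, (L.drop (i + 1)).length ≤ c := by
      intro i hi
      rw [Finset.mem_range] at hi
      rw [List.length_drop]
      omega
    have htake : ∀ i ∈ Finset.range L.length, L.take (i + 1) ≠ [] := by
      intro i hi e
      rw [Finset.mem_range] at hi
      have := congrArg List.length e
      rw [List.length_take, List.length_nil] at this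
      omega
    -- the difference function is p^3 times an element of MM c
    have hdiff : ∀ j, ∃ s ∈ MM m c, ∀ g, (m L (t g * t (x j)) - m L (t g)) -
        (m L (g * x j) - m L g) = (p : ℤ_[p]) ^ 3 * s g := by
      intro j
      have hterm : ∀ i ∈ Finset.range L.length, ∃ s ∈ MM m c, ∀ g,
          m (L.take (i + 1)) (t (x j)) * m (L.drop (i + 1)) (t g) -
            m (L.take (i + 1)) (x j) * m (L.drop (i + 1)) g = (p : ℤ_[p]) ^ 3 * s g := by
        intro i hi
        obtain ⟨f, hf, hfe⟩ := ih (L.drop (i + 1)) (hdrop i hi)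
        obtain ⟨a, ha⟩ := hm.dvd_one (L.take (i + 1)) (htake i hi) (t (x j))
        obtain ⟨b, hb⟩ := hcl (L.take (i + 1)) j
        refine ⟨a • f + b • m (L.drop (i + 1)), Submodule.add_mem _ (Submodule.smul_mem _ _ hf)
          (Submodule.smul_mem _ _ (mem_MM _ _ (hdrop i hi))), ?_⟩
        intro g
        simp only [Pi.add_apply, Pi.smul_apply, smul_eq_mul]
        have e1 := hfe g
        linear_combination (m (L.take (i + 1)) (t (x j))) * e1 + (p : ℤ_[p]) ^ 2 * f g * ha +
          (m (L.drop (i + 1)) g) * hb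
      choose! s hs hse using hterm
      refine ⟨∑ i ∈ Finset.range L.length, s i, Submodule.sum_mem _ hs, ?_⟩
      intro g
      have e1 : ∀ g g', m L (g * g') - m L g =
          ∑ i ∈ Finset.range L.length, m (L.take (i + 1)) g' * m (L.drop (i + 1)) g := by
        intro g g'
        rw [hm.mul, conv_sub_left, hm.nil]
        ring
      rw [e1, e1, ← Finset.sum_sub_distrib, Finset.sum_congr rfl (fun i hi => hse i hi g),
        ← Finset.mul_sum, Finset.sum_apply]
    choose s hs hse using hdiff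
    choose s' hs' hs'1 hs'e using fun j => MM_int hm c (s j) (hs j) j
    refine ⟨∑ j, s' j, Submodule.sum_mem _ (fun j _ => hs' j), ?_⟩
    intro g
    have hlc : Continuous (fun g => m L (t g) - m L g - (p : ℤ_[p]) ^ 2 * (∑ j, s' j) g) := by
      exact (((hm.cont L).comp ht).sub (hm.cont L)).sub (continuous_const.mul
        (MM_cont hm (c + 1) _ (Submodule.sum_mem _ (fun j _ => hs' j))))
    have hc := h.const _ hlc (by
      intro g j
      have e1 : (∑ i, s' i) (g * x j) - (∑ i, s' i) g = p * s j g := by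
        rw [Finset.sum_apply, Finset.sum_apply, ← Finset.sum_sub_distrib]
        rw [Finset.sum_congr rfl (fun i _ => hs'e i g j)]
        rw [Finset.sum_ite_eq' Finset.univ j (fun i => (p : ℤ_[p]) * s i g)]
        simp
      have e2 := hse j g
      rw [map_mul]
      linear_combination e2 - (p : ℤ_[p]) ^ 2 * e1) g
    have e3 : (∑ j, s' j) (1 : F) = 0 := by
      rw [Finset.sum_apply]
      exact Finset.sum_eq_zero (fun j _ => hs'1 j)
    rw [map_one, hm.one L hLn, e3] at hc
    linear_combination hc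

/-- A self-map `s` that changes elements of the module `M` only by `p^e M`. -/
def Moves (M : Submodule ℤ_[p] (F → ℤ_[p])) (s : MulAut F) (e : ℕ) : Prop :=
  ∀ f ∈ M, ∃ f' ∈ M, ∀ g, f (s g) - f g = (p : ℤ_[p]) ^ e * f' g

theorem Moves.pow {M : Submodule ℤ_[p] (F → ℤ_[p])} {s : MulAut F} {e : ℕ} (hs : Moves M s e)
    (r : ℕ) : Moves M (s ^ r) e := by
  induction r with
  | zero =>
    intro f _
    exact ⟨0, M.zero_mem, fun g => by simp⟩
  | succ r ih =>
    intro f hf
    obtain ⟨f1, hf1, e1⟩ := hs f hf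
    obtain ⟨f2, hf2, e2⟩ := ih f hf
    obtain ⟨f3, hf3, e3⟩ := ih f1 hf1
    refine ⟨f1 + (p : ℤ_[p]) ^ e • f3 + f2, M.add_mem (M.add_mem hf1 (M.smul_mem _ hf3)) hf2, ?_⟩
    intro g
    have h1 := e1 ((s ^ r) g)
    have h2 := e2 g
    have h3 := e3 g
    have h4 : (s ^ (r + 1)) g = s ((s ^ r) g) := by
      rw [pow_succ']
      rfl
    rw [h4]
    simp only [Pi.add_apply, Pi.smul_apply, smul_eq_mul]
    linear_combination h1 + h2 + (p : ℤ_[p]) ^ e * h3

theorem Moves.pow2 {M : Submodule ℤ_[p] (F → ℤ_[p])} {s : MulAut F} {e : ℕ} (hs : Moves M s e)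
    (r : ℕ) : ∀ f ∈ M, ∃ f' ∈ M, ∀ g, f ((s ^ r) g) - f g =
      r * (f (s g) - f g) + (p : ℤ_[p]) ^ (2 * e) * f' g := by
  induction r with
  | zero =>
    intro f _
    exact ⟨0, M.zero_mem, fun g => by simp⟩
  | succ r ih =>
    intro f hf
    obtain ⟨f1, hf1, e1⟩ := hs f hf
    obtain ⟨f2, hf2, e2⟩ := ih f hf
    obtain ⟨f3, hf3, e3⟩ := hs.pow r f1 hf1
    refine ⟨f3 + f2, M.add_mem hf3 hf2, ?_⟩
    intro g
    have h1 := e1 ((s ^ r) g)
    have h1' := e1 g
    have h2 := e2 g
    have h3 := e3 g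
    have h4 : (s ^ (r + 1)) g = s ((s ^ r) g) := by
      rw [pow_succ']
      rfl
    rw [h4]
    have hpow : (p : ℤ_[p]) ^ (2 * e) = (p : ℤ_[p]) ^ e * (p : ℤ_[p]) ^ e := by
      rw [two_mul, pow_add]
    rw [hpow] at h2 ⊢
    simp only [Pi.add_apply]
    push_cast
    linear_combination h1 + h2 + (p : ℤ_[p]) ^ e * h3 - h1'

/-- The iterates `t^(p^j)`. -/
theorem moves_iter {M : Submodule ℤ_[p] (F → ℤ_[p])} {t : MulAut F} (ht : Moves M t 2) (j : ℕ) :
    Moves M (t ^ p ^ j) (j + 2) := by
  induction j with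
  | zero => simpa using ht
  | succ j ih =>
    intro f hf
    obtain ⟨f1, hf1, e1⟩ := ih f hf
    obtain ⟨f2, hf2, e2⟩ := ih.pow2 p f hf
    refine ⟨f1 + (p : ℤ_[p]) ^ (j + 1) • f2, M.add_mem hf1 (M.smul_mem _ hf2), ?_⟩
    intro g
    have h1 := e1 g
    have h2 := e2 g
    have h3 : (t ^ p ^ (j + 1)) = (t ^ p ^ j) ^ p := by
      rw [← pow_mul, pow_succ]
    rw [h3]
    simp only [Pi.add_apply, Pi.smul_apply, smul_eq_mul]
    have hpow1 : (p : ℤ_[p]) ^ (2 * (j + 2)) = (p : ℤ_[p]) ^ (j + 1 + 2) * (p : ℤ_[p]) ^ (j + 1) := by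
      rw [← pow_add]
      congr 1
      ring
    have hpow2 : (p : ℤ_[p]) ^ (j + 1 + 2) = (p : ℤ_[p]) * (p : ℤ_[p]) ^ (j + 2) := by
      rw [← pow_succ']
    rw [hpow1] at h2
    linear_combination h2 + (p : ℤ_[p]) * h1 - (f1 g) * hpow2

theorem moves_val {M : Submodule ℤ_[p] (F → ℤ_[p])} {t : MulAut F} (ht : Moves M t 2) (g : F)
    (k : ℕ) (hk : ∀ f ∈ M, (p : ℤ_[p]) ^ k ∣ f (t g) - f g) (j : ℕ) :
    ∀ f ∈ M, (p : ℤ_[p]) ^ (j + k + 1) ∣
      (f ((t ^ p ^ j) g) - f g) - (p : ℤ_[p]) ^ j * (f (t g) - f g) := by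
  induction j with
  | zero =>
    intro f _
    simp
  | succ j ih =>
    -- values of `f` along the powers of `s = t^(p^j)`
    have hs := moves_iter ht j
    set s := t ^ p ^ j with hsdef
    have hκ : ∀ f ∈ M, (p : ℤ_[p]) ^ (j + k) ∣ f (s g) - f g := by
      intro f hf
      have h1 := (pow_dvd_pow (p : ℤ_[p]) (Nat.le_succ (j + k))).trans (ih f hf)
      have h2 : (p : ℤ_[p]) ^ (j + k) ∣ (p : ℤ_[p]) ^ j * (f (t g) - f g) := by
        rw [pow_add]
        exact mul_dvd_mul_left _ (hk f hf)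
      have h3 := dvd_add h1 h2
      rwa [sub_add_cancel] at h3
    have hr : ∀ r : ℕ, (∀ f ∈ M, (p : ℤ_[p]) ^ (2 * j + k + 2) ∣
        (f ((s ^ r) g) - f g) - r * (f (s g) - f g)) := by
      intro r
      induction r with
      | zero =>
        intro f _
        simp
      | succ r ihr =>
        intro f hf
        obtain ⟨f1, hf1, e1⟩ := hs f hf
        have h1 := ihr f hf
        have h2 := ihr f1 hf1
        -- f1 ((s^r) g) - f1 g is divisible by p^(j+k)
        have h3 : (p : ℤ_[p]) ^ (j + k) ∣ f1 ((s ^ r) g) - f1 g := by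
          have h4 := (pow_dvd_pow (p : ℤ_[p]) (show j + k ≤ 2 * j + k + 2 by omega)).trans h2
          have h5 := dvd_add h4 ((hκ f1 hf1).mul_left (r : ℤ_[p]))
          rwa [sub_add_cancel] at h5
        have h6 : (p : ℤ_[p]) ^ (2 * j + k + 2) ∣ (p : ℤ_[p]) ^ (j + 2) * (f1 ((s ^ r) g) - f1 g) := by
          rw [show 2 * j + k + 2 = (j + 2) + (j + k) by ring, pow_add]
          exact mul_dvd_mul_left _ h3
        have h7 := dvd_add h1 h6
        have h8 : (s ^ (r + 1)) g = s ((s ^ r) g) := by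
          rw [pow_succ']
          rfl
        rw [h8]
        have e2 := e1 ((s ^ r) g)
        have e3 := e1 g
        have e4 : (f ((s ^ r) g) - f g) - r * (f (s g) - f g) +
            (p : ℤ_[p]) ^ (j + 2) * (f1 ((s ^ r) g) - f1 g) =
            (f (s ((s ^ r) g)) - f g) - (r + 1 : ℕ) * (f (s g) - f g) := by
          push_cast
          linear_combination e3 - e2
        rwa [e4] at h7
    intro f hf
    have h1 := hr p f hf
    have h2 := ih f hf
    have h3 : (t ^ p ^ (j + 1)) = s ^ p := by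
      rw [hsdef, ← pow_mul, pow_succ]
    rw [h3]
    have h4 : (p : ℤ_[p]) ^ (j + 1 + k + 1) ∣ (f ((s ^ p) g) - f g) - p * (f (s g) - f g) :=
      (pow_dvd_pow _ (by omega)).trans h1
    have h5 : (p : ℤ_[p]) ^ (j + 1 + k + 1) ∣
        (p : ℤ_[p]) * ((f (s g) - f g) - (p : ℤ_[p]) ^ j * (f (t g) - f g)) := by
      rw [show j + 1 + k + 1 = (j + k + 1) + 1 by ring, pow_succ']
      exact mul_dvd_mul_left _ h2
    have h6 := dvd_add h4 h5
    have e : (f ((s ^ p) g) - f g) - p * (f (s g) - f g) +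
        (p : ℤ_[p]) * ((f (s g) - f g) - (p : ℤ_[p]) ^ j * (f (t g) - f g)) =
        (f ((s ^ p) g) - f g) - (p : ℤ_[p]) ^ (j + 1) * (f (t g) - f g) := by
      rw [pow_succ]
      ring
    rwa [e] at h6

theorem close_moves (h : FreeData p x) (hm : SMagnus p x m) (t : MulAut F) (ht : Continuous t)
    (hcl : Close m x t) (c : ℕ) : Moves (MM m c) t 2 := by
  intro f hf
  induction hf using Submodule.span_induction with
  | mem f hf =>
    obtain ⟨L, hL, rfl⟩ := hf
    exact close_gen h hm t ht hcl c L hL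
  | zero => exact ⟨0, Submodule.zero_mem _, fun g => by simp⟩
  | add a b _ _ ha hb =>
    obtain ⟨a', ha', ha''⟩ := ha
    obtain ⟨b', hb', hb''⟩ := hb
    refine ⟨a' + b', Submodule.add_mem _ ha' hb', fun g => ?_⟩
    simp only [Pi.add_apply]
    linear_combination ha'' g + hb'' g
  | smul c a _ ha =>
    obtain ⟨a', ha', ha''⟩ := ha
    refine ⟨c • a', Submodule.smul_mem _ c ha', fun g => ?_⟩
    simp only [Pi.smul_apply, smul_eq_mul]
    linear_combination c * ha'' g

/-- If all coefficients of `t g` and `g` agree modulo `p^k`, so do all functions in the module. -/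
theorem MM_dvd (c k : ℕ) (g g' : F)
    (hg : ∀ L : List (Fin n), L.length ≤ c → (p : ℤ_[p]) ^ k ∣ m L g' - m L g) :
    ∀ f ∈ MM m c, (p : ℤ_[p]) ^ k ∣ f g' - f g := by
  intro f hf
  induction hf using Submodule.span_induction with
  | mem f hf =>
    obtain ⟨L, hL, rfl⟩ := hf
    exact hg L hL
  | zero => simp
  | add a b _ _ ha hb =>
    have := dvd_add ha hb
    have e : a g' - a g + (b g' - b g) = (a + b) g' - (a + b) g := by
      simp only [Pi.add_apply]
      ring
    rwa [e] at this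
  | smul c a _ ha =>
    have := ha.mul_left c
    have e : c * (a g' - a g) = (c • a) g' - (c • a) g := by
      simp only [Pi.smul_apply, smul_eq_mul]
      ring
    rwa [e] at this

end

end Pool.Agent.H42R2
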