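import Mathlib
import Pool.Agent.H42R2.Basic

/-! A closed subgroup `H` of a pro-`p` group without `m` elements and `m` continuous homomorphisms to
`ℤ/p` that are dual to each other is topologically finitely generated. -/

set_option linter.unusedSectionVars false

namespace Pool.Agent.H42R2

open Topology

namespace FG

theorem exists_hom {p : ℕ} [Fact p.Prime] {P : Type} [Group P] [Finite P] (hP : IsPGroup p P)
    (Q : Subgroup P) (hQ : Q ≠ ⊤) :
    ∃ ψ : P →* Multiplicative (ZMod p), (∀ g ∈ Q, ψ g = 1) ∧ ∃ g, ψ g ≠ 1 := by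
  have hp : p.Prime := Fact.out
  obtain ⟨M, hM, hQM⟩ := (eq_top_or_exists_le_coatom Q).resolve_left hQ
  have : Group.IsNilpotent P := hP.isNilpotent
  have hMn : M.Normal := Subgroup.NormalizerCondition.normal_of_coatom M
    Group.normalizerCondition_of_isNilpotent hM
  have hG : IsPGroup p (P ⧸ M) := hP.to_quotient M
  have hnt : Nontrivial (P ⧸ M) := QuotientGroup.nontrivial_iff.2 hM.1
  have hdvd : p ∣ Nat.card (P ⧸ M) := by
    obtain ⟨k, hk⟩ := IsPGroup.iff_card.1 hG
    rw [hk]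
    refine dvd_pow_self p ?_
    rintro rfl
    rw [pow_zero] at hk
    have := Finite.one_lt_card (α := P ⧸ M)
    omega
  obtain ⟨g, hg⟩ := exists_prime_orderOf_dvd_card' p hdvd
  have hgt : Subgroup.zpowers g = ⊤ := by
    have h1 : M < (Subgroup.zpowers g).comap (QuotientGroup.mk' M) := by
      rw [lt_iff_le_and_ne]
      constructor
      · intro y hy
        rw [Subgroup.mem_comap]
        have : QuotientGroup.mk' M y = 1 := (QuotientGroup.eq_one_iff y).2 hy
        rw [this]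
        exact Subgroup.one_mem _
      · intro h2
        obtain ⟨y, hy⟩ := QuotientGroup.mk'_surjective M g
        have h3 : y ∈ (Subgroup.zpowers g).comap (QuotientGroup.mk' M) := by
          rw [Subgroup.mem_comap, hy]
          exact Subgroup.mem_zpowers g
        rw [← h2] at h3
        have h4 : g = 1 := by
          rw [← hy]
          exact (QuotientGroup.eq_one_iff y).2 h3
        rw [h4, orderOf_one] at hg
        exact hp.one_lt.ne hg
    have h2 := hM.2 _ h1
    rw [eq_top_iff]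
    intro z _
    obtain ⟨y, hy⟩ := QuotientGroup.mk'_surjective M z
    have h3 : y ∈ (Subgroup.zpowers g).comap (QuotientGroup.mk' M) := by
      rw [h2]; trivial
    rw [Subgroup.mem_comap, hy] at h3
    exact h3
  have hcard : Nat.card (P ⧸ M) = p := by
    rw [← hg, ← Nat.card_zpowers, hgt]
    exact Nat.card_congr (Subgroup.topEquiv.toEquiv.symm)
  have hcyc : IsCyclic (P ⧸ M) := ⟨g, fun z => by
    have hz : z ∈ Subgroup.zpowers g := by rw [hgt]; trivial
    exact Subgroup.mem_zpowers_iff.1 hz⟩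
  have key : ∀ q : ℕ, Nat.card (P ⧸ M) = q → Nonempty ((P ⧸ M) ≃* Multiplicative (ZMod q)) := by
    rintro q rfl
    exact ⟨(zmodCyclicMulEquiv hcyc).symm⟩
  obtain ⟨e⟩ := key p hcard
  refine ⟨e.toMonoidHom.comp (QuotientGroup.mk' M), fun y hy => ?_, ?_⟩
  · have : QuotientGroup.mk' M y = 1 := (QuotientGroup.eq_one_iff y).2 (hQM hy)
    rw [MonoidHom.comp_apply, this, map_one]
  · obtain ⟨y, hy⟩ := QuotientGroup.mk'_surjective M g
    refine ⟨y, ?_⟩
    rw [MonoidHom.comp_apply, hy]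
    intro h1
    have h2 : e g = 1 := h1
    rw [MulEquiv.map_eq_one_iff] at h2
    rw [h2, orderOf_one] at hg
    exact hp.one_lt.ne hg

end FG

theorem fg_of_bound {p : ℕ} [Fact p.Prime] {F : Type} [Group F] [TopologicalSpace F]
    [IsTopologicalGroup F] [CompactSpace F] [T2Space F] [TotallyDisconnectedSpace F]
    (hidx : ∀ U : Subgroup F, IsOpen (U : Set F) → U.Normal → ∃ k : ℕ, U.index = p ^ k)
    (H : Subgroup F) (hH : IsClosed (H : Set F)) (m : ℕ)
    (hb : ∀ (h : Fin m → F) (φ : Fin m → F → ZMod p), (∀ i, h i ∈ H) → (∀ i, IsHom p H (φ i)) →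
      (∀ i j, φ i (h j) = if i = j then 1 else 0) → False) :
    ∃ S : Finset F, closure ((Subgroup.closure (S : Set F) : Subgroup F) : Set F) = (H : Set F) := by
  classical
  let P : ℕ → Prop := fun m => ∃ (h : Fin m → F) (φ : Fin m → F → ZMod p), (∀ i, h i ∈ H) ∧
    (∀ i, IsHom p H (φ i)) ∧ ∀ i j, φ i (h j) = if i = j then 1 else 0
  have hnP : ∃ k, ¬ P k := by
    refine ⟨m, ?_⟩
    rintro ⟨h, φ, h1, h2, h3⟩
    exact hb h φ h1 h2 h3
  have hP0 : P 0 := ⟨fun i => i.elim0, fun i => i.elim0, fun i => i.elim0, fun i => i.elim0,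
    fun i => i.elim0⟩
  obtain ⟨k, hk1, hk2⟩ : ∃ k, P k ∧ ¬ P (k + 1) := by
    have h1 := Nat.find_spec hnP
    obtain ⟨k, hk⟩ : ∃ k, Nat.find hnP = k + 1 := by
      cases hf : Nat.find hnP with
      | zero => rw [hf] at h1; exact absurd hP0 h1
      | succ k => exact ⟨k, rfl⟩
    refine ⟨k, ?_, ?_⟩
    · by_contra h2
      exact Nat.find_min hnP (by omega) h2
    · rw [← hk]; exact h1
  obtain ⟨h, φ, h1, h2, h3⟩ := hk1
  let L : Subgroup F := (Subgroup.closure (Set.range h)).topologicalClosure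
  have hLH : L ≤ H := by
    refine Subgroup.topologicalClosure_minimal _ ?_ hH
    rw [Subgroup.closure_le]
    rintro _ ⟨i, rfl⟩
    exact h1 i
  refine ⟨Finset.univ.image h, ?_⟩
  rw [Finset.coe_image, Finset.coe_univ, Set.image_univ]
  change (L : Set F) = H
  by_contra hne
  obtain ⟨x, hxH, hxL⟩ : ∃ x ∈ H, x ∉ L := by
    by_contra hcon
    push Not at hcon
    exact hne (Set.Subset.antisymm hLH hcon)
  -- an open normal subgroup separating `x` from `L`
  obtain ⟨U, hUn, hUo, hU⟩ : ∃ U : Subgroup F, U.Normal ∧ IsOpen (U : Set F) ∧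
      (U : Set F) ⊆ {y | x * y ∉ L} := by
    refine exists_openNormal ?_ ?_
    · have hLc : IsClosed (L : Set F) := Subgroup.isClosed_topologicalClosure _
      exact (hLc.preimage (continuous_const.mul continuous_id)).isOpen_compl
    · simpa using hxL
  have hxU : ∀ l ∈ L, l⁻¹ * x ∉ U := by
    intro l hl hu
    have := hU (U.inv_mem hu)
    apply this
    rw [mul_inv_rev, inv_inv, mul_inv_cancel_left]
    exact hl
  have hfin : Finite (F ⧸ U) := Subgroup.quotient_finite_of_isOpen U hUo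
  have hPG : IsPGroup p (F ⧸ U) := by
    obtain ⟨r, hr⟩ := hidx U hUo hUn
    exact IsPGroup.of_card (n := r) hr
  let π : F →* F ⧸ U := QuotientGroup.mk' U
  let G : Subgroup (F ⧸ U) := H.map π
  let Q : Subgroup G := (L.map π).subgroupOf G
  have hQ : Q ≠ ⊤ := by
    intro hQt
    have h4 : (⟨π x, Subgroup.mem_map_of_mem π hxH⟩ : G) ∈ Q := by rw [hQt]; trivial
    rw [Subgroup.mem_subgroupOf] at h4
    obtain ⟨l, hl, hlx⟩ := h4
    exact hxU l hl ((QuotientGroup.eq (s := U)).1 hlx)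
  obtain ⟨ψ₀, hψ1, g₀, hψ2⟩ := FG.exists_hom (hPG.to_subgroup G) Q hQ
  let ψ : F → ZMod p := fun g => if hg : π g ∈ G then Multiplicative.toAdd (ψ₀ ⟨π g, hg⟩) else 0
  have hψ : ∀ g (hg : π g ∈ G), ψ g = Multiplicative.toAdd (ψ₀ ⟨π g, hg⟩) := fun g hg => dif_pos hg
  have hHG : ∀ g ∈ H, π g ∈ G := fun g hg => Subgroup.mem_map_of_mem π hg
  have hψmul : ∀ a ∈ H, ∀ b ∈ H, ψ (a * b) = ψ a + ψ b := by
    intro a ha b hb'
    rw [hψ _ (hHG _ (H.mul_mem ha hb')), hψ a (hHG a ha), hψ b (hHG b hb'), ← toAdd_mul,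
      ← map_mul]
    congr 2
  have hψL : ∀ l ∈ L, ψ l = 0 := by
    intro l hl
    rw [hψ l (hHG l (hLH hl))]
    have : (⟨π l, hHG l (hLH hl)⟩ : G) ∈ Q := by
      rw [Subgroup.mem_subgroupOf]
      exact Subgroup.mem_map_of_mem π hl
    rw [hψ1 _ this]
    rfl
  have hψU : ∀ u ∈ H, u ∈ U → ψ u = 0 := by
    intro u hu huU
    rw [hψ u (hHG u hu)]
    have h5 : π u = 1 := (QuotientGroup.eq_one_iff u).2 huU
    have : (⟨π u, hHG u hu⟩ : G) = 1 := Subtype.ext h5
    rw [this, map_one]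
    rfl
  obtain ⟨h', hh'H, hh'⟩ : ∃ h' ∈ H, ψ h' ≠ 0 := by
    obtain ⟨y, hy⟩ := g₀
    obtain ⟨h', hh'H, hh'y⟩ := hy
    refine ⟨h', hh'H, ?_⟩
    rw [hψ h' (hHG h' hh'H)]
    intro h6
    apply hψ2
    have h7 : (⟨π h', hHG h' hh'H⟩ : G) = ⟨y, ⟨h', hh'H, hh'y⟩⟩ := Subtype.ext hh'y
    rw [h7] at h6
    exact h6
  -- normalise
  let ψ' : F → ZMod p := fun g => (ψ h')⁻¹ * ψ g
  have hψ'1 : ψ' h' = 1 := inv_mul_cancel₀ hh'
  have hψ'h : ∀ j, ψ' (h j) = 0 := by
    intro j
    have : h j ∈ L := Subgroup.le_topologicalClosure _ (Subgroup.subset_closure ⟨j, rfl⟩)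
    simp only [ψ', hψL _ this, mul_zero]
  have hψ'hom : IsHom p H ψ' := by
    refine ⟨fun a ha b hb' => ?_, U, hUn, hUo, fun u hu huU => ?_⟩
    · simp only [ψ', hψmul a ha b hb', mul_add]
    · simp only [ψ', hψU u hu huU, mul_zero]
  apply hk2
  refine ⟨Fin.snoc (α := fun _ => F) h h',
    Fin.snoc (α := fun _ => F → ZMod p) (fun i g => φ i g - φ i h' * ψ' g) ψ', ?_, ?_, ?_⟩
  · intro i
    refine Fin.lastCases ?_ (fun i => ?_) i
    · rw [Fin.snoc_last]; exact hh'H
    · rw [Fin.snoc_castSucc]; exact h1 i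
  · intro i
    refine Fin.lastCases ?_ (fun i => ?_) i
    · rw [Fin.snoc_last]; exact hψ'hom
    · rw [Fin.snoc_castSucc]
      obtain ⟨V, hVn, hVo, hV⟩ := (h2 i).cont
      refine ⟨fun a ha b hb' => ?_, V ⊓ U, inferInstance, ?_, fun u hu huU => ?_⟩
      · rw [(h2 i).mul a ha b hb', hψ'hom.mul a ha b hb']
        ring
      · rw [Subgroup.coe_inf]
        exact hVo.inter hUo
      · rw [hV u hu huU.1]
        simp only [ψ', hψU u hu huU.2, mul_zero, sub_self]
  · intro i j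
    refine Fin.lastCases ?_ (fun i => ?_) i
    · refine Fin.lastCases ?_ (fun j => ?_) j
      · rw [Fin.snoc_last, Fin.snoc_last, if_pos rfl]; exact hψ'1
      · rw [Fin.snoc_last, Fin.snoc_castSucc, hψ'h, if_neg (Fin.castSucc_lt_last j).ne']
    · refine Fin.lastCases ?_ (fun j => ?_) j
      · rw [Fin.snoc_last, Fin.snoc_castSucc, if_neg (Fin.castSucc_lt_last i).ne, hψ'1]
        ring
      · rw [Fin.snoc_castSucc, Fin.snoc_castSucc, hψ'h, mul_zero, sub_zero, h3]
        simp [Fin.castSucc_inj]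

end Pool.Agent.H42R2
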