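import Mathlib
import Pool.Agent.Results.MP_de7343_al.Dense
import Pool.Agent.H42R2.Basic

/-! The frozen hypotheses give `FreeData`. -/

set_option linter.unusedSectionVars false

namespace Pool.Agent.H42R2

open Topology Pool.Agent.Results.MP_de7343_al.Dense

section

variable {p : ℕ} {n : ℕ} {F : Type} [Group F] [TopologicalSpace F] [IsTopologicalGroup F]
  [CompactSpace F] [T2Space F] [TotallyDisconnectedSpace F] {x : Fin n → F}

/-- `F` acting on itself by right multiplication with inverses. -/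
def rightAct (F : Type) [Group F] [TopologicalSpace F] [IsTopologicalGroup F] : SpaceAct F F where
  f g y := y * g⁻¹
  one := by simp
  mul := by
    intro g h s
    simp [mul_assoc]
  cont := by fun_prop

theorem trivial_discTors {A : Type} [AddCommGroup A] [Finite A] (hA : ∃ k : ℕ, Nat.card A = p ^ k) :
    IsDiscTors p (1 : F →* AddMonoid.End A) := by
  constructor
  · intro a
    have : {g : F | (1 : F →* AddMonoid.End A) g a = a} = Set.univ := by
      ext g
      simp
    rw [this]
    exact isOpen_univ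
  · intro a
    obtain ⟨k, hk⟩ := hA
    refine ⟨k, ?_⟩
    rw [← hk]
    exact card_nsmul_eq_zero'

theorem freeData_of_isFreeProP (hp : p.Prime) (h : IsFreeProP p x) : FreeData p x where
  index := h.1
  dense := fun K hK hx => h.top_of_closed hp K hK hx
  basis := by
    intro A _ _ hA b
    have hσ : IsDiscTors p (coind (rightAct F) (1 : F →* AddMonoid.End A)) :=
      coind_discTors p _ _ (trivial_discTors hA)
    obtain ⟨δ, hδ, hδx⟩ := h.der_exists hp (coind (rightAct F) (1 : F →* AddMonoid.End A)) hσ b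
      (Set.toFinite _)
    refine ⟨⟨fun g => δ g 1, hδ.1.comp (fun f : LocallyConstant F A => f 1)⟩, ?_, ?_⟩
    · change δ 1 1 = 0
      rw [hδ.one]
      rfl
    · intro g j
      change δ (g * x j) 1 = δ g 1 + b j g
      rw [hδ.2, hδx]
      change δ g 1 + (b j) (1 * (g⁻¹)⁻¹) = δ g 1 + b j g
      rw [one_mul, inv_inv]

theorem freeData_of (hp : p.Prime)
    (h1 : ∀ N : Subgroup F, N.Normal → IsOpen (N : Set F) → ∃ k : ℕ, N.index = p ^ k)
    (h2 : ∀ (P : Type) [Group P] [Fintype P], (∃ k : ℕ, Fintype.card P = p ^ k) →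
        ∀ f : Fin n → P, ∃! g : F →* P,
          (∀ y : P, IsOpen ((g : F → P) ⁻¹' {y})) ∧ ∀ i, g (x i) = f i) : FreeData p x := by
  apply freeData_of_isFreeProP hp
  refine ⟨fun U hU hn => h1 U hn hU, fun U _ _ => Set.toFinite _, ?_⟩
  intro P _ _ hP f _
  have := Fintype.ofFinite P
  obtain ⟨g, ⟨hg, hgx⟩, hu⟩ := h2 P (by
    obtain ⟨k, hk⟩ := hP
    exact ⟨k, by rw [← Nat.card_eq_fintype_card, hk]⟩) f
  refine ⟨g, ⟨?_, hgx⟩, ?_⟩
  · have : (g.ker : Set F) = (g : F → P) ⁻¹' {1} := by
      ext y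
      simp [MonoidHom.mem_ker]
    rw [this]
    exact hg 1
  · rintro g' ⟨hg', hgx'⟩
    apply hu
    refine ⟨?_, hgx'⟩
    intro y
    exact (hom_lc g' hg').isOpen_fiber y

end

end Pool.Agent.H42R2
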