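import Mathlib
import Pool.Agent.H42R2.Auto

/-! The rank bound for the fixed subgroup of an automorphism close to the identity. -/

set_option linter.unusedSectionVars false

namespace Pool.Agent.H42R2

open Topology

section Lam

variable {p : ℕ} [hp : Fact p.Prime]

/-- `lam k a = (a / p^k) mod p`. -/
noncomputable def lam (k : ℕ) (a : ℤ_[p]) : ZMod p :=
  open Classical in if h : (p : ℤ_[p]) ^ k ∣ a then PadicInt.toZMod h.choose else 0

theorem lam_mul (k : ℕ) (b : ℤ_[p]) : lam k ((p : ℤ_[p]) ^ k * b) = PadicInt.toZMod b := by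
  have h : (p : ℤ_[p]) ^ k ∣ (p : ℤ_[p]) ^ k * b := dvd_mul_right _ _
  have e : lam k ((p : ℤ_[p]) ^ k * b) = PadicInt.toZMod h.choose := dif_pos h
  rw [e]
  have hp0 : (p : ℤ_[p]) ^ k ≠ 0 := pow_ne_zero _ (by exact_mod_cast hp.out.ne_zero)
  have := mul_left_cancel₀ hp0 h.choose_spec
  rw [← this]

theorem toZMod_eq_zero_iff (a : ℤ_[p]) : PadicInt.toZMod a = 0 ↔ (p : ℤ_[p]) ∣ a := by
  rw [← RingHom.mem_ker, PadicInt.ker_toZMod, PadicInt.maximalIdeal_eq_span_p,
    Ideal.mem_span_singleton]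

theorem lam_add (k : ℕ) (a b : ℤ_[p]) (ha : (p : ℤ_[p]) ^ k ∣ a) (hb : (p : ℤ_[p]) ^ k ∣ b) :
    lam k (a + b) = lam k a + lam k b := by
  obtain ⟨a', rfl⟩ := ha
  obtain ⟨b', rfl⟩ := hb
  rw [← mul_add, lam_mul, lam_mul, lam_mul, map_add]

theorem lam_eq_zero_iff (k : ℕ) (a : ℤ_[p]) (ha : (p : ℤ_[p]) ^ k ∣ a) :
    lam k a = 0 ↔ (p : ℤ_[p]) ^ (k + 1) ∣ a := by
  obtain ⟨a', rfl⟩ := ha
  have hp0 : (p : ℤ_[p]) ^ k ≠ 0 := pow_ne_zero _ (by exact_mod_cast hp.out.ne_zero)
  rw [lam_mul, toZMod_eq_zero_iff, pow_succ, mul_dvd_mul_iff_left hp0]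

theorem lam_congr (k : ℕ) (a b : ℤ_[p]) (ha : (p : ℤ_[p]) ^ k ∣ a)
    (hab : (p : ℤ_[p]) ^ (k + 1) ∣ b - a) : lam k b = lam k a := by
  have h1 : (p : ℤ_[p]) ^ k ∣ b - a := (pow_dvd_pow _ (Nat.le_succ k)).trans hab
  have h2 := lam_add k a (b - a) ha h1
  rw [(lam_eq_zero_iff k (b - a) h1).mpr hab, add_zero] at h2
  rw [← h2]
  congr 1
  ring

theorem lam_shift (j k : ℕ) (a : ℤ_[p]) (ha : (p : ℤ_[p]) ^ k ∣ a) :
    lam (j + k) ((p : ℤ_[p]) ^ j * a) = lam k a := by
  obtain ⟨a', rfl⟩ := ha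
  rw [← mul_assoc, ← pow_add, lam_mul, lam_mul]

end Lam

section

variable {p : ℕ} [hp : Fact p.Prime] {n : ℕ} {F : Type} [Group F] [TopologicalSpace F]
  [IsTopologicalGroup F] [CompactSpace F] [T2Space F] [TotallyDisconnectedSpace F] {x : Fin n → F}
  {m : List (Fin n) → F → ℤ_[p]}

/-- Comparison of `m L (g')` and `m L (g' g⁻¹)`. -/
theorem diff_mem (hm : SMagnus p x m) (c κ : ℕ) (g g' : F)
    (h : ∀ L : List (Fin n), L.length ≤ c → (p : ℤ_[p]) ^ κ ∣ m L g' - m L g) :
    g' * g⁻¹ ∈ VV hm c κ := by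
  have key : ∀ k : ℕ, ∀ L : List (Fin n), L.length = k → L ≠ [] → L.length ≤ c →
      (p : ℤ_[p]) ^ κ ∣ m L (g' * g⁻¹) := by
    intro k
    induction k using Nat.strong_induction_on with
    | _ k ih =>
      intro L hk hL hLc
      have h1 := hm.mul_congr L hL (g' * g⁻¹) g 0 κ (fun A _ _ => by simp)
        (fun B hB hB' => ih B.length (by omega) B rfl hB (by omega))
      rw [zero_add, inv_mul_cancel_right] at h1
      have h2 := dvd_sub (h L hLc) h1
      have e : m L g' - m L g - (m L g' - (m L (g' * g⁻¹) + m L g)) = m L (g' * g⁻¹) := by ring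
      rwa [e] at h2
  intro L hL hLc
  exact key _ L rfl hL hLc

theorem mem_diff (hm : SMagnus p x m) (c κ : ℕ) (g g' : F) (h : g' * g⁻¹ ∈ VV hm c κ) :
    (∀ L : List (Fin n), L ≠ [] → L.length ≤ c →
      (p : ℤ_[p]) ^ (κ + 1) ∣ (m L g' - m L g) - m L (g' * g⁻¹)) ∧
    ∀ L : List (Fin n), L.length ≤ c → (p : ℤ_[p]) ^ κ ∣ m L g' - m L g := by
  have h1 : ∀ L : List (Fin n), L ≠ [] → L.length ≤ c →
      (p : ℤ_[p]) ^ (κ + 1) ∣ (m L g' - m L g) - m L (g' * g⁻¹) := by
    intro L hL hLc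
    have h1 := hm.mul_congr L hL (g' * g⁻¹) g 1 κ
      (fun A hA _ => by rw [pow_one]; exact hm.dvd_one A hA g)
      (fun B hB hB' => h B hB (by omega))
    rw [inv_mul_cancel_right, add_comm 1 κ] at h1
    have e : m L g' - (m L (g' * g⁻¹) + m L g) = (m L g' - m L g) - m L (g' * g⁻¹) := by ring
    rwa [e] at h1
  refine ⟨h1, ?_⟩
  intro L hLc
  by_cases hL : L = []
  · subst hL
    rw [hm.nil, hm.nil, sub_self]
    exact dvd_zero _
  · have h2 := dvd_add ((pow_dvd_pow (p : ℤ_[p]) (Nat.le_succ κ)).trans (h1 L hL hLc))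
      (h L hL hLc)
    rwa [sub_add_cancel] at h2

/-- The subgroups `W^{(k)}`. -/
def WW (hm : SMagnus p x m) (c k : ℕ) (t : MulAut F) : Subgroup F where
  carrier := {g | t g * g⁻¹ ∈ VV hm c k}
  mul_mem' := by
    intro a b ha hb
    change t (a * b) * (a * b)⁻¹ ∈ VV hm c k
    have e : t (a * b) * (a * b)⁻¹ = (t a * a⁻¹) * (a * (t b * b⁻¹) * a⁻¹) := by
      rw [map_mul]
      group
    rw [e]
    exact (VV hm c k).mul_mem ha ((VV_normal hm c k).conj_mem _ hb a)
  one_mem' := by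
    change t 1 * 1⁻¹ ∈ VV hm c k
    rw [map_one, inv_one, mul_one]
    exact (VV hm c k).one_mem
  inv_mem' := by
    intro a ha
    change t a⁻¹ * (a⁻¹)⁻¹ ∈ VV hm c k
    have e : t a⁻¹ * (a⁻¹)⁻¹ = a⁻¹ * (t a * a⁻¹)⁻¹ * (a⁻¹)⁻¹ := by
      rw [map_inv]
      group
    rw [e]
    exact (VV_normal hm c k).conj_mem _ ((VV hm c k).inv_mem ha) a⁻¹

theorem mem_WW (hm : SMagnus p x m) (c k : ℕ) (t : MulAut F) (g : F) :
    g ∈ WW hm c k t ↔ t g * g⁻¹ ∈ VV hm c k := Iff.rfl

theorem key_congr (hm : SMagnus p x m) (c k : ℕ) (t : MulAut F) (hmv : Moves (MM m c) t 2)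
    (g : F) (hg : g ∈ WW hm c k t) (j : ℕ) :
    (t ^ p ^ j) g * g⁻¹ ∈ VV hm c (j + k) ∧ ∀ L : List (Fin n), L ≠ [] → L.length ≤ c →
      lam (j + k) (m L ((t ^ p ^ j) g * g⁻¹)) = lam k (m L (t g * g⁻¹)) := by
  obtain ⟨h1, h2⟩ := mem_diff hm c k g (t g) hg
  have h3 := moves_val hmv g k (MM_dvd c k g (t g) h2) j
  have h4 : ∀ L : List (Fin n), L.length ≤ c →
      (p : ℤ_[p]) ^ (j + k) ∣ m L ((t ^ p ^ j) g) - m L g := by
    intro L hL
    have h5 := (pow_dvd_pow (p : ℤ_[p]) (Nat.le_succ (j + k))).trans (h3 _ (mem_MM c L hL))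
    have h6 : (p : ℤ_[p]) ^ (j + k) ∣ (p : ℤ_[p]) ^ j * (m L (t g) - m L g) := by
      rw [pow_add]
      exact mul_dvd_mul_left _ (h2 L hL)
    have h7 := dvd_add h5 h6
    rwa [sub_add_cancel] at h7
  have h5 := diff_mem hm c (j + k) g _ h4
  refine ⟨h5, ?_⟩
  intro L hL hLc
  obtain ⟨h6, -⟩ := mem_diff hm c (j + k) g _ h5
  have h7 := h6 L hL hLc
  have h8 := h3 _ (mem_MM c L hLc)
  have h9 : (p : ℤ_[p]) ^ (j + k + 1) ∣
      (p : ℤ_[p]) ^ j * ((m L (t g) - m L g) - m L (t g * g⁻¹)) := by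
    rw [add_assoc, pow_add]
    exact mul_dvd_mul_left _ (h1 L hL hLc)
  rw [← lam_shift j k _ (hg L hL hLc)]
  apply lam_congr
  · rw [pow_add]
    exact mul_dvd_mul_left _ (hg L hL hLc)
  · have h10 := dvd_sub (dvd_add h8 h9) h7
    have e : m L ((t ^ p ^ j) g) - m L g - (p : ℤ_[p]) ^ j * (m L (t g) - m L g) +
        (p : ℤ_[p]) ^ j * (m L (t g) - m L g - m L (t g * g⁻¹)) -
        (m L ((t ^ p ^ j) g) - m L g - m L ((t ^ p ^ j) g * g⁻¹)) =
        m L ((t ^ p ^ j) g * g⁻¹) - (p : ℤ_[p]) ^ j * m L (t g * g⁻¹) := by ring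
    rwa [e] at h10

theorem VV_hom (hm : SMagnus p x m) (c k : ℕ) (hk : 1 ≤ k) (L : List (Fin n)) (hL : L ≠ [])
    (hLc : L.length ≤ c) : IsHom p (VV hm c k) (fun v => lam k (m L v)) := by
  constructor
  · intro v hv w hw
    rw [← lam_add k _ _ (hv L hL hLc) (hw L hL hLc)]
    apply lam_congr
    · exact dvd_add (hv L hL hLc) (hw L hL hLc)
    · have := hm.mul_congr L hL v w k k (fun A hA hA' => hw A hA (by omega))
        (fun B hB hB' => hv B hB (by omega))
      exact (pow_dvd_pow _ (by omega)).trans this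
  · refine ⟨VV hm c (k + 1), VV_normal hm c (k + 1), VV_open hm c (k + 1), ?_⟩
    intro v hv hv'
    exact (lam_eq_zero_iff k _ (hv L hL hLc)).mpr (hv' L hL hLc)

/-- `ψ_L` is a homomorphism on `W^{(k)}`. -/
theorem psi_hom (hm : SMagnus p x m) (c k : ℕ) (hk : 1 ≤ k) (t : MulAut F) (L : List (Fin n))
    (hL : L ≠ []) (hLc : L.length ≤ c) : ∀ a ∈ WW hm c k t, ∀ b ∈ WW hm c k t,
      lam k (m L (t (a * b) * (a * b)⁻¹)) = lam k (m L (t a * a⁻¹)) + lam k (m L (t b * b⁻¹)) := by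
  intro a ha b hb
  have e : t (a * b) * (a * b)⁻¹ = (t a * a⁻¹) * (a * (t b * b⁻¹) * a⁻¹) := by
    rw [map_mul]
    group
  have hb' : a * (t b * b⁻¹) * a⁻¹ ∈ VV hm c k := (VV_normal hm c k).conj_mem _ hb a
  rw [e, (VV_hom hm c k hk L hL hLc).mul _ ha _ hb']
  congr 1
  exact lam_congr _ _ _ (hb L hL hLc) (conj_congr hm c k a _ hb L hL hLc)

theorem NN_stable (hm : SMagnus p x m) (c : ℕ) (t : MulAut F) (hmv : Moves (MM m c) t 2) :
    ∀ v ∈ NN hm c, t v ∈ NN hm c := by
  intro v hv L hL hLc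
  obtain ⟨f', hf', he⟩ := hmv _ (mem_MM c L hLc)
  have h1 := he v
  have h2 := he 1
  rw [map_one, sub_self] at h2
  have hp0 : (p : ℤ_[p]) ^ 2 ≠ 0 := pow_ne_zero _ (by exact_mod_cast hp.out.ne_zero)
  have h3 : f' 1 = 0 := (mul_eq_zero.mp h2.symm).resolve_left hp0
  have h4 : f' v = 0 := by
    apply eq_zero_of_dvd
    intro e
    have := MM_dvd (m := m) c e 1 v (by
      intro L' hL'
      by_cases hL'n : L' = []
      · subst hL'n
        rw [hm.nil, hm.nil, sub_self]
        exact dvd_zero _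
      · rw [hv L' hL'n hL', hm.one L' hL'n, sub_self]
        exact dvd_zero _) f' hf'
    rwa [h3, sub_zero] at this
  rw [h4, mul_zero, hv L hL hLc, sub_zero] at h1
  exact h1

theorem exists_VV_le (hm : SMagnus p x m) (c : ℕ) (K : Subgroup F) (hK : IsOpen (K : Set F))
    (hNK : NN hm c ≤ K) : ∃ l, VV hm c l ≤ K := by
  obtain ⟨l, hl⟩ := exists_subset_nhds_of_compactSpace
    (V := fun l : ℕ => (VV hm c l : Set F)) (U := (K : Set F)) (by
      apply Antitone.directed_ge
      intro i j hij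
      exact VV_mono hm le_rfl hij) (fun l => VV_closed hm c l) (by
      intro v hv
      rw [Set.mem_iInter] at hv
      apply hK.mem_nhds
      exact hNK (mem_NN_of_forall hm c v hv))
  exact ⟨l, hl⟩

theorem psi_stab (h : FreeData p x) (hm : SMagnus p x m) (c k : ℕ) (hk : 1 ≤ k) (t : MulAut F)
    (ht : Continuous t) (hmv : Moves (MM m c) t 2) {r : ℕ} (y : Fin r → F)
    (hy : ∀ i, t (y i) = y i) (L : List (Fin n)) (hL : L ≠ []) (hLc : L.length ≤ c) :
    Stab p (NN hm c) (WW hm c k t) y (fun g => lam k (m L (t g * g⁻¹))) := by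
  apply stab_of h t ht (NN_stable hm c t hmv) hy
  intro K hK hNK
  obtain ⟨l, hl⟩ := exists_VV_le hm c K hK hNK
  refine ⟨VV hm c (l + k), fun v => lam (l + k) (m L v), p ^ l, VV_open hm c _, NN_le_VV hm c _,
    (VV_mono hm le_rfl (Nat.le_add_right l k)).trans hl, VV_hom hm c (l + k) (by omega) L hL hLc,
    ?_, ?_⟩
  · intro v hv
    dsimp only
    rw [hv L hL hLc]
    exact (lam_eq_zero_iff _ _ (dvd_zero _)).mpr (dvd_zero _)
  · intro g hg
    obtain ⟨h1, h2⟩ := key_congr hm c k t hmv g hg l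
    exact ⟨h1, h2 L hL hLc⟩

theorem full_down (h : FreeData p x) (hm : SMagnus p x m) (c k : ℕ) (hk : 1 ≤ k) (t : MulAut F)
    (ht : Continuous t) (hmv : Moves (MM m c) t 2) {r : ℕ} (y : Fin r → F)
    (hy : ∀ i, t (y i) = y i) (hfull : Full p (NN hm c) (WW hm c (k + 1) t) y) :
    Full p (NN hm c) (WW hm c k t) y := by
  classical
  have hone : ∀ L : List (Fin n), L ≠ [] → L.length ≤ c → lam k (m L (t 1 * 1⁻¹)) = 0 := by
    intro L hL hLc
    rw [map_one, inv_one, mul_one, hm.one L hL]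
    exact (lam_eq_zero_iff _ _ (dvd_zero _)).mpr (dvd_zero _)
  let Ws : Finset (List (Fin n)) → Subgroup F := fun S =>
    { carrier := {g | g ∈ WW hm c k t ∧ ∀ L ∈ S, L ≠ [] → L.length ≤ c →
        lam k (m L (t g * g⁻¹)) = 0}
      mul_mem' := by
        rintro a b ⟨ha, ha'⟩ ⟨hb, hb'⟩
        refine ⟨(WW hm c k t).mul_mem ha hb, fun L hLS hL hLc => ?_⟩
        rw [psi_hom hm c k hk t L hL hLc a ha b hb, ha' L hLS hL hLc, hb' L hLS hL hLc, add_zero]
      one_mem' := ⟨(WW hm c k t).one_mem, fun L _ hL hLc => hone L hL hLc⟩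
      inv_mem' := by
        rintro a ⟨ha, ha'⟩
        refine ⟨(WW hm c k t).inv_mem ha, fun L hLS hL hLc => ?_⟩
        have := psi_hom hm c k hk t L hL hLc a ha a⁻¹ ((WW hm c k t).inv_mem ha)
        rw [mul_inv_cancel, hone L hL hLc, ha' L hLS hL hLc, zero_add] at this
        exact this.symm }
  have hstep : ∀ S : Finset (List (Fin n)), Full p (NN hm c) (Ws S) y →
      Full p (NN hm c) (WW hm c k t) y := by
    intro S
    induction S using Finset.induction_on with
    | empty =>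
      intro hf
      have e : Ws ∅ = WW hm c k t := by
        ext g
        constructor
        · rintro ⟨h1, _⟩
          exact h1
        · intro h1
          exact ⟨h1, fun L hL => absurd hL (Finset.notMem_empty L)⟩
      rwa [e] at hf
    | insert L S hLS ih =>
      intro hf
      by_cases hLL : L ≠ [] ∧ L.length ≤ c
      · apply ih
        have hle : Ws S ≤ WW hm c k t := fun g hg => hg.1
        apply full_step (ψ := fun g => lam k (m L (t g * g⁻¹))) _ _
          ((psi_stab h hm c k hk t ht hmv y hy L hLL.1 hLL.2).mono hle) hf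
        · intro a ha b hb
          exact psi_hom hm c k hk t L hLL.1 hLL.2 a ha.1 b hb.1
        · intro g
          constructor
          · rintro ⟨h1, h2⟩
            exact ⟨⟨h1, fun L' hL' => h2 L' (Finset.mem_insert_of_mem hL')⟩,
              h2 L (Finset.mem_insert_self L S) hLL.1 hLL.2⟩
          · rintro ⟨⟨h1, h2⟩, h3⟩
            refine ⟨h1, fun L' hL' hL'n hL'c => ?_⟩
            rcases Finset.mem_insert.mp hL' with rfl | hL'
            · exact h3
            · exact h2 L' hL' hL'n hL'c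
      · apply ih
        have e : Ws (insert L S) = Ws S := by
          ext g
          constructor
          · rintro ⟨h1, h2⟩
            exact ⟨h1, fun L' hL' => h2 L' (Finset.mem_insert_of_mem hL')⟩
          · rintro ⟨h1, h2⟩
            refine ⟨h1, fun L' hL' hL'n hL'c => ?_⟩
            rcases Finset.mem_insert.mp hL' with rfl | hL'
            · exact absurd ⟨hL'n, hL'c⟩ hLL
            · exact h2 L' hL' hL'n hL'c
        rwa [e] at hf
  apply hstep (finite_words (n := n) c).toFinset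
  have e : Ws (finite_words (n := n) c).toFinset = WW hm c (k + 1) t := by
    ext g
    constructor
    · rintro ⟨h1, h2⟩ L hL hLc
      exact (lam_eq_zero_iff k _ (h1 L hL hLc)).mp (h2 L (by
        rw [Set.Finite.mem_toFinset]
        exact hLc) hL hLc)
    · intro hg
      refine ⟨VV_mono hm le_rfl (Nat.le_succ k) hg, fun L _ hL hLc => ?_⟩
      have h1 := hg L hL hLc
      exact (lam_eq_zero_iff k _ ((pow_dvd_pow _ (Nat.le_succ k)).trans h1)).mpr h1
  rwa [e]

theorem full_top (h : FreeData p x) (hm : SMagnus p x m) (c k : ℕ) (t : MulAut F)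
    (ht : Continuous t) (hmv : Moves (MM m c) t 2) {r : ℕ} (y : Fin r → F)
    (hy : ∀ i, t (y i) = y i) (hfull : Full p (NN hm c) (WW hm c (k + 1) t) y) :
    Full p (NN hm c) ⊤ y := by
  induction k with
  | zero =>
    have e : WW hm c 1 t = ⊤ := by
      rw [eq_top_iff]
      intro g _
      rw [mem_WW, VV_one]
      trivial
    rwa [zero_add, e] at hfull
  | succ k ih => exact ih (full_down h hm c (k + 1) (by omega) t ht hmv y hy hfull)

/-- The rank bound for automorphisms close to the identity. -/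
theorem partA (h : FreeData p x) : ∃ V : Set F, IsOpen V ∧ (1 : F) ∈ V ∧ ∀ t : MulAut F,
    Continuous t → (∀ j, t (x j) * (x j)⁻¹ ∈ V) → ∀ (y : Fin (n + 1) → F)
      (φ : Fin (n + 1) → F → ZMod p), (∀ i, y i ∈ fixSub t) → (∀ i, IsHom p (fixSub t) (φ i)) →
        (∀ i j, φ i (y j) = if i = j then 1 else 0) → False := by
  obtain ⟨m, hm⟩ := exists_smagnus h
  refine ⟨VV hm 2 3, VV_open hm 2 3, (VV hm 2 3).one_mem, ?_⟩
  intro t ht htV y φ hy hφ hd
  -- closeness
  have hcl : Close m x t := by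
    intro L j
    by_cases hLc : L.length ≤ 2
    · exact (mem_diff hm 2 3 (x j) (t (x j)) (htV j)).2 L hLc
    · have h3 : 3 ≤ L.length := by omega
      exact dvd_sub ((pow_dvd_pow _ h3).trans (hm.dvd L _)) ((pow_dvd_pow _ h3).trans (hm.dvd L _))
  -- extend the homomorphisms
  choose W κ hWo hHW hκ hκφ using fun i => exists_kappa (fixSub t) (φ i) (hφ i)
  have hO : IsOpen (⋂ i, (W i : Set F)) := isOpen_iInter_of_finite hWo
  obtain ⟨c, hc⟩ := exists_subset_nhds_of_compactSpace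
    (V := fun c : ℕ => (WW hm (c + 1) (c + 1) t : Set F)) (U := ⋂ i, (W i : Set F)) (by
      apply Antitone.directed_ge
      intro i j hij g hg
      exact VV_mono hm (by omega) (by omega) hg) (by
      intro c
      have hcont : Continuous (fun g => t g * g⁻¹) := ht.mul continuous_inv
      exact (VV_closed hm (c + 1) (c + 1)).preimage hcont) (by
      intro g hg
      rw [Set.mem_iInter] at hg
      apply hO.mem_nhds
      have hg1 : t g * g⁻¹ = 1 := by
        apply hm.faithful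
        intro L hL
        apply eq_zero_of_dvd
        intro e
        exact (VV_mono hm (le_max_left L.length e |>.trans (Nat.le_succ _))
          (le_max_right L.length e |>.trans (Nat.le_succ _)) (hg (max L.length e))) L hL le_rfl
      have hgf : g ∈ fixSub t := by
        rw [mem_fixSub]
        exact mul_inv_eq_one.mp hg1
      rw [Set.mem_iInter]
      intro i
      exact hHW i hgf)
  have hmv := close_moves h hm t ht hcl (c + 1)
  have hyf : ∀ i, t (y i) = y i := fun i => hy i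
  have hcont : Continuous (fun g => t g * g⁻¹) := ht.mul continuous_inv
  have hWWo : IsOpen (WW hm (c + 1) (c + 1) t : Set F) := (VV_open hm (c + 1) (c + 1)).preimage hcont
  have hNW : NN hm (c + 1) ≤ WW hm (c + 1) (c + 1) t := by
    intro v hv
    exact (VV hm (c + 1) (c + 1)).mul_mem (NN_le_VV hm _ _ (NN_stable hm _ t hmv v hv))
      ((VV hm (c + 1) (c + 1)).inv_mem (NN_le_VV hm _ _ hv))
  have hWi : ∀ i, WW hm (c + 1) (c + 1) t ≤ W i := by
    intro i g hg
    have := hc hg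
    rw [Set.mem_iInter] at this
    exact this i
  have hbase : Full p (NN hm (c + 1)) (WW hm (c + 1) (c + 1) t) y := by
    apply full_base h _ _ hWWo hNW y _ κ (fun i => (hκ i).mono (hWi i))
    · intro i j
      rw [hκφ i (y j) (hy j), hd]
    · intro i
      change t (y i) * (y i)⁻¹ ∈ VV hm (c + 1) (c + 1)
      rw [hyf i, mul_inv_cancel]
      exact (VV hm (c + 1) (c + 1)).one_mem
  have htop := full_top h hm (c + 1) c t ht hmv y hyf hbase
  exact full_top_false h (NN hm (c + 1)) (artin_NN h hm (c + 1)) y htop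

end

end Pool.Agent.H42R2
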