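import Mathlib
import Pool.Agent.H42R2.Basic

/-! Iterated differences of locally constant functions on powers of a free pro-`p` group. -/

set_option linter.unusedSectionVars false

namespace Pool.Agent.H42R2.Sm

open Topology Function

variable {I : Type} [Fintype I] [DecidableEq I] {p n : ℕ} {F : Type} [Group F]

/-- Multiply the coordinates in `A` by the basis elements `x (j i)`. -/
def act (x : Fin n → F) (A : Finset I) (j : I → Fin n) (g : I → F) : I → F :=
  fun i => if i ∈ A then g i * x (j i) else g i

/-- Iterated difference in the coordinates in `S`. -/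
def D (x : Fin n → F) (S : Finset I) (j : I → Fin n) (Φ : (I → F) → ZMod p) (g : I → F) :
    ZMod p :=
  ∑ A ∈ S.powerset, (-1) ^ (S \ A).card * Φ (act x A j g)

theorem act_insert (x : Fin n → F) {A : Finset I} {i : I} (hi : i ∉ A) (j : I → Fin n)
    (g : I → F) : act x (insert i A) j g = act x A j (update g i (g i * x (j i))) := by
  funext l
  unfold act
  by_cases hl : l = i
  · subst hl
    simp [hi]
  · simp [hl]

theorem act_update (x : Fin n → F) {A : Finset I} {i : I} (hi : i ∉ A) (j : I → Fin n)
    (g : I → F) (y : F) : act x A j (update g i y) = update (act x A j g) i y := by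
  funext l
  unfold act
  by_cases hl : l = i
  · subst hl
    simp [hi]
  · simp [hl]

theorem D_insert (x : Fin n → F) {S : Finset I} {i : I} (hi : i ∉ S) (j : I → Fin n)
    (Φ : (I → F) → ZMod p) (g : I → F) :
    D x (insert i S) j Φ g = D x S j Φ (update g i (g i * x (j i))) - D x S j Φ g := by
  unfold D
  rw [Finset.sum_powerset_insert hi, sub_eq_add_neg, add_comm, ← Finset.sum_neg_distrib]
  congr 1
  · refine Finset.sum_congr rfl fun A hA => ?_
    rw [Finset.mem_powerset] at hA
    have hiA : i ∉ A := fun h => hi (hA h)
    rw [act_insert x hiA]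
    congr 3
    ext l
    simp only [Finset.mem_sdiff, Finset.mem_insert]
    constructor
    · rintro ⟨h1 | h1, h2⟩
      · exact absurd (Or.inl h1) h2
      · exact ⟨h1, fun h => h2 (Or.inr h)⟩
    · rintro ⟨h1, h2⟩
      refine ⟨Or.inr h1, ?_⟩
      rintro (h | h)
      · subst h; exact hi h1
      · exact h2 h
  · refine Finset.sum_congr rfl fun A hA => ?_
    rw [Finset.mem_powerset] at hA
    have hiA : i ∉ A := fun h => hi (hA h)
    have : (insert i S \ A) = insert i (S \ A) := by
      ext l
      simp only [Finset.mem_sdiff, Finset.mem_insert]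
      constructor
      · rintro ⟨h1 | h1, h2⟩
        · exact Or.inl h1
        · exact Or.inr ⟨h1, h2⟩
      · rintro (h | h)
        · subst h; exact ⟨Or.inl rfl, hiA⟩
        · exact ⟨Or.inr h.1, h.2⟩
    rw [this, Finset.card_insert_of_notMem (fun h => hi (Finset.mem_sdiff.1 h).1), pow_succ]
    ring

theorem D_congr_j (x : Fin n → F) {S : Finset I} {j j' : I → Fin n} (h : ∀ i ∈ S, j i = j' i)
    (Φ : (I → F) → ZMod p) (g : I → F) : D x S j Φ g = D x S j' Φ g := by
  unfold D
  refine Finset.sum_congr rfl fun A hA => ?_
  rw [Finset.mem_powerset] at hA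
  congr 2
  funext l
  unfold act
  split_ifs with hl
  · rw [h l (hA hl)]
  · rfl

theorem D_update_j (x : Fin n → F) {S : Finset I} {i : I} (hi : i ∉ S) (j : I → Fin n) (c : Fin n)
    (Φ : (I → F) → ZMod p) (g : I → F) : D x S (update j i c) Φ g = D x S j Φ g := by
  refine D_congr_j x (fun l hl => ?_) Φ g
  rw [update_of_ne]
  rintro rfl
  exact hi hl

theorem D_zero_of_indep (x : Fin n → F) {S : Finset I} {i : I} (hi : i ∈ S) (j : I → Fin n)
    (Φ : (I → F) → ZMod p) (hΦ : ∀ g y, Φ (update g i y) = Φ g) (g : I → F) :
    D x S j Φ g = 0 := by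
  rw [← Finset.insert_erase hi, D_insert x (Finset.notMem_erase i S)]
  rw [sub_eq_zero]
  unfold D
  refine Finset.sum_congr rfl fun A hA => ?_
  rw [Finset.mem_powerset] at hA
  have hiA : i ∉ A := fun h => Finset.notMem_erase i S (hA h)
  rw [act_update x hiA, hΦ]

theorem D_sub (x : Fin n → F) (S : Finset I) (j : I → Fin n) (Φ Ψ : (I → F) → ZMod p)
    (g : I → F) : D x S j (fun g => Φ g - Ψ g) g = D x S j Φ g - D x S j Ψ g := by
  unfold D
  rw [← Finset.sum_sub_distrib]
  refine Finset.sum_congr rfl fun A _ => ?_
  ring

theorem D_sum (x : Fin n → F) (S : Finset I) (j : I → Fin n) {ι : Type} (B : Finset ι)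
    (Φ : ι → (I → F) → ZMod p) (g : I → F) :
    D x S j (fun g => ∑ b ∈ B, Φ b g) g = ∑ b ∈ B, D x S j (Φ b) g := by
  unfold D
  rw [Finset.sum_comm]
  refine Finset.sum_congr rfl fun A _ => ?_
  rw [Finset.mul_sum]

/-- Dependence on coordinates. -/
theorem dep_of_indep {P : (I → F) → ZMod p} {S : Finset I}
    (h : ∀ i, i ∉ S → ∀ g y, P (update g i y) = P g) {g g' : I → F}
    (hg : ∀ i ∈ S, g i = g' i) : P g = P g' := by
  have key : ∀ B : Finset I, P (fun i => if i ∈ B then g' i else g i) = P g := by
    intro B
    induction B using Finset.induction_on with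
    | empty => simp
    | insert b B hb ih =>
      rw [← ih]
      have : (fun i => if i ∈ insert b B then g' i else g i) =
          update (fun i => if i ∈ B then g' i else g i) b (g' b) := by
        funext l
        by_cases hl : l = b
        · subst hl; simp
        · simp [hl]
      rw [this]
      by_cases hbS : b ∈ S
      · rw [← hg b hbS]
        congr 1
        funext l
        by_cases hl : l = b
        · subst hl; simp [hb]
        · simp [hl]
      · exact h b hbS _ _
  have := key Finset.univ
  simp only [Finset.mem_univ, if_true] at this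
  exact this.symm

/-! ### Locally constant functions -/

section top

variable [TopologicalSpace F] [IsTopologicalGroup F] [CompactSpace F] [T2Space F]
  [TotallyDisconnectedSpace F] {x : Fin n → F}

theorem act_continuous (x : Fin n → F) (A : Finset I) (j : I → Fin n) :
    Continuous (act (I := I) x A j) := by
  refine continuous_pi fun i => ?_
  unfold act
  split_ifs
  · exact (continuous_apply i).mul continuous_const
  · exact continuous_apply i

theorem lc_D {Φ : (I → F) → ZMod p} (hΦ : IsLocallyConstant Φ) (x : Fin n → F) (S : Finset I)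
    (j : I → Fin n) : IsLocallyConstant (D x S j Φ) := by
  rw [IsLocallyConstant.iff_eventually_eq]
  intro g0
  have h1 : ∀ A ∈ S.powerset, ∀ᶠ g in 𝓝 g0, Φ (act x A j g) = Φ (act x A j g0) := by
    intro A _
    exact (IsLocallyConstant.iff_eventually_eq _).1 (hΦ.comp_continuous (act_continuous x A j)) g0
  filter_upwards [(Filter.eventually_all_finset _).2 h1] with g hg
  unfold D
  exact Finset.sum_congr rfl fun A hA => by rw [hg A hA]

theorem lc_sub {α : Type} [TopologicalSpace α] {Φ Ψ : α → ZMod p} (hΦ : IsLocallyConstant Φ)
    (hΨ : IsLocallyConstant Ψ) : IsLocallyConstant (fun g => Φ g - Ψ g) := by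
  rw [IsLocallyConstant.iff_eventually_eq] at *
  intro g0
  filter_upwards [hΦ g0, hΨ g0] with g h1 h2
  rw [h1, h2]

theorem lc_sum {α : Type} [TopologicalSpace α] {ι : Type} (B : Finset ι) {Φ : ι → α → ZMod p}
    (hΦ : ∀ b ∈ B, IsLocallyConstant (Φ b)) : IsLocallyConstant (fun g => ∑ b ∈ B, Φ b g) := by
  rw [IsLocallyConstant.iff_eventually_eq]
  intro g0
  have h1 : ∀ b ∈ B, ∀ᶠ g in 𝓝 g0, Φ b g = Φ b g0 := fun b hb =>
    (IsLocallyConstant.iff_eventually_eq _).1 (hΦ b hb) g0
  filter_upwards [(Filter.eventually_all_finset _).2 h1] with g hg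
  exact Finset.sum_congr rfl fun b hb => hg b hb

/-- A locally constant function with zero differences in the coordinate `i` does not depend on this
coordinate. -/
theorem indep (h : FreeData p x) {Φ : (I → F) → ZMod p} (hΦ : IsLocallyConstant Φ) (i : I)
    (hd : ∀ (c : Fin n) g, Φ (update g i (g i * x c)) = Φ g) (g : I → F) (y : F) :
    Φ (update g i y) = Φ g := by
  have h1 : ∀ y, Φ (update g i y) = Φ (update g i 1) := by
    intro y
    refine h.const_lc (fun y => Φ (update g i y)) ?_ ?_ y
    · exact hΦ.comp_continuous (continuous_const.update i continuous_id)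
    · intro y c
      have := hd c (update g i y)
      rw [update_self, update_idem] at this
      exact this
  have h2 := h1 (g i)
  rw [update_eq_self] at h2
  rw [h1 y, h2]

/-- Vanishing of the differences of order `k + 1`. -/
def Fil (x : Fin n → F) (k : ℕ) (Φ : (I → F) → ZMod p) : Prop :=
  ∀ S : Finset I, S.card = k + 1 → ∀ (j : I → Fin n) (g : I → F), D x S j Φ g = 0

theorem fil_dep (h : FreeData p x) {k : ℕ} {Φ : (I → F) → ZMod p} (hΦ : IsLocallyConstant Φ)
    (hf : Fil x k Φ) {S : Finset I} (hS : S.card = k) (j : I → Fin n) {g g' : I → F}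
    (hg : ∀ i ∈ S, g i = g' i) : D x S j Φ g = D x S j Φ g' := by
  refine dep_of_indep (S := S) (fun i hi g y => ?_) hg
  refine indep h (lc_D hΦ x S j) i (fun c g => ?_) g y
  have h1 := hf (insert i S) (by rw [Finset.card_insert_of_notMem hi, hS]) (update j i c) g
  rw [D_insert x hi, update_self, D_update_j x hi, D_update_j x hi, sub_eq_zero] at h1
  exact h1

/-- A chosen solution of `u (g x_c) = u g + b c g`. -/
noncomputable def integ (p : ℕ) (x : Fin n → F) (b : Fin n → F → ZMod p) : F → ZMod p :=
  open Classical in
  if h : ∃ u : F → ZMod p, IsLocallyConstant u ∧ ∀ g c, u (g * x c) = u g + b c g then h.choose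
  else fun _ => 0

theorem integ_spec [Fact p.Prime] (h : FreeData p x) {b : Fin n → F → ZMod p}
    (hb : ∀ c, IsLocallyConstant (b c)) :
    IsLocallyConstant (integ p x b) ∧ ∀ g c, integ p x b (g * x c) = integ p x b g + b c g := by
  have hex : ∃ u : F → ZMod p, IsLocallyConstant u ∧ ∀ g c, u (g * x c) = u g + b c g := by
    obtain ⟨u, _, hu⟩ := h.basis (ZMod p) ⟨1, by rw [Nat.card_zmod, pow_one]⟩
      (fun c => ⟨b c, hb c⟩)
    exact ⟨u, u.isLocallyConstant, hu⟩
  unfold integ
  rw [dif_pos hex]
  exact hex.choose_spec

/-- Surjectivity of the iterated differences. -/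
theorem surj [Fact p.Prime] (h : FreeData p x) (S T : Finset I) (hST : S ⊆ T) :
    ∀ (Z : (I → Fin n) → (I → F) → ZMod p), (∀ j, IsLocallyConstant (Z j)) →
    (∀ j j', (∀ i ∈ S, j i = j' i) → Z j = Z j') →
    (∀ j g g', (∀ i ∈ T, g i = g' i) → Z j g = Z j g') →
    ∃ Φ : (I → F) → ZMod p, IsLocallyConstant Φ ∧
      (∀ g g', (∀ i ∈ T, g i = g' i) → Φ g = Φ g') ∧ ∀ j g, D x S j Φ g = Z j g := by
  induction S using Finset.induction_on with
  | empty =>
    intro Z hZ hj hg
    by_cases hne : Nonempty (I → Fin n)
    · obtain ⟨j0⟩ := hne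
      refine ⟨Z j0, hZ j0, hg j0, fun j g => ?_⟩
      have : Z j = Z j0 := hj j j0 (fun i hi => absurd hi (Finset.notMem_empty i))
      have hact : act x ∅ j g = g := by
        funext l
        simp [act]
      rw [this]
      simp [D, hact]
    · refine ⟨fun _ => 0, IsLocallyConstant.const 0, fun _ _ _ => rfl, fun j => ?_⟩
      exact absurd ⟨j⟩ hne
  | insert i S hi ih =>
    intro Z hZ hj hg
    have hiT : i ∈ T := hST (Finset.mem_insert_self i S)
    -- integration in the coordinate `i`
    let b : (I → Fin n) → (I → F) → Fin n → F → ZMod p :=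
      fun j g c y => Z (update j i c) (update g i y)
    have hb : ∀ j g c, IsLocallyConstant (b j g c) := fun j g c =>
      (hZ (update j i c)).comp_continuous (continuous_const.update i continuous_id)
    let G : (I → Fin n) → (I → F) → ZMod p := fun j g => integ p x (b j g) (g i)
    have hbu : ∀ j g y, b j (update g i y) = b j g := by
      intro j g y
      funext c y'
      simp only [b, update_idem]
    have hG1 : ∀ j, IsLocallyConstant (G j) := by
      intro j
      rw [IsLocallyConstant.iff_eventually_eq]
      intro g0
      have h4 : ∀ᶠ g in 𝓝 g0, b j g = b j g0 := by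
        have h5 : ∀ c : Fin n, ∀ᶠ g in 𝓝 g0, ∀ y ∈ (Set.univ : Set F), b j g c y = b j g0 c y := by
          intro c
          refine isCompact_univ.eventually_forall_of_forall_eventually (fun y0 _ => ?_)
          have hlc := (IsLocallyConstant.iff_eventually_eq _).1 (hZ (update j i c))
            (update g0 i y0)
          have hc1 : Continuous (fun z : (I → F) × F => update z.1 i z.2) :=
            continuous_fst.update i continuous_snd
          have hc2 : Continuous (fun z : (I → F) × F => update g0 i z.2) :=
            continuous_const.update i continuous_snd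
          have e1 := hc1.tendsto (g0, y0) hlc
          have e2 := hc2.tendsto (g0, y0) hlc
          filter_upwards [e1, e2] with z hz1 hz2
          simp only [Set.mem_preimage, Set.mem_setOf_eq] at hz1 hz2
          exact hz1.trans hz2.symm
        have h6 := Filter.eventually_all.2 h5
        filter_upwards [h6] with g hg'
        funext c y
        exact hg' c y trivial
      have h7 : ∀ᶠ g in 𝓝 g0, integ p x (b j g0) (g i) = integ p x (b j g0) (g0 i) :=
        (continuous_apply i).tendsto g0
          ((IsLocallyConstant.iff_eventually_eq _).1 (integ_spec h (hb j g0)).1 (g0 i))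
      filter_upwards [h4, h7] with g h8 h9
      simp only [G]
      rw [h8, h9]
    have hG2 : ∀ j j', (∀ i ∈ S, j i = j' i) → G j = G j' := by
      intro j j' hjj
      funext g
      simp only [G]
      have : b j g = b j' g := by
        funext c y
        simp only [b]
        rw [hj (update j i c) (update j' i c)]
        intro l hl
        by_cases hli : l = i
        · subst hli; simp
        · rw [update_of_ne hli, update_of_ne hli]
          exact hjj l (Finset.mem_of_mem_insert_of_ne hl hli)
      rw [this]
    have hG3 : ∀ j g g', (∀ i ∈ T, g i = g' i) → G j g = G j g' := by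
      intro j g g' hgg
      simp only [G]
      have : b j g = b j g' := by
        funext c y
        simp only [b]
        apply hg
        intro l hl
        by_cases hli : l = i
        · subst hli; simp
        · rw [update_of_ne hli, update_of_ne hli]
          exact hgg l hl
      rw [this, hgg i hiT]
    obtain ⟨Φ, h1, h2, h3⟩ := ih ((Finset.subset_insert i S).trans hST) G hG1 hG2 hG3
    refine ⟨Φ, h1, h2, fun j g => ?_⟩
    rw [D_insert x hi, h3, h3]
    simp only [G, hbu, update_self]
    rw [(integ_spec h (hb j g)).2]
    simp only [b, update_eq_self]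
    ring

end top

end Pool.Agent.H42R2.Sm
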