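import Mathlib
import Pool.Agent.H42R2.Basic
import Pool.Agent.H42R2.SmithA

/-! Auxiliary constructions for `Smith.lean`. -/

set_option linter.unusedSectionVars false

namespace Pool.Agent.H42R2.Sm

open Topology Function

/-! ### A sum over the subsets of `ZMod p` -/

section shift

variable {p : ℕ} [Fact p.Prime]

theorem sum_shift (w : Finset (ZMod p) → ZMod p)
    (hw : ∀ A : Finset (ZMod p), w (A.map (Equiv.addRight (1 : ZMod p)).toEmbedding) = w A) :
    ∑ A : Finset (ZMod p), w A = w ∅ + w Finset.univ := by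
  have hp : p.Prime := Fact.out
  let v : ZMod p → ZMod p := fun a => ∑ A : Finset (ZMod p),
    (if a ∈ A then ((A.card : ZMod p))⁻¹ * w A else 0)
  have hv : ∀ a, v (a + 1) = v a := by
    intro a
    symm
    refine Finset.sum_nbij' (fun A => A.map (Equiv.addRight (1 : ZMod p)).toEmbedding)
      (fun A => A.map (Equiv.addRight (1 : ZMod p)).symm.toEmbedding) ?_ ?_ ?_ ?_ ?_
    · intro A _; exact Finset.mem_univ _
    · intro A _; exact Finset.mem_univ _
    · intro A _
      ext l
      simp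
    · intro A _
      ext l
      simp
    · intro A _
      rw [hw, Finset.card_map]
      have : a ∈ A ↔ a + 1 ∈ A.map (Equiv.addRight (1 : ZMod p)).toEmbedding := by
        simp
      by_cases h : a ∈ A
      · rw [if_pos h, if_pos (this.1 h)]
      · rw [if_neg h, if_neg (fun h' => h (this.2 h'))]
  have hv0 : ∀ m : ℕ, v (m : ZMod p) = v 0 := by
    intro m
    induction m with
    | zero => simp
    | succ m ih => rw [Nat.cast_succ, hv, ih]
  have hv1 : ∀ a, v a = v 0 := by
    intro a
    rw [← ZMod.natCast_zmod_val a]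
    exact hv0 _
  have hsum : ∑ a : ZMod p, v a = 0 := by
    rw [Finset.sum_congr rfl (fun a _ => hv1 a), Finset.sum_const, Finset.card_univ, ZMod.card]
    simp
  have hsum2 : ∑ a : ZMod p, v a = ∑ A : Finset (ZMod p), (A.card : ZMod p) *
      ((A.card : ZMod p)⁻¹ * w A) := by
    simp only [v]
    rw [Finset.sum_comm]
    refine Finset.sum_congr rfl fun A _ => ?_
    rw [← Finset.sum_filter, Finset.sum_const, nsmul_eq_mul]
    congr 2
    simp
  rw [hsum2] at hsum
  have hsplit : ∀ A : Finset (ZMod p), (A.card : ZMod p) * ((A.card : ZMod p)⁻¹ * w A) =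
      w A - (if A = ∅ then w ∅ else 0) - (if A = Finset.univ then w Finset.univ else 0) := by
    intro A
    by_cases h0 : A = ∅
    · subst h0
      have : (∅ : Finset (ZMod p)) ≠ Finset.univ := by
        intro h
        have := Finset.mem_univ (0 : ZMod p)
        rw [← h] at this
        exact absurd this (Finset.notMem_empty _)
      simp [this]
    · by_cases h1 : A = Finset.univ
      · subst h1
        rw [if_neg h0, if_pos rfl, Finset.card_univ, ZMod.card]
        simp
      · rw [if_neg h0, if_neg h1, sub_zero, sub_zero, ← mul_assoc, mul_inv_cancel₀, one_mul]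
        have hpos : 0 < A.card := Finset.card_pos.2 (Finset.nonempty_iff_ne_empty.2 h0)
        have hlt : A.card < p := by
          have h2 : A.card < Fintype.card (ZMod p) := by
            rw [← Finset.card_univ]
            exact Finset.card_lt_card (Finset.ssubset_univ_iff.2 h1)
          rwa [ZMod.card] at h2
        intro h3
        rw [ZMod.natCast_eq_zero_iff] at h3
        exact absurd (Nat.le_of_dvd hpos h3) (not_le.2 hlt)
  rw [Finset.sum_congr rfl (fun A _ => hsplit A), Finset.sum_sub_distrib,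
    Finset.sum_sub_distrib, Finset.sum_ite_eq', Finset.sum_ite_eq'] at hsum
  simp only [Finset.mem_univ, if_true] at hsum
  linear_combination hsum

end shift

/-! ### The functions `κ` and `e'` -/

section kap

variable {p : ℕ} {F : Type} [Group F] [TopologicalSpace F] [IsTopologicalGroup F]

theorem lc_of_inv {A : Type} {f : F → A} {U : Subgroup F} (hU : IsOpen (U : Set F))
    (hf : ∀ g, ∀ u ∈ U, f (g * u) = f g) : IsLocallyConstant f := by
  rw [IsLocallyConstant.iff_eventually_eq]
  intro g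
  have h1 : {y : F | g⁻¹ * y ∈ U} ∈ 𝓝 g := by
    refine (hU.preimage (continuous_const.mul continuous_id)).mem_nhds ?_
    simp [U.one_mem]
  filter_upwards [h1] with y hy
  have := hf g (g⁻¹ * y) hy
  rwa [mul_inv_cancel_left] at this

theorem exists_kappa (H : Subgroup F) (φ : F → ZMod p) (hφ : IsHom p H φ) :
    ∃ κ : F → ZMod p, IsLocallyConstant κ ∧ ∀ h ∈ H, ∀ g, κ (h * g) = φ h + κ g := by
  classical
  obtain ⟨U, hUn, hUo, hU0⟩ := hφ.cont
  let ψ : F → ZMod p := fun v => if h : ∃ h, h ∈ H ∧ h⁻¹ * v ∈ U then φ h.choose else 0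
  have hψ : ∀ h ∈ H, ∀ u ∈ U, ψ (h * u) = φ h := by
    intro h hh u hu
    have hex : ∃ h', h' ∈ H ∧ h'⁻¹ * (h * u) ∈ U := ⟨h, hh, by rwa [inv_mul_cancel_left]⟩
    have : ψ (h * u) = φ hex.choose := dif_pos hex
    rw [this]
    obtain ⟨h1, h2⟩ := hex.choose_spec
    set h' := hex.choose
    have h3 : h'⁻¹ * h ∈ U := by
      have := U.mul_mem h2 (U.inv_mem hu)
      rwa [mul_assoc, mul_assoc, mul_inv_cancel, mul_one] at this
    have h4 : h'⁻¹ * h ∈ H := H.mul_mem (H.inv_mem h1) hh
    have h5 := hφ.mul h' h1 (h'⁻¹ * h) h4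
    rw [mul_inv_cancel_left, hU0 _ h4 h3, add_zero] at h5
    exact h5.symm
  let V : Subgroup F := H ⊔ U
  have hV : ∀ v, v ∈ V ↔ ∃ h ∈ H, ∃ u ∈ U, h * u = v := by
    intro v
    have := Subgroup.mul_normal H U
    rw [← SetLike.mem_coe, this, Set.mem_mul]
    rfl
  have hHV : ∀ h ∈ H, h ∈ V := fun h hh => (hV h).2 ⟨h, hh, 1, U.one_mem, mul_one h⟩
  have hUV : ∀ u ∈ U, u ∈ V := fun u hu => (hV u).2 ⟨1, H.one_mem, u, hu, one_mul u⟩
  let s : F → F := fun g => (Quotient.mk (QuotientGroup.rightRel V) g).out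
  have hs1 : ∀ g, g * (s g)⁻¹ ∈ V := by
    intro g
    have : (QuotientGroup.rightRel V) (s g) g := Quotient.mk_out (s := QuotientGroup.rightRel V) g
    rwa [QuotientGroup.rightRel_apply] at this
  have hs2 : ∀ v ∈ V, ∀ g, s (v * g) = s g := by
    intro v hv g
    have : Quotient.mk (QuotientGroup.rightRel V) (v * g) =
        Quotient.mk (QuotientGroup.rightRel V) g := by
      apply Quotient.sound
      change (QuotientGroup.rightRel V) (v * g) g
      rw [QuotientGroup.rightRel_apply, mul_inv_rev, mul_inv_cancel_left]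
      exact V.inv_mem hv
    simp only [s, this]
  refine ⟨fun g => ψ (g * (s g)⁻¹), ?_, ?_⟩
  · refine lc_of_inv hUo (fun g u hu => ?_)
    have h1 : g * u = (g * u * g⁻¹) * g := by rw [inv_mul_cancel_right]
    have h2 : g * u * g⁻¹ ∈ U := hUn.conj_mem u hu g
    have h3 : s (g * u) = s g := by
      rw [h1]
      exact hs2 _ (hUV _ h2) g
    simp only [h3]
    obtain ⟨h', hh', u', hu', h4⟩ := (hV _).1 (hs1 g)
    rw [h1, mul_assoc, ← h4, hψ h' hh' u' hu']
    have h5 : g * u * g⁻¹ * (h' * u') = h' * (h'⁻¹ * (g * u * g⁻¹) * h' * u') := by group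
    rw [h5, hψ h' hh']
    refine U.mul_mem ?_ hu'
    have := hUn.conj_mem _ h2 h'⁻¹
    rwa [inv_inv] at this
  · intro h hh g
    simp only [hs2 h (hHV h hh) g]
    obtain ⟨h', hh', u', hu', h4⟩ := (hV _).1 (hs1 g)
    rw [mul_assoc, ← h4, ← mul_assoc, hψ _ (H.mul_mem hh hh') u' hu', hψ h' hh' u' hu',
      hφ.mul h hh h' hh']

variable [CompactSpace F] [T2Space F] [TotallyDisconnectedSpace F]

theorem exists_et (t : MulAut F) (ht : Continuous t) (e : F → ZMod p)
    (he : IsLocallyConstant e) (hinv : ∀ h ∈ fixSub t, ∀ g, e (h * g) = e g) :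
    ∃ e' : F → ZMod p, IsLocallyConstant e' ∧ ∀ g, e' ((t g)⁻¹ * g) = e g := by
  classical
  let q : F → F := fun g => (t g)⁻¹ * g
  have hq : Continuous q := ht.inv.mul continuous_id
  have hqe : ∀ g g', q g = q g' → e g = e g' := by
    intro g g' h
    have h1 : t (g' * g⁻¹) = g' * g⁻¹ := by
      rw [map_mul, map_inv]
      have h2 : (t g)⁻¹ * g = (t g')⁻¹ * g' := h
      calc t g' * (t g)⁻¹ = t g' * ((t g)⁻¹ * g) * g⁻¹ := by group
        _ = t g' * ((t g')⁻¹ * g') * g⁻¹ := by rw [h2]
        _ = g' * g⁻¹ := by group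
    have h3 := hinv (g' * g⁻¹) h1 g
    rw [inv_mul_cancel_right] at h3
    exact h3.symm
  let B : Set (F × F) := {z | e z.1 ≠ e z.2}
  have hB : IsClosed B := by
    have h1 : IsLocallyConstant (fun z : F × F => e z.1 - e z.2) :=
      lc_sub (he.comp_continuous continuous_fst) (he.comp_continuous continuous_snd)
    have h2 : Bᶜ = (fun z : F × F => e z.1 - e z.2) ⁻¹' {0} := by
      ext z
      simp only [B, Set.mem_compl_iff, Set.mem_preimage, Set.mem_singleton_iff, sub_eq_zero]
      exact not_not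
    rw [← isOpen_compl_iff, h2]
    exact h1 {0}
  let K : Set F := (fun z : F × F => (q z.1)⁻¹ * q z.2) '' B
  have hK : IsClosed K := by
    refine (hB.isCompact.image ?_).isClosed
    exact (hq.comp continuous_fst).inv.mul (hq.comp continuous_snd)
  have h1K : (1 : F) ∈ Kᶜ := by
    rintro ⟨z, hz, h1⟩
    simp only at h1
    exact hz (hqe _ _ (inv_mul_eq_one.1 h1))
  obtain ⟨U, hUn, hUo, hUK⟩ := exists_openNormal hK.isOpen_compl h1K
  have hkey : ∀ z g g', (q g)⁻¹ * z ∈ U → (q g')⁻¹ * z ∈ U → e g = e g' := by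
    intro z g g' h1 h2
    by_contra hne
    have h3 : (q g)⁻¹ * q g' ∈ U := by
      have h4 : (q g)⁻¹ * q g' = ((q g)⁻¹ * z) * ((q g')⁻¹ * z)⁻¹ := by group
      rw [h4]
      exact U.mul_mem h1 (U.inv_mem h2)
    exact hUK h3 ⟨(g, g'), hne, rfl⟩
  let e' : F → ZMod p := fun z => if h : ∃ g, (q g)⁻¹ * z ∈ U then e h.choose else 0
  have he' : ∀ z g, (q g)⁻¹ * z ∈ U → e' z = e g := by
    intro z g h
    have hex : ∃ g, (q g)⁻¹ * z ∈ U := ⟨g, h⟩
    have : e' z = e hex.choose := dif_pos hex
    rw [this]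
    exact hkey z _ _ hex.choose_spec h
  refine ⟨e', lc_of_inv hUo (fun z u hu => ?_), fun g => he' _ g ?_⟩
  · by_cases hex : ∃ g, (q g)⁻¹ * z ∈ U
    · obtain ⟨g, hg⟩ := hex
      rw [he' z g hg, he' (z * u) g]
      rw [← mul_assoc]
      exact U.mul_mem hg hu
    · have h1 : e' z = 0 := dif_neg hex
      have h2 : ¬ ∃ g, (q g)⁻¹ * (z * u) ∈ U := by
        rintro ⟨g, hg⟩
        refine hex ⟨g, ?_⟩
        have := U.mul_mem hg (U.inv_mem hu)
        rwa [mul_assoc, mul_assoc, mul_inv_cancel, mul_one] at this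
      have h3 : e' (z * u) = 0 := dif_neg h2
      rw [h1, h3]
  · change (q g)⁻¹ * q g ∈ U
    rw [inv_mul_cancel]
    exact U.one_mem

end kap

end Pool.Agent.H42R2.Sm
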