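import Mathlib
import Pool.Agent.H42R2.Basic
import Pool.Agent.H42R2.SmithA
import Pool.Agent.H42R2.SmithB

/-! The descending induction for `Smith.lean`. -/

set_option linter.unusedSectionVars false

namespace Pool.Agent.H42R2.Sm

open Topology Function

variable {p n : ℕ} [Fact p.Prime] {F : Type} [Group F]

/-- The least `m ≥ 0` with `l - m ∈ S`. -/
noncomputable def dep (S : Finset (ZMod p)) (l : ZMod p) : ℕ :=
  open Classical in if h : ∃ m : ℕ, l - (m : ZMod p) ∈ S then Nat.find h else 0

theorem dep_mem {S : Finset (ZMod p)} (hS : S.Nonempty) (l : ZMod p) :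
    l - (dep S l : ZMod p) ∈ S := by
  classical
  obtain ⟨s, hs⟩ := hS
  have hex : ∃ m : ℕ, l - (m : ZMod p) ∈ S := by
    refine ⟨(l - s).val, ?_⟩
    rw [ZMod.natCast_zmod_val, sub_sub_cancel]
    exact hs
  unfold dep
  rw [dif_pos hex]
  exact Nat.find_spec hex

theorem dep_zero {S : Finset (ZMod p)} {l : ZMod p} (hl : l ∈ S) : dep S l = 0 := by
  classical
  have hex : ∃ m : ℕ, l - (m : ZMod p) ∈ S := ⟨0, by simpa using hl⟩
  unfold dep
  rw [dif_pos hex, Nat.find_eq_zero]
  simpa using hl

theorem dep_shift {S S' : Finset (ZMod p)} {l l' : ZMod p}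
    (h : ∀ m : ℕ, l - (m : ZMod p) ∈ S ↔ l' - (m : ZMod p) ∈ S') : dep S l = dep S' l' := by
  classical
  unfold dep
  by_cases hex : ∃ m : ℕ, l - (m : ZMod p) ∈ S
  · have hex' : ∃ m : ℕ, l' - (m : ZMod p) ∈ S' := by
      obtain ⟨m, hm⟩ := hex
      exact ⟨m, (h m).1 hm⟩
    rw [dif_pos hex, dif_pos hex']
    exact Nat.find_congr' (fun {m} => h m)
  · have hex' : ¬ ∃ m : ℕ, l' - (m : ZMod p) ∈ S' := by
      rintro ⟨m, hm⟩
      exact hex ⟨m, (h m).2 hm⟩
    rw [dif_neg hex, dif_neg hex']

/-- Spreading the coordinates in `S` to all coordinates. -/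
noncomputable def gam (t : MulAut F) (S : Finset (ZMod p)) (g : ZMod p → F) : ZMod p → F :=
  fun l => (t ^ dep S l) (g (l - (dep S l : ZMod p)))

theorem gam_mem (t : MulAut F) {S : Finset (ZMod p)} (g : ZMod p → F) {l : ZMod p} (hl : l ∈ S) :
    gam t S g l = g l := by
  unfold gam
  rw [dep_zero hl]
  simp

theorem gam_dep (t : MulAut F) {S : Finset (ZMod p)} (hS : S.Nonempty) {g g' : ZMod p → F}
    (hg : ∀ i ∈ S, g i = g' i) : gam t S g = gam t S g' := by
  funext l
  unfold gam
  rw [hg _ (dep_mem hS l)]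

/-- Permute the coordinates and multiply from the left. -/
def app (w : ZMod p → F) (π : Equiv.Perm (ZMod p)) (g : ZMod p → F) : ZMod p → F :=
  fun i => w i * g (π i)

/-- The part of the symmetry group that we use. -/
structure IsSym (t : MulAut F) (Y : (ZMod p → Fin n) → (ZMod p → F) → ZMod p)
    (w : ZMod p → F) (π : Equiv.Perm (ZMod p)) : Prop where
  hY : ∀ j g, Y (j ∘ π) (app w π g) = Y j g
  hγ : ∀ S : Finset (ZMod p), S.Nonempty → ∀ g,
    gam t (S.map π.symm.toEmbedding) (app w π g) = app w π (gam t S g)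

theorem D_app (x : Fin n → F) (S : Finset (ZMod p)) (j : ZMod p → Fin n)
    (Φ : (ZMod p → F) → ZMod p) (w : ZMod p → F) (π : Equiv.Perm (ZMod p)) (g : ZMod p → F) :
    D x S j (fun g => Φ (app w π g)) g =
      D x (S.map π.symm.toEmbedding) (j ∘ π) Φ (app w π g) := by
  unfold D
  refine Finset.sum_nbij' (fun A => A.map π.symm.toEmbedding) (fun A => A.map π.toEmbedding)
    ?_ ?_ ?_ ?_ ?_
  · intro A hA
    rw [Finset.mem_powerset] at hA ⊢
    exact Finset.map_subset_map.2 hA
  · intro A hA
    rw [Finset.mem_powerset] at hA ⊢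
    intro l hl
    rw [Finset.mem_map] at hl
    obtain ⟨l', hl', rfl⟩ := hl
    have := hA hl'
    rw [Finset.mem_map] at this
    obtain ⟨l'', h1, h2⟩ := this
    simp only [Equiv.coe_toEmbedding] at h2 ⊢
    rw [← h2, Equiv.apply_symm_apply]
    exact h1
  · intro A _
    ext l
    simp
  · intro A _
    ext l
    simp
  · intro A _
    rw [← Finset.map_sdiff, Finset.card_map]
    congr 1
    change Φ (app w π (act x A j g)) = _
    congr 1
    funext i
    unfold app act
    have : i ∈ A.map π.symm.toEmbedding ↔ π i ∈ A := by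
      simp
    by_cases h : π i ∈ A
    · rw [if_pos h, if_pos (this.2 h), mul_assoc]
      rfl
    · rw [if_neg h, if_neg (fun h' => h (this.1 h'))]

section top

variable [TopologicalSpace F] [IsTopologicalGroup F] [CompactSpace F] [T2Space F]
  [TotallyDisconnectedSpace F] {x : Fin n → F}

theorem pow_continuous {t : MulAut F} (ht : Continuous t) (m : ℕ) : Continuous (t ^ m : MulAut F) := by
  induction m with
  | zero =>
    have : ((t ^ 0 : MulAut F) : F → F) = id := by
      funext g; simp
    rw [this]; exact continuous_id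
  | succ m ih =>
    have : ((t ^ (m + 1) : MulAut F) : F → F) = (t ^ m : MulAut F) ∘ t := by
      funext g; simp [pow_succ]
    rw [this]; exact ih.comp ht

theorem gam_continuous {t : MulAut F} (ht : Continuous t) (S : Finset (ZMod p)) :
    Continuous (gam (F := F) t S) := by
  refine continuous_pi fun l => ?_
  exact (pow_continuous ht _).comp (continuous_apply _)

theorem app_continuous (w : ZMod p → F) (π : Equiv.Perm (ZMod p)) : Continuous (app w π) := by
  refine continuous_pi fun l => ?_
  exact continuous_const.mul (continuous_apply _)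

theorem D_empty (x : Fin n → F) (j : ZMod p → Fin n) (Φ : (ZMod p → F) → ZMod p)
    (g : ZMod p → F) : D x ∅ j Φ g = Φ g := by
  have hact : act x ∅ j g = g := by
    funext l
    simp [act]
  simp [D, hact]

theorem fil_zero (h : FreeData p x) {Φ : (ZMod p → F) → ZMod p} (hΦ : IsLocallyConstant Φ)
    (hf : Fil x 0 Φ) (g g' : ZMod p → F) : Φ g = Φ g' := by
  refine dep_of_indep (S := ∅) (fun i _ g y => ?_) (fun i hi => absurd hi (Finset.notMem_empty i))
  refine indep h hΦ i (fun c g => ?_) g y
  have h1 := hf (insert i ∅) (by simp) (fun _ => c) g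
  rw [D_insert x (Finset.notMem_empty i), D_empty, D_empty, sub_eq_zero] at h1
  exact h1

theorem descend (h : FreeData p x) {t : MulAut F} (ht : Continuous t)
    (Y : (ZMod p → Fin n) → (ZMod p → F) → ZMod p) (hY : ∀ j, IsLocallyConstant (Y j)) (k : ℕ) :
    k ≤ p - 1 → ∃ Φ : (ZMod p → F) → ZMod p, IsLocallyConstant Φ ∧
      (∀ j g, D x Finset.univ j Φ g = Y j g) ∧
      ∀ w π, IsSym t Y w π → Fil x (p - 1 - k) (fun g => Φ (app w π g) - Φ g) := by
  have hp : p.Prime := Fact.out
  have hp2 := hp.two_le
  have hcard : (Finset.univ : Finset (ZMod p)).card = p := by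
    rw [Finset.card_univ, ZMod.card]
  induction k with
  | zero =>
    intro _
    obtain ⟨Φ, h1, _, h3⟩ := surj h Finset.univ Finset.univ (Finset.Subset.refl _) Y hY
      (fun j j' hj => by
        have : j = j' := funext fun i => hj i (Finset.mem_univ i)
        rw [this])
      (fun j g g' hg => by
        have : g = g' := funext fun i => hg i (Finset.mem_univ i)
        rw [this])
    refine ⟨Φ, h1, h3, fun w π hs S hS j g => ?_⟩
    have hSu : S = Finset.univ := by
      rw [← Finset.card_eq_iff_eq_univ, hS, ZMod.card]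
      omega
    subst hSu
    rw [D_sub, D_app, Finset.map_univ_equiv, h3, h3, hs.hY, sub_self]
  | succ k ih =>
    intro hk
    obtain ⟨Φ, h1, h2, h3⟩ := ih (by omega)
    set r : ℕ := p - 1 - k with hr
    have hr1 : 1 ≤ r := by omega
    have hrp : r < p := by omega
    have hne : ∀ S : Finset (ZMod p), S.card = r → S.Nonempty := by
      intro S hS
      rw [← Finset.card_pos, hS]
      omega
    have hex : ∀ S : Finset (ZMod p), S.card = r → ∃ Ψ : (ZMod p → F) → ZMod p,
        IsLocallyConstant Ψ ∧ (∀ g g', (∀ i ∈ S, g i = g' i) → Ψ g = Ψ g') ∧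
        ∀ j g, D x S j Ψ g = D x S j Φ (gam t S g) := by
      intro S hS
      refine surj h S S (Finset.Subset.refl _) (fun j g => D x S j Φ (gam t S g)) ?_ ?_ ?_
      · intro j
        exact (lc_D h1 x S j).comp_continuous (gam_continuous ht S)
      · intro j j' hj
        funext g
        exact D_congr_j x hj Φ _
      · intro j g g' hg
        rw [gam_dep t (hne S hS) hg]
    choose! Ψ hΨ1 hΨ2 hΨ3 using hex
    let Φ₁ : (ZMod p → F) → ZMod p := fun g => ∑ S ∈ Finset.powersetCard r Finset.univ, Ψ S g
    have hmem : ∀ S : Finset (ZMod p), S ∈ Finset.powersetCard r Finset.univ ↔ S.card = r := by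
      intro S
      rw [Finset.mem_powersetCard_univ]
    have hΦ₁ : IsLocallyConstant Φ₁ := lc_sum _ fun S hS => hΨ1 S ((hmem S).1 hS)
    have hother : ∀ S S' : Finset (ZMod p), S'.card = r → r ≤ S.card → S ≠ S' →
        ∀ j g, D x S j (Ψ S') g = 0 := by
      intro S S' hS' hS hne' j g
      obtain ⟨i, hi, hi'⟩ : ∃ i ∈ S, i ∉ S' := by
        by_contra hcon
        push Not at hcon
        exact hne' (Finset.eq_of_subset_of_card_le hcon (by rw [hS']; exact hS))
      refine D_zero_of_indep x hi j (Ψ S') (fun g y => ?_) g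
      refine hΨ2 S' hS' _ _ (fun l hl => ?_)
      rw [update_of_ne]
      rintro rfl
      exact hi' hl
    have hD1 : ∀ S : Finset (ZMod p), S.card = r → ∀ j g,
        D x S j Φ₁ g = D x S j Φ (gam t S g) := by
      intro S hS j g
      rw [D_sum, Finset.sum_eq_single S, hΨ3 S hS]
      · intro S' hS' hne'
        exact hother S S' ((hmem S').1 hS') hS.ge (Ne.symm hne') j g
      · intro hS'
        exact absurd ((hmem S).2 hS) hS'
    have hD2 : ∀ j g, D x Finset.univ j Φ₁ g = 0 := by
      intro j g
      rw [D_sum]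
      refine Finset.sum_eq_zero fun S' hS' => ?_
      have hS'' := (hmem S').1 hS'
      refine hother _ S' hS'' (by rw [hcard]; exact hrp.le) ?_ j g
      rintro rfl
      rw [hcard] at hS''
      omega
    refine ⟨fun g => Φ g - Φ₁ g, lc_sub h1 hΦ₁, ?_, ?_⟩
    · intro j g
      rw [D_sub, h2, hD2, sub_zero]
    · intro w π hs S hS j g
      have hSr : S.card = r := by omega
      have hfil := h3 w π hs
      have hlc : IsLocallyConstant (fun g => Φ (app w π g) - Φ g) :=
        lc_sub (h1.comp_continuous (app_continuous w π)) h1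
      have hrw : (fun g => Φ (app w π g) - Φ₁ (app w π g) - (Φ g - Φ₁ g)) =
          (fun g => (fun g => Φ (app w π g) - Φ g) g - (fun g => Φ₁ (app w π g) - Φ₁ g) g) := by
        funext g
        simp only
        ring
      have hcS : (S.map π.symm.toEmbedding).card = r := by rw [Finset.card_map, hSr]
      change D x S j (fun g => Φ (app w π g) - Φ₁ (app w π g) - (Φ g - Φ₁ g)) g = 0
      rw [hrw, D_sub, D_sub x S j (fun g => Φ₁ (app w π g)), D_app x S j Φ₁, hD1 _ hcS, hD1 S hSr,
        hs.hγ S (hne S hSr), ← D_app, ← D_sub]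
      rw [sub_eq_zero]
      exact fil_dep h hlc hfil hSr j (fun i hi => (gam_mem t g hi).symm)

end top

end Pool.Agent.H42R2.Sm
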