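import Mathlib
import Pool.Agent.H42R2.Basic
import Pool.Agent.H42R2.SmithA
import Pool.Agent.H42R2.SmithB
import Pool.Agent.H42R2.SmithC

/-! Every continuous homomorphism `Fix t → ℤ/p` extends to `Fix (t ^ p ^ a)`. -/

set_option linter.unusedSectionVars false

namespace Pool.Agent.H42R2

open Topology

namespace Sm

variable {p : ℕ} [Fact p.Prime] {n : ℕ} {F : Type} [Group F]

theorem pow_fix {t : MulAut F} {u : F} (hu : u ∈ fixSub (t ^ p)) {a b : ℕ}
    (hab : (a : ZMod p) = b) : (t ^ a) u = (t ^ b) u := by
  have h1 : ∀ m : ℕ, (t ^ (p * m)) u = u := by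
    intro m
    induction m with
    | zero => simp
    | succ m ih =>
      rw [Nat.mul_succ, pow_add, MulAut.mul_apply, (show (t ^ p) u = u from hu), ih]
  have h2 : ∀ a : ℕ, (t ^ a) u = (t ^ (a % p)) u := by
    intro a
    conv_lhs => rw [← Nat.mod_add_div a p]
    rw [pow_add, MulAut.mul_apply, h1]
  rw [h2 a, h2 b]
  congr 2
  exact (ZMod.natCast_eq_natCast_iff' a b p).1 hab

variable [TopologicalSpace F]
    [IsTopologicalGroup F] [CompactSpace F] [T2Space F] [TotallyDisconnectedSpace F]
    {x : Fin n → F}

theorem lc_prod {α : Type} [TopologicalSpace α] {ι : Type} (B : Finset ι) {Φ : ι → α → ZMod p}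
    (hΦ : ∀ b ∈ B, IsLocallyConstant (Φ b)) : IsLocallyConstant (fun g => ∏ b ∈ B, Φ b g) := by
  rw [IsLocallyConstant.iff_eventually_eq]
  intro g0
  have h1 : ∀ b ∈ B, ∀ᶠ g in 𝓝 g0, Φ b g = Φ b g0 := fun b hb =>
    (IsLocallyConstant.iff_eventually_eq _).1 (hΦ b hb) g0
  filter_upwards [(Filter.eventually_all_finset _).2 h1] with g hg
  exact Finset.prod_congr rfl fun b hb => hg b hb

theorem smith1 (h : FreeData p x) (t : MulAut F) (ht : Continuous t)
    (φ : F → ZMod p) (hφ : IsHom p (fixSub t) φ) :
    ∃ χ : F → ZMod p, IsHom p (fixSub (t ^ p)) χ ∧ ∀ g ∈ fixSub t, χ g = φ g := by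
  classical
  have hp : p.Prime := Fact.out
  obtain ⟨κ, hκ, hκH⟩ := exists_kappa (fixSub t) φ hφ
  -- the differences of `κ`
  have hlcm : ∀ c : Fin n, IsLocallyConstant (fun g => κ (g * x c)) := fun c =>
    hκ.comp_continuous (continuous_id.mul continuous_const)
  have hex : ∀ c : Fin n, ∃ e' : F → ZMod p, IsLocallyConstant e' ∧
      ∀ g, e' ((t g)⁻¹ * g) = κ (g * x c) - κ g := by
    intro c
    refine exists_et t ht (fun g => κ (g * x c) - κ g) (lc_sub (hlcm c) hκ) ?_
    intro u hu g
    rw [mul_assoc, hκH u hu, hκH u hu]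
    ring
  choose e' he'1 he'2 using hex
  let Y : (ZMod p → Fin n) → (ZMod p → F) → ZMod p := fun j g =>
    ∏ i : ZMod p, e' (j i) ((t (g i))⁻¹ * g (i + 1))
  have hY : ∀ j, IsLocallyConstant (Y j) := by
    intro j
    refine lc_prod _ fun i _ => ?_
    refine (he'1 (j i)).comp_continuous ?_
    exact (ht.comp (continuous_apply i)).inv.mul (continuous_apply (i + 1))
  obtain ⟨Φ, hΦ, hΦY, hΦs⟩ := descend h ht Y hY (p - 1) le_rfl
  rw [Nat.sub_self] at hΦs
  -- the symmetries coming from `Fix (t ^ p)`
  let w : F → ZMod p → F := fun u i => (t ^ i.val) u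
  have hsymu : ∀ u ∈ fixSub (t ^ p), IsSym t Y (w u) (Equiv.refl (ZMod p)) := by
    intro u hu
    refine ⟨fun j g => ?_, fun S hS g => ?_⟩
    · simp only [Y]
      refine Finset.prod_congr rfl fun i _ => ?_
      simp only [app, w, Equiv.refl_apply, Function.comp_apply, Equiv.coe_refl, id_eq]
      congr 1
      have h1 : t ((t ^ i.val) u) = (t ^ (i + 1).val) u := by
        have h2 : t ((t ^ i.val) u) = (t ^ (i.val + 1)) u := by
          rw [pow_succ', MulAut.mul_apply]
        rw [h2]
        refine pow_fix hu ?_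
        push_cast
        simp
      rw [map_mul, h1]
      group
    · have hmap : S.map (Equiv.refl (ZMod p)).symm.toEmbedding = S := by
        ext l; simp
      rw [hmap]
      funext l
      simp only [gam, app, Equiv.refl_apply, map_mul, w]
      congr 1
      rw [← MulAut.mul_apply, ← pow_add]
      refine pow_fix hu ?_
      push_cast
      simp
  -- the shift
  have hsyms : IsSym t Y (fun _ => 1) (Equiv.addRight (1 : ZMod p)) := by
    refine ⟨fun j g => ?_, fun S hS g => ?_⟩
    · simp only [Y, app, one_mul, Function.comp_apply, Equiv.coe_addRight]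
      exact Equiv.prod_comp (Equiv.addRight (1 : ZMod p))
        (fun i => e' (j i) ((t (g i))⁻¹ * g (i + 1)))
    · funext l
      simp only [gam, app, one_mul, Equiv.coe_addRight]
      have hd : dep (S.map (Equiv.addRight (1 : ZMod p)).symm.toEmbedding) l = dep S (l + 1) := by
        refine dep_shift fun m => ?_
        rw [Finset.mem_map]
        constructor
        · rintro ⟨s, hs, hs'⟩
          have : l + 1 - (m : ZMod p) = s := by
            have h2 : s = (l - (m : ZMod p)) + 1 := by
              rw [← hs']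
              simp
            rw [h2]; ring
          rwa [this]
        · intro hs
          refine ⟨_, hs, ?_⟩
          simp only [Equiv.coe_toEmbedding]
          rw [Equiv.symm_apply_eq]
          simp only [Equiv.coe_addRight]
          ring
      rw [hd]
      congr 2
      ring
  -- constancy
  have hlcw : ∀ v π, IsLocallyConstant (fun g => Φ (app v π g) - Φ g) := fun v π =>
    lc_sub (hΦ.comp_continuous (app_continuous v π)) hΦ
  have hconst : ∀ v π, IsSym t Y v π → ∀ g g',
      Φ (app v π g) - Φ g = Φ (app v π g') - Φ g' := fun v π hs g g' =>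
    fil_zero h (hlcw v π) (hΦs v π hs) g g'
  have hshift : ∀ g, Φ (app (fun _ => 1) (Equiv.addRight (1 : ZMod p)) g) = Φ g := by
    intro g
    have h1 := hconst _ _ hsyms g (fun _ => 1)
    have h2 : app (fun _ => (1 : F)) (Equiv.addRight (1 : ZMod p)) (fun _ => 1) = fun _ => 1 := by
      funext l
      simp [app]
    rw [h2, sub_self, sub_eq_zero] at h1
    exact h1
  -- the diagonal
  have hdiag : ∀ g c, Φ (fun _ => g * x c) - Φ (fun _ => g) = κ (g * x c) - κ g := by
    intro g c
    have h1 := hΦY (fun _ => c) (fun _ => g)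
    have h2 : Y (fun _ => c) (fun _ => g) = κ (g * x c) - κ g := by
      simp only [Y, he'2, Finset.prod_const, Finset.card_univ, ZMod.card]
      exact ZMod.pow_card _
    rw [h2] at h1
    rw [← h1]
    unfold D
    rw [Finset.powerset_univ]
    rw [sum_shift (fun A => (-1) ^ (Finset.univ \ A).card * Φ (act x A (fun _ => c) (fun _ => g)))]
    · have h3 : act x (∅ : Finset (ZMod p)) (fun _ => c) (fun _ => g) = fun _ => g := by
        funext l; simp [act]
      have h4 : act x (Finset.univ : Finset (ZMod p)) (fun _ => c) (fun _ => g) =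
          fun _ => g * x c := by
        funext l; simp [act]
      rw [h3, h4]
      simp only [Finset.sdiff_empty, Finset.card_univ, ZMod.card, Finset.sdiff_self,
        Finset.card_empty, pow_zero, one_mul]
      rw [ZMod.pow_card]
      ring
    · intro A
      have h5 : (Finset.univ \ A.map (Equiv.addRight (1 : ZMod p)).toEmbedding).card =
          (Finset.univ \ A).card := by
        rw [Finset.card_sdiff_of_subset (Finset.subset_univ _),
          Finset.card_sdiff_of_subset (Finset.subset_univ _), Finset.card_map]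
      rw [h5]
      congr 1
      rw [← hshift (act x (A.map (Equiv.addRight (1 : ZMod p)).toEmbedding) _ _)]
      congr 1
      funext l
      simp only [app, act, one_mul, Equiv.coe_addRight]
      have h6 : l + 1 ∈ A.map (Equiv.addRight (1 : ZMod p)).toEmbedding ↔ l ∈ A := by
        simp
      by_cases hl : l ∈ A
      · rw [if_pos hl, if_pos (h6.2 hl)]
      · rw [if_neg hl, if_neg (fun h' => hl (h6.1 h'))]
  have hfκ : ∀ g, Φ (fun _ => g) - κ g = Φ (fun _ => 1) - κ 1 := by
    intro g
    refine h.const_lc (fun g => Φ (fun _ => g) - κ g) ?_ ?_ g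
    · exact lc_sub (hΦ.comp_continuous (continuous_pi fun _ => continuous_id)) hκ
    · intro g c
      linear_combination hdiag g c
  -- the homomorphism
  have hw1 : w 1 = fun _ => 1 := by
    funext i
    simp [w]
  have hwc : Continuous w := continuous_pi fun i => pow_continuous ht _
  refine ⟨fun u => Φ (w u) - Φ (fun _ => 1), ⟨?_, ?_⟩, ?_⟩
  · intro u hu u' hu'
    have h1 : w (u * u') = app (w u) (Equiv.refl (ZMod p)) (w u') := by
      funext i
      simp [w, app]
    have h2 := hconst _ _ (hsymu u hu) (w u') (fun _ => 1)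
    have h3 : app (w u) (Equiv.refl (ZMod p)) (fun _ => 1) = w u := by
      funext i
      simp [app]
    rw [h3] at h2
    rw [h1]
    linear_combination h2
  · have h1 : IsLocallyConstant (fun u => Φ (w u)) := hΦ.comp_continuous hwc
    obtain ⟨V, hV, h1V, hVc⟩ := h1.exists_open 1
    obtain ⟨U, hUn, hUo, hUV⟩ := exists_openNormal hV h1V
    refine ⟨U, hUn, hUo, fun u _ hu => ?_⟩
    have := hVc u (hUV hu)
    rw [this, hw1, sub_self]
  · intro g hg
    have h1 : w g = fun _ => g := by
      funext i
      have : ∀ m : ℕ, (t ^ m) g = g := by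
        intro m
        induction m with
        | zero => simp
        | succ m ih => rw [pow_succ, MulAut.mul_apply, (show t g = g from hg), ih]
      exact this _
    simp only [h1]
    have h2 := hfκ g
    have h3 := hκH g hg 1
    rw [mul_one] at h3
    linear_combination h2 + h3

end Sm

theorem smith {p : ℕ} [Fact p.Prime] {n : ℕ} {F : Type} [Group F] [TopologicalSpace F]
    [IsTopologicalGroup F] [CompactSpace F] [T2Space F] [TotallyDisconnectedSpace F]
    {x : Fin n → F} (h : FreeData p x) (t : MulAut F) (ht : Continuous t) (a : ℕ)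
    (φ : F → ZMod p) (hφ : IsHom p (fixSub t) φ) :
    ∃ χ : F → ZMod p, IsHom p (fixSub (t ^ p ^ a)) χ ∧ ∀ g ∈ fixSub t, χ g = φ g := by
  induction a with
  | zero =>
    refine ⟨φ, ?_, fun _ _ => rfl⟩
    rwa [pow_zero, pow_one]
  | succ a ih =>
    obtain ⟨χ, h1, h2⟩ := ih
    obtain ⟨χ', h3, h4⟩ := Sm.smith1 h (t ^ p ^ a) (Sm.pow_continuous ht _) χ h1
    refine ⟨χ', ?_, fun g hg => ?_⟩
    · rwa [← pow_mul, ← pow_succ] at h3
    · have h5 : g ∈ fixSub (t ^ p ^ a) := by
        change (t ^ p ^ a) g = g
        have : ∀ m : ℕ, (t ^ m) g = g := by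
          intro m
          induction m with
          | zero => simp
          | succ m ih => rw [pow_succ, MulAut.mul_apply, (show t g = g from hg), ih]
        exact this _
      rw [h4 g h5, h2 g hg]

end Pool.Agent.H42R2
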